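import Mathlib

/-!
# Plane geometry: cyclic order of three directions
-/

namespace Pool.Agent.Lib.MP_8b4fe7_lc

open Filter Topology

/-- The plane as pairs of real numbers. -/
abbrev Pt : Type := ℝ × ℝ

/-- The determinant of two plane vectors. -/
def det (u v : Pt) : ℝ := u.1 * v.2 - u.2 * v.1

/-- Counterclockwise rotation by a right angle. -/
def J (u : Pt) : Pt := (-u.2, u.1)

/-- The cyclic order of the three directions `u, v, w` is counterclockwise. -/
def cyc (u v w : Pt) : Prop :=
  (0 < det u v ∧ 0 < det v w) ∨ (0 < det v w ∧ 0 < det w u) ∨ (0 < det w u ∧ 0 < det u v)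

theorem det_swap (u v : Pt) : det v u = - det u v := by unfold det; ring
theorem det_self (u : Pt) : det u u = 0 := by unfold det; ring
theorem det_add_left (u u' v : Pt) : det (u + u') v = det u v + det u' v := by
  unfold det; simp only [Prod.fst_add, Prod.snd_add]; ring
theorem det_add_right (u v v' : Pt) : det u (v + v') = det u v + det u v' := by
  unfold det; simp only [Prod.fst_add, Prod.snd_add]; ring
theorem det_sub_left (u u' v : Pt) : det (u - u') v = det u v - det u' v := by
  unfold det; simp only [Prod.fst_sub, Prod.snd_sub]; ring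
theorem det_sub_right (u v v' : Pt) : det u (v - v') = det u v - det u v' := by
  unfold det; simp only [Prod.fst_sub, Prod.snd_sub]; ring
theorem det_smul_left (a : ℝ) (u v : Pt) : det (a • u) v = a * det u v := by
  unfold det; simp only [Prod.smul_fst, Prod.smul_snd, smul_eq_mul]; ring
theorem det_smul_right (a : ℝ) (u v : Pt) : det u (a • v) = a * det u v := by
  unfold det; simp only [Prod.smul_fst, Prod.smul_snd, smul_eq_mul]; ring
theorem det_neg_left (u v : Pt) : det (-u) v = - det u v := by
  unfold det; simp only [Prod.fst_neg, Prod.snd_neg]; ring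
theorem det_neg_right (u v : Pt) : det u (-v) = - det u v := by
  unfold det; simp only [Prod.fst_neg, Prod.snd_neg]; ring
theorem det_zero_left (v : Pt) : det 0 v = 0 := by unfold det; simp
theorem det_zero_right (v : Pt) : det v 0 = 0 := by unfold det; simp

theorem det_J_pos {u : Pt} (hu : u ≠ 0) : 0 < det u (J u) := by
  have h : det u (J u) = u.1 * u.1 + u.2 * u.2 := by unfold det J; ring
  rw [h]
  by_contra hn
  apply hu
  have h1 : u.1 * u.1 = 0 := by nlinarith [mul_self_nonneg u.1, mul_self_nonneg u.2]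
  have h2 : u.2 * u.2 = 0 := by nlinarith [mul_self_nonneg u.1, mul_self_nonneg u.2]
  exact Prod.ext (mul_self_eq_zero.1 h1) (mul_self_eq_zero.1 h2)

theorem det_J_J (u v : Pt) : det (J u) (J v) = det u v := by unfold det J; ring

theorem cyc_rot {u v w : Pt} (h : cyc u v w) : cyc v w u := by
  unfold cyc at *; tauto

theorem cyc_rot' {u v w : Pt} (h : cyc u v w) : cyc w u v := by
  unfold cyc at *; tauto

theorem cyc_smul {a b c : ℝ} (ha : 0 < a) (hb : 0 < b) (hc : 0 < c) {u v w : Pt}
    (h : cyc u v w) : cyc (a • u) (b • v) (c • w) := by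
  unfold cyc at *
  simp only [det_smul_left, det_smul_right]
  rcases h with ⟨h1, h2⟩ | ⟨h1, h2⟩ | ⟨h1, h2⟩
  · left; exact ⟨by positivity, by positivity⟩
  · right; left; exact ⟨by positivity, by positivity⟩
  · right; right; exact ⟨by positivity, by positivity⟩

/-- Reflection in the first axis. -/
def refl (u : Pt) : Pt := (u.1, -u.2)

theorem det_refl (u v : Pt) : det (refl u) (refl v) = - det u v := by unfold det refl; ring

theorem refl_sub (u v : Pt) : refl (u - v) = refl u - refl v := by
  unfold refl; ext <;> simp; ring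

theorem refl_refl (u : Pt) : refl (refl u) = u := by unfold refl; simp

theorem cyc_refl {u v w : Pt} (h : cyc u v w) : cyc (refl v) (refl u) (refl w) := by
  unfold cyc at *
  simp only [det_refl]
  rw [det_swap u v, det_swap w u, det_swap v w] 
  simp only [neg_neg]
  tauto

theorem tendsto_det {α : Type*} {l : Filter α} {f g : α → Pt} {u v : Pt}
    (hf : Tendsto f l (𝓝 u)) (hg : Tendsto g l (𝓝 v)) :
    Tendsto (fun x => det (f x) (g x)) l (𝓝 (det u v)) := by
  have f1 := (continuous_fst.tendsto u).comp hf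
  have f2 := (continuous_snd.tendsto u).comp hf
  have g1 := (continuous_fst.tendsto v).comp hg
  have g2 := (continuous_snd.tendsto v).comp hg
  exact (f1.mul g2).sub (f2.mul g1)

theorem eventually_det_pos {α : Type*} {l : Filter α} {f g : α → Pt} {u v : Pt}
    (hf : Tendsto f l (𝓝 u)) (hg : Tendsto g l (𝓝 v)) (h : 0 < det u v) :
    ∀ᶠ x in l, 0 < det (f x) (g x) :=
  (tendsto_det hf hg).eventually (lt_mem_nhds h)

theorem eventually_cyc {α : Type*} {l : Filter α} {f g k : α → Pt} {u v w : Pt}
    (hf : Tendsto f l (𝓝 u)) (hg : Tendsto g l (𝓝 v)) (hk : Tendsto k l (𝓝 w))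
    (h : cyc u v w) : ∀ᶠ x in l, cyc (f x) (g x) (k x) := by
  rcases h with ⟨h1, h2⟩ | ⟨h1, h2⟩ | ⟨h1, h2⟩
  · filter_upwards [eventually_det_pos hf hg h1, eventually_det_pos hg hk h2] with x h3 h4
    exact Or.inl ⟨h3, h4⟩
  · filter_upwards [eventually_det_pos hg hk h1, eventually_det_pos hk hf h2] with x h3 h4
    exact Or.inr (Or.inl ⟨h3, h4⟩)
  · filter_upwards [eventually_det_pos hk hf h1, eventually_det_pos hf hg h2] with x h3 h4
    exact Or.inr (Or.inr ⟨h3, h4⟩)

/-- `w` is not a nonnegative multiple of `u`: its direction differs from that of `u`. -/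
def OffRay (u w : Pt) : Prop := det u w ≠ 0 ∨ ∃ m : ℝ, 0 < m ∧ w = -(m • u)

/-- A pair of almost equal directions `u`, `u + t J u` together with a third direction. -/
theorem thin_pos {u w : Pt} (hu : u ≠ 0) (hw : OffRay u w) {f : ℝ → Pt}
    (hf : Tendsto f (𝓝[>] 0) (𝓝 w)) :
    ∀ᶠ t in 𝓝[>] (0 : ℝ), cyc (u + t • J u) (f t) u := by
  have hJ := det_J_pos hu
  have hpos : ∀ᶠ t in 𝓝[>] (0 : ℝ), 0 < t := self_mem_nhdsWithin
  have hu' : Tendsto (fun t : ℝ => u + t • J u) (𝓝[>] 0) (𝓝 u) := by
    have : Tendsto (fun t : ℝ => u + t • J u) (𝓝 0) (𝓝 (u + (0 : ℝ) • J u)) :=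
      tendsto_const_nhds.add (tendsto_id.smul tendsto_const_nhds)
    simp only [zero_smul, add_zero] at this
    exact this.mono_left nhdsWithin_le_nhds
  have key : ∀ t : ℝ, 0 < t → 0 < det u (u + t • J u) := by
    intro t ht
    rw [det_add_right, det_self, det_smul_right, zero_add]
    positivity
  rcases hw with hw | ⟨m, hm, rfl⟩
  · rcases lt_or_gt_of_ne hw with hw | hw
    · -- det u w < 0
      have h1 : 0 < det w u := by rw [det_swap]; linarith
      filter_upwards [hpos, eventually_det_pos hf (tendsto_const_nhds (x := u)) h1] with t ht h2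
      exact Or.inr (Or.inl ⟨h2, key t ht⟩)
    · filter_upwards [hpos, eventually_det_pos hu' hf hw] with t ht h2
      exact Or.inr (Or.inr ⟨key t ht, h2⟩)
  · -- antiparallel
    have h1 : 0 < det (J u) (-(m • u)) := by
      rw [det_neg_right, det_smul_right, det_swap u (J u)]
      nlinarith
    filter_upwards [hpos, eventually_det_pos (tendsto_const_nhds (x := J u)) hf h1] with t ht h2
    by_cases h3 : 0 < det (f t) u
    · exact Or.inr (Or.inl ⟨h3, key t ht⟩)
    · right; right
      refine ⟨key t ht, ?_⟩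
      rw [det_add_left, det_smul_left]
      have h4 : 0 ≤ det u (f t) := by rw [det_swap]; linarith
      nlinarith

theorem refl_add (u v : Pt) : refl (u + v) = refl u + refl v := by
  unfold refl; ext <;> simp; ring

theorem refl_smul (a : ℝ) (u : Pt) : refl (a • u) = a • refl u := by
  unfold refl; ext <;> simp

theorem refl_neg (u : Pt) : refl (-u) = -refl u := by
  unfold refl; ext <;> simp

theorem refl_J (u : Pt) : J (refl u) = - refl (J u) := by
  unfold refl J; ext <;> simp

theorem refl_ne_zero {u : Pt} (hu : u ≠ 0) : refl u ≠ 0 := by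
  intro h
  apply hu
  have := congrArg refl h
  rw [refl_refl] at this
  rw [this]; unfold refl; simp

theorem continuous_refl : Continuous refl := by
  unfold refl; exact continuous_fst.prodMk continuous_snd.neg

theorem OffRay.refl {u w : Pt} (h : OffRay u w) : OffRay (refl u) (refl w) := by
  rcases h with h | ⟨m, hm, rfl⟩
  · left; rw [det_refl]; exact neg_ne_zero.2 h
  · right; exact ⟨m, hm, by rw [refl_neg, refl_smul]⟩

theorem thin_neg {u w : Pt} (hu : u ≠ 0) (hw : OffRay u w) {f : ℝ → Pt}
    (hf : Tendsto f (𝓝[>] 0) (𝓝 w)) :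
    ∀ᶠ t in 𝓝[>] (0 : ℝ), cyc (f t) (u - t • J u) u := by
  have h := thin_pos (refl_ne_zero hu) hw.refl
    (f := fun t => refl (f t)) ((continuous_refl.tendsto w).comp hf)
  filter_upwards [h] with t ht
  have := cyc_refl ht
  simp only [refl_refl, refl_add, refl_smul] at this
  have h2 : refl (J (refl u)) = - J u := by
    rw [refl_J, refl_neg, refl_refl]
  rw [h2] at this
  simpa [sub_eq_add_neg] using this

/-- A vertex slightly off a line: the two directions `a e`, `b e` with `0 < a < b`. -/
theorem thin_two {e w : Pt} (he : det e w ≠ 0) {a b : ℝ} (ha : 0 < a) (hab : a < b) :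
    ∀ᶠ t in 𝓝[>] (0 : ℝ), cyc (a • e - t • J e) (b • e - t • J e) (w - t • J e) := by
  have he0 : e ≠ 0 := by rintro rfl; exact he (det_zero_left _)
  have hJ := det_J_pos he0
  have hpos : ∀ᶠ t in 𝓝[>] (0 : ℝ), 0 < t := self_mem_nhdsWithin
  have hlim : ∀ x : Pt, Tendsto (fun t : ℝ => x - t • J e) (𝓝[>] 0) (𝓝 x) := by
    intro x
    have : Tendsto (fun t : ℝ => x - t • J e) (𝓝 0) (𝓝 (x - (0 : ℝ) • J e)) :=
      tendsto_const_nhds.sub (tendsto_id.smul tendsto_const_nhds)
    simp only [zero_smul, sub_zero] at this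
    exact this.mono_left nhdsWithin_le_nhds
  have key : ∀ t : ℝ, 0 < t → 0 < det (a • e - t • J e) (b • e - t • J e) := by
    intro t ht
    have : det (a • e - t • J e) (b • e - t • J e) = t * (b - a) * det e (J e) := by
      simp only [det_sub_left, det_sub_right, det_smul_left, det_smul_right, det_self]
      rw [det_swap e (J e)]; ring
    rw [this]
    have : 0 < b - a := by linarith
    positivity
  rcases lt_or_gt_of_ne he with h | h
  · have h1 : 0 < det w (a • e) := by
      rw [det_smul_right, det_swap]; nlinarith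
    filter_upwards [hpos, eventually_det_pos (hlim w) (hlim (a • e)) h1] with t ht h2
    exact Or.inr (Or.inr ⟨h2, key t ht⟩)
  · have h1 : 0 < det (b • e) w := by
      rw [det_smul_left]; have : 0 < b := by linarith
      positivity
    filter_upwards [hpos, eventually_det_pos (hlim (b • e)) (hlim w) h1] with t ht h2
    exact Or.inl ⟨key t ht, h2⟩

theorem thin_two' {e w : Pt} (he : det e w ≠ 0) {a b : ℝ} (ha : 0 < a) (hab : a < b) :
    ∀ᶠ t in 𝓝[>] (0 : ℝ), cyc (b • e + t • J e) (a • e + t • J e) (w + t • J e) := by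
  have h := thin_two (e := refl e) (w := refl w)
    (by rw [det_refl]; exact neg_ne_zero.2 he) ha hab
  filter_upwards [h] with t ht
  have := cyc_refl ht
  have h2 : refl (J (refl e)) = - J e := by
    rw [refl_J, refl_neg, refl_refl]
  simp only [refl_sub, refl_smul, refl_refl, h2] at this
  simpa [sub_eq_add_neg] using this

/-- A direction which is not parallel to any of finitely many nonzero vectors. -/
theorem exists_generic (F : Set Pt) (hF : F.Finite) (h0 : ∀ f ∈ F, f ≠ 0) :
    ∃ d : Pt, d ≠ 0 ∧ ∀ f ∈ F, det d f ≠ 0 := by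
  have hfin : ((fun f : Pt => f.2 / f.1) '' F).Finite := hF.image _
  obtain ⟨t, ht⟩ := hfin.exists_notMem
  refine ⟨(1, t), by simp [Prod.ext_iff], ?_⟩
  intro f hf h
  unfold det at h
  simp only [one_mul] at h
  by_cases h1 : f.1 = 0
  · apply h0 f hf
    rw [h1] at h
    exact Prod.ext h1 (by simpa using h)
  · apply ht
    refine ⟨f, hf, ?_⟩
    field_simp
    linarith

/-- Three distinct points are seen in counterclockwise order from some point. -/
theorem exists_view {A B C : Pt} (hAB : A ≠ B) (hBC : B ≠ C) (hCA : C ≠ A) :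
    ∃ P : Pt, cyc (A - P) (B - P) (C - P) := by
  obtain ⟨d, hd0, hd⟩ := exists_generic {B - A, C - B, A - C} (Set.toFinite _) (by
    intro f hf
    simp only [Set.mem_insert_iff, Set.mem_singleton_iff] at hf
    rcases hf with rfl | rfl | rfl
    · exact sub_ne_zero.2 hAB.symm
    · exact sub_ne_zero.2 hBC.symm
    · exact sub_ne_zero.2 hCA.symm)
  have h1 := hd (B - A) (by simp)
  have h2 := hd (C - B) (by simp)
  have h3 := hd (A - C) (by simp)
  have hsum : det d (B - A) + det d (C - B) + det d (A - C) = 0 := by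
    simp only [det_sub_right]; ring
  -- far away in direction `-s d`
  have far : ∀ s : ℝ, ∀ X Y : Pt, 0 < s * det d (Y - X) →
      ∀ᶠ T : ℝ in atTop, 0 < det (X - T • (-(s • d))) (Y - T • (-(s • d))) := by
    intro s X Y h
    have hf : ∀ T : ℝ, det (X - T • (-(s • d))) (Y - T • (-(s • d)))
        = det X Y + T * (s * det d (Y - X)) := by
      intro T
      simp only [det_sub_left, det_sub_right, det_smul_left, det_smul_right, det_neg_left,
        det_neg_right, det_self]
      rw [det_swap d X]; ring
    simp only [hf]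
    have : Tendsto (fun T : ℝ => det X Y + T * (s * det d (Y - X))) atTop atTop :=
      tendsto_atTop_add_const_left _ _ (tendsto_id.atTop_mul_const h)
    exact this.eventually_gt_atTop 0
  have main : ∀ s : ℝ, (0 < s * det d (B - A) ∧ 0 < s * det d (C - B)) ∨
      (0 < s * det d (C - B) ∧ 0 < s * det d (A - C)) ∨
      (0 < s * det d (A - C) ∧ 0 < s * det d (B - A)) →
      ∃ P : Pt, cyc (A - P) (B - P) (C - P) := by
    intro s hs
    rcases hs with ⟨h4, h5⟩ | ⟨h4, h5⟩ | ⟨h4, h5⟩
    · obtain ⟨T, h6, h7⟩ := ((far s A B h4).and (far s B C h5)).exists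
      exact ⟨_, Or.inl ⟨h6, h7⟩⟩
    · obtain ⟨T, h6, h7⟩ := ((far s B C h4).and (far s C A h5)).exists
      exact ⟨_, Or.inr (Or.inl ⟨h6, h7⟩)⟩
    · obtain ⟨T, h6, h7⟩ := ((far s C A h4).and (far s A B h5)).exists
      exact ⟨_, Or.inr (Or.inr ⟨h6, h7⟩)⟩
  rcases lt_or_gt_of_ne h1 with h1 | h1 <;> rcases lt_or_gt_of_ne h2 with h2 | h2 <;>
    rcases lt_or_gt_of_ne h3 with h3 | h3
  · linarith
  · exact main (-1) (Or.inl ⟨by linarith, by linarith⟩)
  · exact main (-1) (Or.inr (Or.inr ⟨by linarith, by linarith⟩))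
  · exact main 1 (Or.inr (Or.inl ⟨by linarith, by linarith⟩))
  · exact main (-1) (Or.inr (Or.inl ⟨by linarith, by linarith⟩))
  · exact main 1 (Or.inr (Or.inr ⟨by linarith, by linarith⟩))
  · exact main 1 (Or.inl ⟨by linarith, by linarith⟩)
  · linarith

end Pool.Agent.Lib.MP_8b4fe7_lc
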