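import Pool.Agent.Lib.MP_8b4fe7_lc.Defs
import Pool.Agent.Lib.MP_8b4fe7_lc.Plane

/-!
# Angles and the cyclic order of three directions
-/

namespace Pool.Agent.Lib.MP_8b4fe7_lc

open Real

/-- Cartesian coordinates. -/
def toPt (z : ℂ) : Pt := (z.re, z.im)

theorem toPt_sub (z w : ℂ) : toPt (z - w) = toPt z - toPt w := by
  unfold toPt; ext <;> simp

theorem ccw_spec {z w : ℂ} (hz : z ≠ 0) (hw : w ≠ 0) : ∃ r : ℝ, 0 < r ∧ 0 ≤ ccwAngle z w ∧
    ccwAngle z w < 2 * π ∧ (w / z).re = r * Real.cos (ccwAngle z w) ∧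
    (w / z).im = r * Real.sin (ccwAngle z w) := by
  have h1 : w / z ≠ 0 := div_ne_zero hw hz
  have h2 := toIcoMod_mem_Ico two_pi_pos 0 (Complex.arg (w / z))
  have h3 : ccwAngle z w = Complex.arg (w / z) -
      (toIcoDiv two_pi_pos 0 (Complex.arg (w / z)) : ℤ) * (2 * π) := by
    unfold ccwAngle
    rw [toIcoMod, zsmul_eq_mul]
  refine ⟨‖w / z‖, norm_pos_iff.2 h1, h2.1, ?_, ?_, ?_⟩
  · have := h2.2
    rw [zero_add] at this
    exact this
  · rw [h3, Real.cos_sub_int_mul_two_pi, Complex.norm_mul_cos_arg]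
  · rw [h3, Real.sin_sub_int_mul_two_pi, Complex.norm_mul_sin_arg]

theorem sin_order {x y : ℝ} (hx0 : 0 ≤ x) (hx : x < 2 * π) (hy0 : 0 ≤ y) (hy : y < 2 * π)
    (h1 : Real.sin x ≠ 0) (h2 : Real.sin y ≠ 0) :
    x < y ↔ (0 < Real.sin x ∧ 0 < Real.sin (y - x)) ∨ (0 < Real.sin (y - x) ∧ Real.sin y < 0) ∨
      (Real.sin y < 0 ∧ 0 < Real.sin x) := by
  have key : ∀ t : ℝ, 0 ≤ t → t < 2 * π → (0 < Real.sin t → t < π) ∧
      (Real.sin t < 0 → π < t) := by
    intro t ht0 ht
    constructor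
    · intro h
      by_contra hn
      push Not at hn
      have : 0 ≤ Real.sin (t - π) := Real.sin_nonneg_of_nonneg_of_le_pi (by linarith) (by linarith)
      rw [Real.sin_sub_pi] at this
      linarith
    · intro h
      by_contra hn
      push Not at hn
      have := Real.sin_nonneg_of_nonneg_of_le_pi ht0 hn
      linarith
  obtain ⟨kx1, kx2⟩ := key x hx0 hx
  obtain ⟨ky1, ky2⟩ := key y hy0 hy
  have hpi := Real.pi_pos
  have near : -π < y - x → y - x < π → (x < y ↔ 0 < Real.sin (y - x)) := by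
    intro g1 g2
    constructor
    · intro h; exact Real.sin_pos_of_pos_of_lt_pi (by linarith) g2
    · intro h
      by_contra hn
      push Not at hn
      have := Real.sin_nonpos_of_nonpos_of_neg_pi_le (x := y - x) (by linarith) (by linarith)
      linarith
  rcases lt_or_gt_of_ne h1 with hx1 | hx1 <;> rcases lt_or_gt_of_ne h2 with hy1 | hy1
  · have a := kx2 hx1
    have b := ky2 hy1
    rw [near (by linarith) (by linarith)]
    constructor
    · intro h; exact Or.inr (Or.inl ⟨h, hy1⟩)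
    · rintro (⟨h, _⟩ | ⟨h, _⟩ | ⟨_, h⟩)
      · linarith
      · exact h
      · linarith
  · have a := kx2 hx1
    have b := ky1 hy1
    constructor
    · intro h; linarith
    · rintro (⟨h, _⟩ | ⟨_, h⟩ | ⟨h, _⟩) <;> linarith
  · have a := kx1 hx1
    have b := ky2 hy1
    constructor
    · intro _; exact Or.inr (Or.inr ⟨hy1, hx1⟩)
    · intro _; linarith
  · have a := kx1 hx1
    have b := ky1 hy1
    rw [near (by linarith) (by linarith)]
    constructor
    · intro h; exact Or.inl ⟨hx1, h⟩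
    · rintro (⟨_, h⟩ | ⟨_, h⟩ | ⟨h, _⟩)
      · exact h
      · linarith
      · linarith

theorem angle_iff {z w1 w2 : ℂ} (h1 : det (toPt z) (toPt w1) ≠ 0)
    (h2 : det (toPt z) (toPt w2) ≠ 0) :
    ccwAngle z w1 < ccwAngle z w2 ↔ cyc (toPt z) (toPt w1) (toPt w2) := by
  have hz : z ≠ 0 := by
    rintro rfl; apply h1; unfold det toPt; simp
  have hw1 : w1 ≠ 0 := by
    rintro rfl; apply h1; unfold det toPt; simp
  have hw2 : w2 ≠ 0 := by
    rintro rfl; apply h2; unfold det toPt; simp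
  obtain ⟨r1, r1p, a0, a1, a2, a3⟩ := ccw_spec hz hw1
  obtain ⟨r2, r2p, b0, b1, b2, b3⟩ := ccw_spec hz hw2
  set x := ccwAngle z w1
  set y := ccwAngle z w2
  have hN : 0 < z.re * z.re + z.im * z.im := by
    have := Complex.normSq_pos.2 hz
    rwa [Complex.normSq_apply] at this
  have e1 : w1 = (w1 / z) * z := by field_simp
  have e2 : w2 = (w2 / z) * z := by field_simp
  have d1 : det (toPt z) (toPt w1) = (z.re * z.re + z.im * z.im) * r1 * Real.sin x := by
    rw [e1]
    unfold det toPt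
    simp only [Complex.mul_re, Complex.mul_im, a2, a3]
    ring
  have d2 : det (toPt z) (toPt w2) = (z.re * z.re + z.im * z.im) * r2 * Real.sin y := by
    rw [e2]
    unfold det toPt
    simp only [Complex.mul_re, Complex.mul_im, b2, b3]
    ring
  have d3 : det (toPt w1) (toPt w2) =
      (z.re * z.re + z.im * z.im) * r1 * r2 * Real.sin (y - x) := by
    rw [e1, e2]
    unfold det toPt
    simp only [Complex.mul_re, Complex.mul_im, a2, a3, b2, b3]
    rw [Real.sin_sub]
    ring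
  have p1 : 0 < (z.re * z.re + z.im * z.im) * r1 := mul_pos hN r1p
  have p2 : 0 < (z.re * z.re + z.im * z.im) * r2 := mul_pos hN r2p
  have p3 : 0 < (z.re * z.re + z.im * z.im) * r1 * r2 := mul_pos p1 r2p
  have s1 : Real.sin x ≠ 0 := by
    intro h; rw [d1, h, mul_zero] at h1; exact h1 rfl
  have s2 : Real.sin y ≠ 0 := by
    intro h; rw [d2, h, mul_zero] at h2; exact h2 rfl
  rw [sin_order a0 a1 b0 b1 s1 s2]
  unfold cyc
  rw [det_swap (toPt z) (toPt w2), d1, d2, d3]
  have q1 : 0 < (z.re * z.re + z.im * z.im) * r1 * Real.sin x ↔ 0 < Real.sin x :=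
    mul_pos_iff_of_pos_left p1
  have q2 : 0 < -((z.re * z.re + z.im * z.im) * r2 * Real.sin y) ↔ Real.sin y < 0 := by
    rw [← mul_neg, mul_pos_iff_of_pos_left p2, neg_pos]
  have q3 : 0 < (z.re * z.re + z.im * z.im) * r1 * r2 * Real.sin (y - x) ↔
      0 < Real.sin (y - x) := mul_pos_iff_of_pos_left p3
  rw [q1, q2, q3]

end Pool.Agent.Lib.MP_8b4fe7_lc
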