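import Pool.Agent.Lib.MP_8b4fe7_lc.Rot

/-!
# The characterization
-/

namespace Pool.Agent.Lib.MP_8b4fe7_lc

open Filter Topology

universe u

variable {V : Type u} {G : SimpleGraph V} {R : V → V → V → V → Prop}

theorem eventually_quadratic {A B C : ℝ} (hC : C ≠ 0) :
    ∀ᶠ t in 𝓝[>] (0 : ℝ), A + B * t + C * (t * t) ≠ 0 := by
  have hpos : ∀ᶠ t in 𝓝[>] (0 : ℝ), 0 < t := self_mem_nhdsWithin
  have hid : Tendsto (fun t : ℝ => t) (𝓝[>] 0) (𝓝 0) := tendsto_id.mono_left nhdsWithin_le_nhds
  by_cases hA : A = 0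
  · by_cases hB : B = 0
    · filter_upwards [hpos] with t ht h
      rw [hA, hB, zero_mul, zero_add, zero_add] at h
      exact mul_ne_zero hC (mul_pos ht ht).ne' h
    · have h1 : Tendsto (fun t : ℝ => B + C * t) (𝓝[>] 0) (𝓝 (B + C * 0)) :=
        tendsto_const_nhds.add (hid.const_mul C)
      rw [mul_zero, add_zero] at h1
      filter_upwards [hpos, h1.eventually_ne hB] with t ht h2 h
      apply h2
      have : t * (B + C * t) = 0 := by rw [hA] at h; linarith
      exact (mul_eq_zero.1 this).resolve_left ht.ne'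
  · have h1 : Tendsto (fun t : ℝ => A + B * t + C * (t * t)) (𝓝[>] 0)
        (𝓝 (A + B * 0 + C * (0 * 0))) :=
      (tendsto_const_nhds.add (hid.const_mul B)).add ((hid.mul hid).const_mul C)
    rw [mul_zero, mul_zero, mul_zero, add_zero, add_zero] at h1
    exact h1.eventually_ne hA

/-- Positions in general position. -/
theorem general_position [Finite V] (hR : IsRot G R) (h : V → Pt) (hh : ∀ v, Sat R h v) :
    ∃ h' : V → Pt, (∀ v, Sat R h' v) ∧
      ∀ x y z, x ≠ y → y ≠ z → z ≠ x → det (h' y - h' x) (h' z - h' x) ≠ 0 := by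
  classical
  obtain ⟨n, ⟨e⟩⟩ := Finite.exists_equiv_fin V
  let c : V → ℝ := fun v => ((e v : ℕ) : ℝ)
  have hc : ∀ x y, x ≠ y → c x - c y ≠ 0 := by
    intro x y hxy h
    have h2 : ((e x : ℕ) : ℝ) = ((e y : ℕ) : ℝ) := by simp only [c] at h; linarith
    have h3 : (e x : ℕ) = (e y : ℕ) := by exact_mod_cast h2
    exact hxy (e.injective (Fin.ext h3))
  let κ : V → Pt := fun v => (c v, c v * c v)
  have hκ : ∀ x y z, x ≠ y → y ≠ z → z ≠ x → det (κ y - κ x) (κ z - κ x) ≠ 0 := by
    intro x y z hxy hyz hzx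
    have : det (κ y - κ x) (κ z - κ x) = (c x - c y) * (c y - c z) * (c z - c x) := by
      simp only [det, κ, Prod.fst_sub, Prod.snd_sub]; ring
    rw [this]
    exact mul_ne_zero (mul_ne_zero (hc _ _ hxy) (hc _ _ hyz)) (hc _ _ hzx)
  let H : ℝ → V → Pt := fun t v => h v + t • κ v
  have hH : ∀ a, Tendsto (fun t : ℝ => H t a) (𝓝[>] 0) (𝓝 (h a)) := fun a => tendsto_add_smul _ _
  have E1 : ∀ᶠ t in 𝓝[>] (0 : ℝ), ∀ v, Sat R (H t) v := by
    rw [eventually_all]
    intro v
    exact eventually_sat hR hH (hh v)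
  have E2 : ∀ᶠ t in 𝓝[>] (0 : ℝ), ∀ x y z, x ≠ y → y ≠ z → z ≠ x →
      det (H t y - H t x) (H t z - H t x) ≠ 0 := by
    rw [eventually_all]; intro x
    rw [eventually_all]; intro y
    rw [eventually_all]; intro z
    by_cases hx : x ≠ y ∧ y ≠ z ∧ z ≠ x
    · obtain ⟨hxy, hyz, hzx⟩ := hx
      filter_upwards [eventually_quadratic (A := det (h y - h x) (h z - h x))
        (B := det (h y - h x) (κ z - κ x) + det (κ y - κ x) (h z - h x))
        (hκ x y z hxy hyz hzx)] with t ht _ _ _ h2
      apply ht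
      rw [← h2]
      simp only [H]
      rw [show h y + t • κ y - (h x + t • κ x) = (h y - h x) + t • (κ y - κ x) by
        rw [smul_sub]; abel,
        show h z + t • κ z - (h x + t • κ x) = (h z - h x) + t • (κ z - κ x) by
        rw [smul_sub]; abel]
      simp only [det_add_left, det_add_right, det_smul_left, det_smul_right]
      ring
    · filter_upwards with t h1 h2 h3
      exact absurd ⟨h1, h2, h3⟩ hx
  obtain ⟨t, h1, h2⟩ := (E1.and E2).exists
  exact ⟨H t, h1, h2⟩

theorem realizable_of_even [Finite V] (hcub : ∀ v, (G.neighborSet v).ncard = 3)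
    (π : RotationSystem G) (hev : EvenK4 π) : Realizable π := by
  classical
  have hR := isRot hcub π
  obtain ⟨h0, hh0⟩ := exists_sat hR ((evR_iff hcub π).2 hev)
  obtain ⟨h, hs, hgen⟩ := general_position hR h0 hh0
  have hinj : ∀ x y, x ≠ y → h x ≠ h y := by
    intro x y hxy heq
    obtain ⟨z, hz, hzy, -⟩ := exists_third hR x y y
    refine hgen x y z hxy hzy.symm hz.ne' ?_
    rw [heq, sub_self, det_zero_left]
  let p : V → ℂ := fun v => ⟨(h v).1, (h v).2⟩
  have hp : ∀ v, toPt (p v) = h v := fun v => rfl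
  have hpinj : Function.Injective p := by
    intro x y hxy
    by_contra hn
    exact hinj x y hn (by rw [← hp, ← hp, hxy])
  refine ⟨p, ⟨hpinj, ?_⟩, ?_⟩
  · intro u v huv w hw
    by_cases hwu : w = u
    · subst hwu
      exact huv.ne (hpinj (left_mem_openSegment_iff.1 hw))
    by_cases hwv : w = v
    · subst hwv
      exact huv.ne (hpinj (right_mem_openSegment_iff.1 hw))
    obtain ⟨a, b, ha, hb, hab, hw⟩ := hw
    refine hgen u v w huv.ne (Ne.symm hwv) hwu ?_
    have e : h w - h u = b • (h v - h u) := by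
      have h1 : (p w).re = a * (p u).re + b * (p v).re := by
        rw [← hw]; simp
      have h2 : (p w).im = a * (p u).im + b * (p v).im := by
        rw [← hw]; simp
      have h3 : a = 1 - b := by linarith
      have h1' : (h w).1 = a * (h u).1 + b * (h v).1 := h1
      have h2' : (h w).2 = a * (h u).2 + b * (h v).2 := h2
      ext
      · simp only [Prod.fst_sub, Prod.smul_fst, smul_eq_mul, h1', h3]; ring
      · simp only [Prod.snd_sub, Prod.smul_snd, smul_eq_mul, h2', h3]; ring
    rw [e, det_smul_right, det_self, mul_zero]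
  · rintro v ⟨a, ha⟩ ⟨b, hb⟩ hba hbn
    obtain ⟨h1, h2, h3, h4, h5⟩ := rel_next hcub π ha
    have hba' : b ≠ a := fun h => hba (Subtype.ext h)
    have hbn' : b ≠ (π.next v ⟨a, ha⟩ : V) := fun h => hbn (Subtype.ext h)
    have hb' : b = (π.next v (π.next v ⟨a, ha⟩) : V) := by
      rcases h2 b hb with h | h | h
      · exact absurd h hba'
      · exact absurd h hbn'
      · exact h
    set s : V := (π.next v ⟨a, ha⟩ : V) with hsdef
    have hsv : G.Adj v s := (π.next v ⟨a, ha⟩).2
    rw [← hb'] at h1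
    have hc := hs v a s b h1
    have e : ∀ x, toPt (p x - p v) = h x - h v := fun x => by rw [toPt_sub, hp, hp]
    rw [angle_iff]
    · rw [e, e, e]; exact hc
    · rw [e, e]; exact hgen v a s ha.ne h3 hsv.ne'
    · rw [e, e]; exact hgen v a b ha.ne hba'.symm hb.ne'

theorem cyc_asymm {u v w : Pt} (h : cyc u v w) : ¬ cyc u w v := by
  unfold cyc at *
  rw [det_swap u v, det_swap v w, det_swap w u]
  intro h'
  rcases h with ⟨h1, h2⟩ | ⟨h1, h2⟩ | ⟨h1, h2⟩ <;>
    rcases h' with ⟨h3, h4⟩ | ⟨h3, h4⟩ | ⟨h3, h4⟩ <;> linarith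

/-- Orientation of three points. -/
def ori (x y z : Pt) : ℝ := det (y - x) (z - x)

theorem even_of_signs {A B C D : Pt} (h1 : ori A B C ≠ 0) (h2 : ori A B D ≠ 0)
    (h3 : ori A C D ≠ 0) (h4 : ori B C D ≠ 0) :
    ((cyc (A - D) (B - D) (C - D) ↔ cyc (B - A) (D - A) (C - A)) ↔
      (cyc (C - B) (D - B) (A - B) ↔ cyc (A - C) (D - C) (B - C))) := by
  have e1 : det (A - D) (B - D) = ori A B D := by
    unfold ori det; simp only [Prod.fst_sub, Prod.snd_sub]; ring
  have e2 : det (B - D) (C - D) = ori B C D := by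
    unfold ori det; simp only [Prod.fst_sub, Prod.snd_sub]; ring
  have e3 : det (C - D) (A - D) = - ori A C D := by
    unfold ori det; simp only [Prod.fst_sub, Prod.snd_sub]; ring
  have e4 : det (B - A) (D - A) = ori A B D := by
    unfold ori det; simp only [Prod.fst_sub, Prod.snd_sub]
  have e5 : det (D - A) (C - A) = - ori A C D := by
    unfold ori det; simp only [Prod.fst_sub, Prod.snd_sub]; ring
  have e6 : det (C - A) (B - A) = - ori A B C := by
    unfold ori det; simp only [Prod.fst_sub, Prod.snd_sub]; ring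
  have e7 : det (C - B) (D - B) = ori B C D := by
    unfold ori det; simp only [Prod.fst_sub, Prod.snd_sub]
  have e8 : det (D - B) (A - B) = ori A B D := by
    unfold ori det; simp only [Prod.fst_sub, Prod.snd_sub]; ring
  have e9 : det (A - B) (C - B) = - ori A B C := by
    unfold ori det; simp only [Prod.fst_sub, Prod.snd_sub]; ring
  have e10 : det (A - C) (D - C) = - ori A C D := by
    unfold ori det; simp only [Prod.fst_sub, Prod.snd_sub]; ring
  have e11 : det (D - C) (B - C) = ori B C D := by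
    unfold ori det; simp only [Prod.fst_sub, Prod.snd_sub]; ring
  have e12 : det (B - C) (A - C) = - ori A B C := by
    unfold ori det; simp only [Prod.fst_sub, Prod.snd_sub]; ring
  have hsum : ori A B C = ori A B D + ori B C D - ori A C D := by
    unfold ori det; simp only [Prod.fst_sub, Prod.snd_sub]; ring
  unfold cyc
  rw [e1, e2, e3, e4, e5, e6, e7, e8, e9, e10, e11, e12]
  generalize ori A B C = x at *
  generalize ori A B D = y at *
  generalize ori A C D = z at *
  generalize ori B C D = w at *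
  have n : ∀ t : ℝ, t ≠ 0 → (0 < t ∧ ¬ 0 < -t) ∨ (¬ 0 < t ∧ 0 < -t) := by
    intro t ht
    rcases lt_or_gt_of_ne ht with h | h
    · right; exact ⟨by linarith, by linarith⟩
    · left; exact ⟨h, by linarith⟩
  rcases n x h1 with ⟨x1, x2⟩ | ⟨x1, x2⟩ <;> rcases n y h2 with ⟨y1, y2⟩ | ⟨y1, y2⟩ <;>
    rcases n z h3 with ⟨z1, z2⟩ | ⟨z1, z2⟩ <;> rcases n w h4 with ⟨w1, w2⟩ | ⟨w1, w2⟩ <;>
    first
    | (exfalso; linarith)
    | simp [x1, x2, y1, y2, z1, z2, w1, w2]

theorem exists_real_mul {u v : ℂ} (hu : u ≠ 0) (h : det (toPt u) (toPt v) = 0) :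
    ∃ t : ℝ, v = (t : ℂ) * u := by
  refine ⟨(v / u).re, ?_⟩
  have him : (v / u).im = 0 := by
    rw [Complex.div_im, ← sub_div]
    have : v.im * u.re - v.re * u.im = 0 := by
      unfold det toPt at h
      simp only at h
      linarith
    rw [this, zero_div]
  have h1 : ((v / u).re : ℂ) = v / u := by
    apply Complex.ext
    · simp
    · rw [Complex.ofReal_im, him]
  rw [h1]
  field_simp

theorem triangle_nondeg {p : V → ℂ} (hd : IsDrawing G p) {x y z : V} (hxy : G.Adj x y)
    (hyz : G.Adj y z) (hxz : G.Adj x z) :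
    det (toPt (p y - p x)) (toPt (p z - p x)) ≠ 0 := by
  intro h
  have hyx : p y - p x ≠ 0 := sub_ne_zero.2 (fun e => hxy.ne' (hd.injective e))
  obtain ⟨t, ht⟩ := exists_real_mul hyx h
  have hz : p z = p x + (t : ℂ) * (p y - p x) := by rw [← ht]; ring
  have ht0 : t ≠ 0 := by
    rintro rfl
    apply hxz.ne'
    apply hd.injective
    rw [hz]; simp
  have ht1 : t ≠ 1 := by
    rintro rfl
    apply hyz.ne'
    apply hd.injective
    rw [hz]; simp
  rcases lt_trichotomy t 0 with h1 | h1 | h1
  · -- `x` is between `y` and `z`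
    refine hd.notMem y z hyz x ⟨-t / (1 - t), 1 / (1 - t), ?_, ?_, ?_, ?_⟩
    · exact div_pos (by linarith) (by linarith)
    · exact div_pos one_pos (by linarith)
    · have : (1 - t) ≠ 0 := by linarith
      field_simp
      ring
    · have h2 : (1 - (t : ℂ)) ≠ 0 := by
        have : (1 - t) ≠ 0 := by linarith
        exact_mod_cast this
      rw [hz, Complex.real_smul, Complex.real_smul]
      push_cast
      field_simp
      ring
  · exact ht0 h1
  · rcases lt_trichotomy t 1 with h2 | h2 | h2
    · -- `z` is between `x` and `y`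
      refine hd.notMem x y hxy z ⟨1 - t, t, by linarith, h1, by ring, ?_⟩
      rw [hz, Complex.real_smul, Complex.real_smul]
      push_cast
      ring
    · exact ht1 h2
    · -- `y` is between `x` and `z`
      refine hd.notMem x z hxz y ⟨(t - 1) / t, 1 / t, ?_, ?_, ?_, ?_⟩
      · exact div_pos (by linarith) h1
      · exact div_pos one_pos h1
      · field_simp
        ring
      · have h3 : (t : ℂ) ≠ 0 := by exact_mod_cast ht0
        rw [hz, Complex.real_smul, Complex.real_smul]
        push_cast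
        field_simp
        ring

theorem even_of_realizable (hcub : ∀ v, (G.neighborSet v).ncard = 3)
    (π : RotationSystem G) (hr : Realizable π) : EvenK4 π := by
  classical
  obtain ⟨p, hd, hreal⟩ := hr
  have key : ∀ v a b c : V, G.Adj v a → G.Adj v b → G.Adj v c → G.Adj a b → G.Adj b c →
      G.Adj a c → (π.Succ v a b ↔ cyc (toPt (p a) - toPt (p v)) (toPt (p b) - toPt (p v))
        (toPt (p c) - toPt (p v))) := by
    intro v a b c ha hb hc hab hbc hac
    obtain ⟨-, h2, h3, -, -⟩ := rel_next hcub π ha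
    have dab : det (toPt (p a - p v)) (toPt (p b - p v)) ≠ 0 := triangle_nondeg hd ha hab hb
    have dac : det (toPt (p a - p v)) (toPt (p c - p v)) ≠ 0 := triangle_nondeg hd ha hac hc
    simp only [← toPt_sub]
    constructor
    · rintro ⟨ha', hn⟩
      have h4 := hreal v ⟨a, ha⟩ ⟨c, hc⟩ (fun h => hac.ne' (congrArg Subtype.val h))
        (fun h => hbc.ne' ((congrArg Subtype.val h).trans hn))
      rw [hn] at h4
      exact (angle_iff dab dac).1 h4
    · intro h
      by_contra hn
      have hnb : (π.next v ⟨a, ha⟩ : V) ≠ b := fun h => hn ⟨ha, h⟩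
      have hnc : (π.next v ⟨a, ha⟩ : V) = c := by
        have hnadj : G.Adj v (π.next v ⟨a, ha⟩ : V) := (π.next v ⟨a, ha⟩).2
        rcases nbr_three (isRot hcub π) ha hb hc hab.ne hbc.ne hac.ne' hnadj with h | h | h
        · exact absurd h.symm h3
        · exact absurd h hnb
        · exact h
      have h4 := hreal v ⟨a, ha⟩ ⟨b, hb⟩ (fun h => hab.ne' (congrArg Subtype.val h))
        (fun h => hnb (congrArg Subtype.val h).symm)
      rw [hnc] at h4
      exact cyc_asymm h ((angle_iff dac dab).1 h4)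
  intro a b c d hab hac had hbc hbd hcd
  have tri : ∀ x y z : V, G.Adj x y → G.Adj y z → G.Adj x z →
      ori (toPt (p x)) (toPt (p y)) (toPt (p z)) ≠ 0 := by
    intro x y z hxy hyz hxz
    have := triangle_nondeg hd hxy hyz hxz
    rw [toPt_sub, toPt_sub] at this
    exact this
  rw [key d a b c had.symm hbd.symm hcd.symm hab hbc hac,
    key a b d c hab had hac hbd hcd.symm hbc,
    key b c d a hbc hbd hab.symm hcd had.symm hac.symm,
    key c a d b hac.symm hcd hbc.symm had hbd.symm hab]
  exact even_of_signs (tri a b c hab hbc hac) (tri a b d hab hbd had) (tri a c d hac hcd had)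
    (tri b c d hbc hcd hbd)

/-- A rotation system on a finite cubic graph is realizable by a straight-line drawing if and
only if it satisfies the parity condition at all complete graphs on four vertices. -/
theorem char [Finite V] (hcub : ∀ v, (G.neighborSet v).ncard = 3) (π : RotationSystem G) :
    Realizable π ↔ EvenK4 π :=
  ⟨even_of_realizable hcub π, realizable_of_even hcub π⟩

end Pool.Agent.Lib.MP_8b4fe7_lc
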