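import Pool.Agent.Lib.MP_8b4fe7_lc.Steps

/-!
# The steps of the induction for the various clusters
-/

namespace Pool.Agent.Lib.MP_8b4fe7_lc

open Filter Topology

universe u

variable {V : Type u} {G : SimpleGraph V} {R : V → V → V → V → Prop}

/-- The induction hypothesis. -/
def IH (G : SimpleGraph V) (R : V → V → V → V → Prop) (W : Set V) : Prop :=
  ∀ W', W' ⊂ W → ∀ h0, Dist G W' h0 → NoBad G R W' h0 → Ext R W' h0

theorem sdiff_ssubset' {W X : Set V} {x : V} (hx : x ∈ W) (hxX : x ∈ X) : W \ X ⊂ W :=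
  ⟨Set.sdiff_subset, fun h => (h hx).2 hxX⟩

/-- The step for a closed cycle. -/
theorem step_cycle [Finite V] (hR : IsRot G R) {W : Set V} {m : ℕ} {c w : ℕ → V}
    (hc : IsCyc G W m c) (hw : IsOut G m c w) (hwc : ∀ i j, w i ≠ c j)
    (hcl : ∀ y ∈ W, (∀ i, y ≠ c i) → ∀ i j, G.Adj y (c i) → G.Adj y (c j) → c i = c j)
    (hex : ∀ m' c' w', IsCyc G (W \ Set.range c) m' c' → IsOut G m' c' w' →
      (∀ j, Sgn R m' c' w' j ↔ ¬ Sgn R m' c' w' (j + 1)) → (∀ j, w' j ∈ Set.range c) → False)
    {h0 : V → Pt} (hD : Dist G W h0) (hN : NoBad G R W h0) (ih : IH G R W) : Ext R W h0 := by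
  classical
  have hZW : Set.range c ⊆ W := by rintro _ ⟨i, rfl⟩; exact hc.mem i
  refine step_cluster hR (Z := Set.range c) (Q := ∅) hZW (Set.empty_subset _)
    (fun v _ h => h) Set.subsingleton_empty hD hN ?_ ?_ ?_ ?_
  · intro h0' hD' hN'
    exact ih _ (sdiff_ssubset' (hc.mem 0) (Or.inl ⟨0, rfl⟩)) h0' hD' hN'
  · rintro v hv _ ⟨i, rfl⟩ _ ⟨j, rfl⟩ h1 h2
    exact hcl v hv.1 (fun l hl => hv.2 (Or.inl ⟨l, hl.symm⟩)) i j h1 h2
  · intro m' c' w' hc' hw' halt hX
    rw [Set.union_empty] at hc'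
    refine hex m' c' w' hc' hw' halt (fun j => ?_)
    rcases hX j with h | h
    · exact h
    · exact absurd h (Set.notMem_empty _)
  · intro h ζ k1 k2 k3 k4
    have hwZ : ∀ i, w i ∉ Set.range c := by
      rintro i ⟨j, hj⟩; exact hwc i j hj.symm
    obtain ⟨g, hg⟩ := cyc_template hR hc hw hwc h ζ (fun i => k1 _ (hwZ i))
      (fun i j => k2 _ _ (hwZ i) (hwZ j)) (by
        by_contra hn
        push Not at hn
        obtain ⟨halt, heq⟩ := hn
        have halt' : ∀ j, Sgn R m c w j ↔ ¬ Sgn R m c w (j + 1) := by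
          intro j
          have := halt j
          tauto
        have heq0 : ∀ j, h (w j) = h (w 0) := by
          intro j
          induction j with
          | zero => rfl
          | succ j ihj => rw [← heq j, ihj]
        by_cases hall : ∀ j, w j ∉ W
        · refine hN m c w hc hw halt' hall ?_
          intro j
          rw [← k4 _ (hall j), ← k4 _ (hall 0)]
          exact heq0 j
        · push Not at hall
          obtain ⟨j, hj⟩ := hall
          refine k3 (w j) hj (hwZ j) (w (j + 1)) (hwZ (j + 1)) ?_ (heq j)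
          intro h1
          have h2 := hcl (w j) hj (fun l => hwc j l) j (j + 1) (hw.adj j).symm
            (h1 ▸ (hw.adj (j + 1)).symm)
          exact (hc.adj j).ne h2)
    exact ⟨g, hg, fun z hz => absurd hz (Set.notMem_empty _)⟩

/-- A direction with both given directions on its left. -/
theorem exists_left {u v : Pt} (hu : u ≠ 0) (h : EqOrIndep u v) :
    ∃ e : Pt, 0 < det e u ∧ 0 < det e v := by
  rcases h with rfl | h
  · have := det_J_pos hu
    refine ⟨-J u, ?_, ?_⟩ <;>
    · rw [det_neg_left, det_swap u (J u)]; linarith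
  · refine ⟨det u v • u - det u v • v, ?_, ?_⟩
    · rw [det_sub_left, det_smul_left, det_smul_left, det_self, det_swap u v]
      have := mul_self_pos.2 h
      nlinarith
    · rw [det_sub_left, det_smul_left, det_smul_left, det_self]
      have := mul_self_pos.2 h
      nlinarith

theorem decide_iff' (p : Prop) [Decidable p] : p ↔ (decide p) = true := by simp

/-- The step for a diamond. -/
theorem step_diamond [Finite V] (hR : IsRot G R) {W : Set V} {u v w z : V}
    (hu : u ∈ W) (hv : v ∈ W) (hw : w ∈ W) (hz : z ∈ W)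
    (huv : G.Adj u v) (huw : G.Adj u w) (hvw : G.Adj v w) (hzv : G.Adj z v) (hzw : G.Adj z w)
    (huz : u ≠ z) (hnuz : ¬ G.Adj u z)
    (hno : ∀ y ∈ W, y ≠ v → y ≠ w → G.Adj u y → G.Adj z y → False)
    {h0 : V → Pt} (hD : Dist G W h0) (hN : NoBad G R W h0) (ih : IH G R W) : Ext R W h0 := by
  classical
  obtain ⟨ou, hou, houv, houw⟩ := exists_third hR u v w
  obtain ⟨oz, hoz, hozv, hozw⟩ := exists_third hR z v w
  have nu : ∀ x, G.Adj u x → x = v ∨ x = w ∨ x = ou := fun x hx =>
    nbr_three hR huv huw hou hvw.ne (Ne.symm houw) houv hx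
  have nz : ∀ x, G.Adj z x → x = v ∨ x = w ∨ x = oz := fun x hx =>
    nbr_three hR hzv hzw hoz hvw.ne (Ne.symm hozw) hozv hx
  have nv : ∀ x, G.Adj v x → x = u ∨ x = w ∨ x = z := fun x hx =>
    nbr_three hR huv.symm hvw hzv.symm huw.ne hzw.ne' (Ne.symm huz) hx
  have nw : ∀ x, G.Adj w x → x = u ∨ x = v ∨ x = z := fun x hx =>
    nbr_three hR huw.symm hvw.symm hzw.symm huv.ne hzv.ne' (Ne.symm huz) hx
  have hvz : v ≠ z := hzv.ne'
  have hwz : w ≠ z := hzw.ne'
  set Z : Set V := {u, v, w, z} with hZ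
  have mZ : ∀ x, x ∈ Z ↔ x = u ∨ x = v ∨ x = w ∨ x = z := fun x => by simp [hZ]
  have houZ : ou ∉ Z := by
    rw [mZ]
    rintro (h | h | h | h)
    · exact hou.ne h.symm
    · exact houv h
    · exact houw h
    · exact hnuz (h ▸ hou)
  have hozZ : oz ∉ Z := by
    rw [mZ]
    rintro (h | h | h | h)
    · exact hnuz (h ▸ hoz).symm
    · exact hozv h
    · exact hozw h
    · exact hoz.ne h.symm
  have hZW : Z ⊆ W := by
    intro x hx
    rcases (mZ x).1 hx with rfl | rfl | rfl | rfl <;> assumption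
  have huZ : u ∈ Z := (mZ u).2 (Or.inl rfl)
  have hvZ : v ∈ Z := (mZ v).2 (Or.inr (Or.inl rfl))
  have hwZ : w ∈ Z := (mZ w).2 (Or.inr (Or.inr (Or.inl rfl)))
  have hzZ : z ∈ Z := (mZ z).2 (Or.inr (Or.inr (Or.inr rfl)))
  have outer : ∀ x ∈ Z, ∀ y, y ∉ Z → G.Adj x y → (x = u ∧ y = ou) ∨ (x = z ∧ y = oz) := by
    intro x hx y hy hxy
    have h1 : ∀ t, t ∈ Z → y ≠ t := fun t ht h => hy (h ▸ ht)
    rcases (mZ x).1 hx with rfl | rfl | rfl | rfl
    · rcases nu y hxy with h | h | h
      · exact absurd h (h1 _ hvZ)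
      · exact absurd h (h1 _ hwZ)
      · exact Or.inl ⟨rfl, h⟩
    · rcases nv y hxy with h | h | h
      · exact absurd h (h1 _ huZ)
      · exact absurd h (h1 _ hwZ)
      · exact absurd h (h1 _ hzZ)
    · rcases nw y hxy with h | h | h
      · exact absurd h (h1 _ huZ)
      · exact absurd h (h1 _ hvZ)
      · exact absurd h (h1 _ hzZ)
    · rcases nz y hxy with h | h | h
      · exact absurd h (h1 _ hvZ)
      · exact absurd h (h1 _ hwZ)
      · exact Or.inr ⟨rfl, h⟩
  refine step_cluster hR (Z := Z) (Q := ∅) hZW (Set.empty_subset _)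
    (fun v _ h => h) Set.subsingleton_empty hD hN ?_ ?_ ?_ ?_
  · intro h0' hD' hN'
    exact ih _ (sdiff_ssubset' hu (Or.inl huZ)) h0' hD' hN'
  · intro y hy a ha b hb hya hyb
    have hyZ : y ∉ Z := fun h => hy.2 (Or.inl h)
    have hyv : y ≠ v := fun h => hyZ (h ▸ hvZ)
    have hyw : y ≠ w := fun h => hyZ (h ▸ hwZ)
    rcases outer a ha y hyZ hya.symm with ⟨rfl, h1⟩ | ⟨rfl, h1⟩ <;>
      rcases outer b hb y hyZ hyb.symm with ⟨rfl, h2⟩ | ⟨rfl, h2⟩
    · rfl
    · exact (hno y hy.1 hyv hyw hya.symm hyb.symm).elim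
    · exact (hno y hy.1 hyv hyw hyb.symm hya.symm).elim
    · rfl
  · intro m' c' w' hc' hw' halt hX
    refine count_three hc' hw' (fun v hv => hv.2) halt hX ou oz oz ?_
    rintro x (hx | hx) y hy hxy
    · rcases outer x hx y (fun h => hy (Or.inl h)) hxy with ⟨_, h⟩ | ⟨_, h⟩
      · exact Or.inl h
      · exact Or.inr (Or.inl h)
    · exact absurd hx (Set.notMem_empty _)
  · intro h ζ k1 k2 k3 k4
    obtain ⟨e, he1, he2⟩ := exists_left (k1 ou houZ) (k2 ou oz houZ hozZ)
    obtain ⟨t0, t1, t2, t3⟩ := dl_table (decide (R u v w ou)) (decide (R v u w z))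
      (decide (R w u v z)) (decide (R z v w oz))
    have he0 : e ≠ 0 := by rintro rfl; rw [det_zero_left] at he1; exact lt_irrefl _ he1
    have hpos : ∀ᶠ t in 𝓝[>] (0 : ℝ), 0 < t := self_mem_nhdsWithin
    obtain ⟨d, hd, d0, d3⟩ := (hpos.and ((sg_thin2 he1 (decide_iff' _) t0).and
      (sg_thin2 he2 (decide_iff' _) t3))).exists
    have d1 := sg_frame3 he0 hd (decide_iff' _) t1
    have d2 := sg_frame3 he0 hd (decide_iff' _) t2
    set P := look dlTab (((((decide (R u v w ou)).toNat * 2 + (decide (R v u w z)).toNat) * 2 +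
      (decide (R w u v z)).toNat) * 2 + (decide (R z v w oz)).toNat)) with hP
    let g : V → Pt := fun x => frame e d
      (if x = u then P 0 else if x = v then P 1 else if x = w then P 2 else P 3)
    have gu : g u = frame e d (P 0) := by simp [g]
    have gv : g v = frame e d (P 1) := by simp [g, huv.ne']
    have gw : g w = frame e d (P 2) := by simp [g, huw.ne', hvw.ne']
    have gz : g z = frame e d (P 3) := by simp [g, huz.symm, hvz.symm, hwz.symm]
    refine ⟨g, ?_, fun z hz => absurd hz (Set.notMem_empty _)⟩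
    intro x hx
    rcases (mZ x).1 hx with rfl | rfl | rfl | rfl
    · refine satD_of_sg hR huv huw hou hvw.ne (Ne.symm houw) houv ?_
      simp only [if_pos hvZ, if_pos hwZ, if_neg houZ, gu, gv, gw]
      exact d0
    · refine satD_of_sg hR huv.symm hvw hzv.symm huw.ne hzw.ne' (Ne.symm huz) ?_
      simp only [if_pos huZ, if_pos hwZ, if_pos hzZ, gu, gv, gw, gz]
      exact d1
    · refine satD_of_sg hR huw.symm hvw.symm hzw.symm huv.ne hzv.ne' (Ne.symm huz) ?_
      simp only [if_pos huZ, if_pos hvZ, if_pos hzZ, gu, gv, gw, gz]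
      exact d2
    · refine satD_of_sg hR hzv hzw hoz hvw.ne (Ne.symm hozw) hozv ?_
      simp only [if_pos hvZ, if_pos hwZ, if_neg hozZ, gv, gw, gz]
      exact d3

/-- The step for a diamond together with a vertex adjacent to both of its ends. -/
theorem step_diamond' [Finite V] (hR : IsRot G R) {W : Set V} {u v w z y : V}
    (hu : u ∈ W) (hv : v ∈ W) (hw : w ∈ W) (hz : z ∈ W) (hy : y ∈ W)
    (huv : G.Adj u v) (huw : G.Adj u w) (hvw : G.Adj v w) (hzv : G.Adj z v) (hzw : G.Adj z w)
    (huz : u ≠ z) (hyv : y ≠ v) (hyw : y ≠ w) (huy : G.Adj u y) (hzy : G.Adj z y)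
    {h0 : V → Pt} (hD : Dist G W h0) (hN : NoBad G R W h0) (ih : IH G R W) : Ext R W h0 := by
  classical
  obtain ⟨o, ho, hou, hoz⟩ := exists_third hR y u z
  have nu : ∀ x, G.Adj u x → x = v ∨ x = w ∨ x = y := fun x hx =>
    nbr_three hR huv huw huy hvw.ne hyw.symm hyv hx
  have nz : ∀ x, G.Adj z x → x = v ∨ x = w ∨ x = y := fun x hx =>
    nbr_three hR hzv hzw hzy hvw.ne hyw.symm hyv hx
  have nv : ∀ x, G.Adj v x → x = u ∨ x = w ∨ x = z := fun x hx =>
    nbr_three hR huv.symm hvw hzv.symm huw.ne hzw.ne' (Ne.symm huz) hx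
  have nw : ∀ x, G.Adj w x → x = u ∨ x = v ∨ x = z := fun x hx =>
    nbr_three hR huw.symm hvw.symm hzw.symm huv.ne hzv.ne' (Ne.symm huz) hx
  have ny : ∀ x, G.Adj y x → x = u ∨ x = z ∨ x = o := fun x hx =>
    nbr_three hR huy.symm hzy.symm ho huz (Ne.symm hoz) hou hx
  have hvz : v ≠ z := hzv.ne'
  have hwz : w ≠ z := hzw.ne'
  have hyu : y ≠ u := huy.ne'
  have hyz : y ≠ z := hzy.ne'
  set Z : Set V := {u, v, w, z, y} with hZ
  have mZ : ∀ x, x ∈ Z ↔ x = u ∨ x = v ∨ x = w ∨ x = z ∨ x = y := fun x => by simp [hZ]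
  have hoZ : o ∉ Z := by
    rw [mZ]
    rintro (h | h | h | h | h)
    · exact hou h
    · rcases nv y (h ▸ ho).symm with h | h | h
      · exact hyu h
      · exact hyw h
      · exact hyz h
    · rcases nw y (h ▸ ho).symm with h | h | h
      · exact hyu h
      · exact hyv h
      · exact hyz h
    · exact hoz h
    · exact ho.ne h.symm
  have hZW : Z ⊆ W := by
    intro x hx
    rcases (mZ x).1 hx with rfl | rfl | rfl | rfl | rfl <;> assumption
  have huZ : u ∈ Z := by rw [mZ]; tauto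
  have hvZ : v ∈ Z := by rw [mZ]; tauto
  have hwZ : w ∈ Z := by rw [mZ]; tauto
  have hzZ : z ∈ Z := by rw [mZ]; tauto
  have hyZ : y ∈ Z := by rw [mZ]; tauto
  have outer : ∀ x ∈ Z, ∀ t, t ∉ Z → G.Adj x t → x = y ∧ t = o := by
    intro x hx t ht hxt
    have h1 : ∀ s, s ∈ Z → t ≠ s := fun s hs h => ht (h ▸ hs)
    rcases (mZ x).1 hx with rfl | rfl | rfl | rfl | rfl
    · rcases nu t hxt with h | h | h
      · exact absurd h (h1 _ hvZ)
      · exact absurd h (h1 _ hwZ)
      · exact absurd h (h1 _ hyZ)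
    · rcases nv t hxt with h | h | h
      · exact absurd h (h1 _ huZ)
      · exact absurd h (h1 _ hwZ)
      · exact absurd h (h1 _ hzZ)
    · rcases nw t hxt with h | h | h
      · exact absurd h (h1 _ huZ)
      · exact absurd h (h1 _ hvZ)
      · exact absurd h (h1 _ hzZ)
    · rcases nz t hxt with h | h | h
      · exact absurd h (h1 _ hvZ)
      · exact absurd h (h1 _ hwZ)
      · exact absurd h (h1 _ hyZ)
    · rcases ny t hxt with h | h | h
      · exact absurd h (h1 _ huZ)
      · exact absurd h (h1 _ hzZ)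
      · exact ⟨rfl, h⟩
  refine step_cluster hR (Z := Z) (Q := ∅) hZW (Set.empty_subset _)
    (fun v _ h => h) Set.subsingleton_empty hD hN ?_ ?_ ?_ ?_
  · intro h0' hD' hN'
    exact ih _ (sdiff_ssubset' hu (Or.inl huZ)) h0' hD' hN'
  · intro t ht a ha b hb hta htb
    have htZ : t ∉ Z := fun h => ht.2 (Or.inl h)
    rw [(outer a ha t htZ hta.symm).1, (outer b hb t htZ htb.symm).1]
  · intro m' c' w' hc' hw' halt hX
    refine count_three hc' hw' (fun v hv => hv.2) halt hX o o o ?_
    rintro x (hx | hx) t ht hxt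
    · exact Or.inl (outer x hx t (fun h => ht (Or.inl h)) hxt).2
    · exact absurd hx (Set.notMem_empty _)
  · intro h ζ k1 k2 k3 k4
    obtain ⟨t0, t1, t2, t3, t4⟩ := dp_table (decide (R u v w y)) (decide (R v u w z))
      (decide (R w u v z)) (decide (R z v w y)) (decide (R y u z o))
    have he0 : h o - ζ ≠ 0 := k1 o hoZ
    set e := h o - ζ with he
    have d0 := sg_frame3 he0 one_pos (decide_iff' _) t0
    have d1 := sg_frame3 he0 one_pos (decide_iff' _) t1
    have d2 := sg_frame3 he0 one_pos (decide_iff' _) t2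
    have d3 := sg_frame3 he0 one_pos (decide_iff' _) t3
    have d4 := sg_frame he0 one_pos (decide_iff' _) t4
    rw [frame_sub, frame_sub, frame_one_zero] at d4
    set P := look dpTab ((((((decide (R u v w y)).toNat * 2 + (decide (R v u w z)).toNat) * 2 +
      (decide (R w u v z)).toNat) * 2 + (decide (R z v w y)).toNat)) * 2 +
      (decide (R y u z o)).toNat) with hP
    let g : V → Pt := fun x => frame e 1
      (if x = u then P 0 else if x = v then P 1 else if x = w then P 2 else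
        if x = z then P 3 else P 4)
    have gu : g u = frame e 1 (P 0) := by simp [g]
    have gv : g v = frame e 1 (P 1) := by simp [g, huv.ne']
    have gw : g w = frame e 1 (P 2) := by simp [g, huw.ne', hvw.ne']
    have gz : g z = frame e 1 (P 3) := by simp [g, huz.symm, hvz.symm, hwz.symm]
    have gy : g y = frame e 1 (P 4) := by simp [g, hyu, hyv, hyw, hyz]
    refine ⟨g, ?_, fun z hz => absurd hz (Set.notMem_empty _)⟩
    intro x hx
    rcases (mZ x).1 hx with rfl | rfl | rfl | rfl | rfl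
    · refine satD_of_sg hR huv huw huy hvw.ne hyw.symm hyv ?_
      simp only [if_pos hvZ, if_pos hwZ, if_pos hyZ, gu, gv, gw, gy]
      exact d0
    · refine satD_of_sg hR huv.symm hvw hzv.symm huw.ne hzw.ne' (Ne.symm huz) ?_
      simp only [if_pos huZ, if_pos hwZ, if_pos hzZ, gu, gv, gw, gz]
      exact d1
    · refine satD_of_sg hR huw.symm hvw.symm hzw.symm huv.ne hzv.ne' (Ne.symm huz) ?_
      simp only [if_pos huZ, if_pos hvZ, if_pos hzZ, gu, gv, gw, gz]
      exact d2
    · refine satD_of_sg hR hzv hzw hzy hvw.ne hyw.symm hyv ?_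
      simp only [if_pos hvZ, if_pos hwZ, if_pos hyZ, gv, gw, gz, gy]
      exact d3
    · refine satD_of_sg hR huy.symm hzy.symm ho huz (Ne.symm hoz) hou ?_
      simp only [if_pos huZ, if_pos hzZ, if_neg hoZ, gu, gz, gy]
      exact d4

/-- The step for a complete graph on four vertices. -/
theorem step_k4 (hR : IsRot G R) (hEv : EvR G R) {W : Set V} {a b c d : V}
    (ha : a ∈ W) (hb : b ∈ W) (hc : c ∈ W) (hd : d ∈ W)
    (hab : G.Adj a b) (hac : G.Adj a c) (had : G.Adj a d) (hbc : G.Adj b c) (hbd : G.Adj b d)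
    (hcd : G.Adj c d) {h0 : V → Pt} (hD : Dist G W h0) (hN : NoBad G R W h0)
    (ih : IH G R W) : Ext R W h0 := by
  classical
  have na : ∀ x, G.Adj a x → x = b ∨ x = c ∨ x = d := fun x hx =>
    nbr_three hR hab hac had hbc.ne hcd.ne hbd.ne' hx
  have nb : ∀ x, G.Adj b x → x = a ∨ x = c ∨ x = d := fun x hx =>
    nbr_three hR hab.symm hbc hbd hac.ne hcd.ne had.ne' hx
  have nc : ∀ x, G.Adj c x → x = a ∨ x = b ∨ x = d := fun x hx =>
    nbr_three hR hac.symm hbc.symm hcd hab.ne hbd.ne had.ne' hx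
  have nd : ∀ x, G.Adj d x → x = a ∨ x = b ∨ x = c := fun x hx =>
    nbr_three hR had.symm hbd.symm hcd.symm hab.ne hbc.ne hac.ne' hx
  set K : Set V := {a, b, c, d} with hK
  have mK : ∀ x, x ∈ K ↔ x = a ∨ x = b ∨ x = c ∨ x = d := fun x => by simp [hK]
  have hcl : ∀ v ∈ K, ∀ x, G.Adj v x → x ∈ K := by
    intro v hv x hx
    rw [mK]
    rcases (mK v).1 hv with rfl | rfl | rfl | rfl
    · rcases na x hx with h | h | h <;> simp [h]
    · rcases nb x hx with h | h | h <;> simp [h]
    · rcases nc x hx with h | h | h <;> simp [h]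
    · rcases nd x hx with h | h | h <;> simp [h]
  have hKW : K ⊆ W := by
    intro x hx
    rcases (mK x).1 hx with rfl | rfl | rfl | rfl <;> assumption
  have hev := hEv a b c d hab hac had hbc hbd hcd
  have hpar : ((decide (R a b c d)) ^^ (decide (R b a c d))) =
      ((decide (R c a b d)) ^^ (decide (R d a b c))) := by
    by_cases h1 : R a b c d <;> by_cases h2 : R b a c d <;> by_cases h3 : R c a b d <;>
      by_cases h4 : R d a b c <;> simp_all
  obtain ⟨t0, t1, t2, t3⟩ := k4_table _ _ _ _ hpar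
  have he0 : ((1, 0) : Pt) ≠ 0 := by simp [Prod.ext_iff]
  have d0 := sg_frame3 he0 one_pos (decide_iff' _) t0
  have d1 := sg_frame3 he0 one_pos (decide_iff' _) t1
  have d2 := sg_frame3 he0 one_pos (decide_iff' _) t2
  have d3 := sg_frame3 he0 one_pos (decide_iff' _) t3
  set P := look k4Tab (((((decide (R a b c d)).toNat * 2 + (decide (R b a c d)).toNat) * 2 +
      (decide (R c a b d)).toNat) * 2 + (decide (R d a b c)).toNat)) with hP
  let g : V → Pt := fun x => frame (1, 0) 1
      (if x = a then P 0 else if x = b then P 1 else if x = c then P 2 else P 3)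
  have ga : g a = frame (1, 0) 1 (P 0) := by simp [g]
  have gb : g b = frame (1, 0) 1 (P 1) := by simp [g, hab.ne']
  have gc : g c = frame (1, 0) 1 (P 2) := by simp [g, hac.ne', hbc.ne']
  have gd : g d = frame (1, 0) 1 (P 3) := by simp [g, had.ne', hbd.ne', hcd.ne']
  refine step_component hR (K := K) hKW hcl g ?_ hD hN
    (fun h0' hD' hN' => ih _ (sdiff_ssubset' ha ((mK a).2 (Or.inl rfl))) h0' hD' hN')
  intro x hx
  rcases (mK x).1 hx with rfl | rfl | rfl | rfl
  · refine satD_of_sg hR hab hac had hbc.ne hcd.ne hbd.ne' ?_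
    simp only [ga, gb, gc, gd]; exact d0
  · refine satD_of_sg hR hab.symm hbc hbd hac.ne hcd.ne had.ne' ?_
    simp only [ga, gb, gc, gd]; exact d1
  · refine satD_of_sg hR hac.symm hbc.symm hcd hab.ne hbd.ne had.ne' ?_
    simp only [ga, gb, gc, gd]; exact d2
  · refine satD_of_sg hR had.symm hbd.symm hcd.symm hab.ne hbc.ne hac.ne' ?_
    simp only [ga, gb, gc, gd]; exact d3

end Pool.Agent.Lib.MP_8b4fe7_lc
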