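import Pool.Agent.Lib.MP_8b4fe7_lc.Expand

/-!
# Cycles and the drawing of a collapsed cycle
-/

namespace Pool.Agent.Lib.MP_8b4fe7_lc

open Filter Topology

universe u

variable {V : Type u} {G : SimpleGraph V} {R : V → V → V → V → Prop}

/-- `c 0, c 1, …, c (m + 2)` is a cycle of length `m + 3` in `W`; the sequence `c` is
periodic. -/
structure IsCyc (G : SimpleGraph V) (W : Set V) (m : ℕ) (c : ℕ → V) : Prop where
  mem : ∀ i, c i ∈ W
  adj : ∀ i, G.Adj (c i) (c (i + 1))
  per : ∀ i, c (i + (m + 3)) = c i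
  inj : ∀ i j, i < m + 3 → j < m + 3 → c i = c j → i = j

/-- `w i` is a third neighbour of `c i`. -/
structure IsOut (G : SimpleGraph V) (m : ℕ) (c w : ℕ → V) : Prop where
  per : ∀ i, w (i + (m + 3)) = w i
  adj : ∀ i, G.Adj (c i) (w i)
  ne : ∀ i, w i ≠ c (i + 1)
  ne' : ∀ i, w i ≠ c (i + (m + 2))

theorem per_mul {α : Type*} {c : ℕ → α} {k : ℕ} (h : ∀ i, c (i + k) = c i) (i b : ℕ) :
    c (i + k * b) = c i := by
  induction b with
  | zero => simp
  | succ b ih => rw [Nat.mul_succ, ← Nat.add_assoc, h, ih]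

theorem per_mod {α : Type*} {c : ℕ → α} {k : ℕ} (h : ∀ i, c (i + k) = c i) (i : ℕ) :
    c i = c (i % k) := by
  conv_lhs => rw [← Nat.mod_add_div i k]
  exact per_mul h _ _

namespace IsCyc

variable {W : Set V} {m : ℕ} {c w : ℕ → V}

theorem eq_iff (hc : IsCyc G W m c) {i j : ℕ} : c i = c j ↔ i ≡ j [MOD m + 3] := by
  constructor
  · intro h
    rw [per_mod hc.per i, per_mod hc.per j] at h
    exact hc.inj _ _ (Nat.mod_lt _ (by omega)) (Nat.mod_lt _ (by omega)) h
  · intro h
    rw [per_mod hc.per i, per_mod hc.per j, h]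

theorem adj_prev (hc : IsCyc G W m c) (i : ℕ) : G.Adj (c i) (c (i + (m + 2))) := by
  have h := hc.adj (i + (m + 2))
  have h2 : c (i + (m + 2) + 1) = c i := hc.per i
  rw [h2] at h
  exact h.symm

theorem prev_ne_next (hc : IsCyc G W m c) (i : ℕ) : c (i + (m + 2)) ≠ c (i + 1) := by
  intro h
  have h1 := hc.eq_iff.1 h
  have h2 : (m + 2) ≡ 1 [MOD m + 3] := Nat.ModEq.add_left_cancel' i h1
  unfold Nat.ModEq at h2
  rw [Nat.mod_eq_of_lt (by omega), Nat.mod_eq_of_lt (by omega)] at h2
  omega

theorem rotate (hc : IsCyc G W m c) (n : ℕ) : IsCyc G W m (fun i => c (n + i)) where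
  mem := fun i => hc.mem _
  adj := fun i => hc.adj (n + i)
  per := fun i => by
    rw [← Nat.add_assoc]; exact hc.per _
  inj := fun i j hi hj h => by
    have h1 := Nat.ModEq.add_left_cancel' n (hc.eq_iff.1 h)
    unfold Nat.ModEq at h1
    rwa [Nat.mod_eq_of_lt hi, Nat.mod_eq_of_lt hj] at h1

theorem reverse (hc : IsCyc G W m c) : IsCyc G W m (fun i => c ((m + 2) * i)) where
  mem := fun i => hc.mem _
  adj := fun i => by
    have h := hc.adj_prev ((m + 2) * i)
    exact h
  per := fun i => by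
    have : (m + 2) * (i + (m + 3)) = (m + 2) * i + (m + 3) * (m + 2) := by ring
    rw [this]; exact per_mul hc.per _ _
  inj := fun i j hi hj h => by
    have h1 := hc.eq_iff.1 h
    have h2 : i ≡ j [MOD m + 3] := by
      refine Nat.ModEq.cancel_left_of_coprime ?_ h1
      rw [Nat.gcd_comm]
      exact (Nat.coprime_self_add_right (m := m + 2) (n := 1)).2 (Nat.coprime_one_right _)
    unfold Nat.ModEq at h2
    rwa [Nat.mod_eq_of_lt hi, Nat.mod_eq_of_lt hj] at h2

end IsCyc

namespace IsOut

variable {W : Set V} {m : ℕ} {c w : ℕ → V}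

theorem rotate (hw : IsOut G m c w) (n : ℕ) :
    IsOut G m (fun i => c (n + i)) (fun i => w (n + i)) where
  per := fun i => by
    rw [← Nat.add_assoc]; exact hw.per _
  adj := fun i => hw.adj _
  ne := fun i => hw.ne (n + i)
  ne' := fun i => by rw [← Nat.add_assoc]; exact hw.ne' (n + i)

theorem reverse (hc : IsCyc G W m c) (hw : IsOut G m c w) :
    IsOut G m (fun i => c ((m + 2) * i)) (fun i => w ((m + 2) * i)) where
  per := fun i => by
    have : (m + 2) * (i + (m + 3)) = (m + 2) * i + (m + 3) * (m + 2) := by ring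
    rw [this]; exact per_mul hw.per _ _
  adj := fun i => hw.adj _
  ne := fun i => hw.ne' ((m + 2) * i)
  ne' := fun i => by
    have : (m + 2) * (i + (m + 2)) = ((m + 2) * i + 1) + (m + 3) * (m + 1) := by ring
    rw [this, per_mul hc.per]
    exact hw.ne _

end IsOut

/-- The prescribed cyclic order at `c j` is: previous vertex, next vertex, third neighbour. -/
def Sgn (R : V → V → V → V → Prop) (m : ℕ) (c w : ℕ → V) (j : ℕ) : Prop :=
  R (c j) (c (j + (m + 2))) (c (j + 1)) (w j)

section
variable {W : Set V} {m : ℕ} {c w : ℕ → V}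

theorem sgn_per (hc : IsCyc G W m c) (hw : IsOut G m c w) (j : ℕ) :
    Sgn R m c w (j + (m + 3)) ↔ Sgn R m c w j := by
  unfold Sgn
  rw [show j + (m + 3) + (m + 2) = (j + (m + 2)) + (m + 3) by ring,
    show j + (m + 3) + 1 = (j + 1) + (m + 3) by ring, hc.per, hc.per, hc.per, hw.per]

theorem sgn_rotate (n j : ℕ) :
    Sgn R m (fun i => c (n + i)) (fun i => w (n + i)) j ↔ Sgn R m c w (n + j) := by
  unfold Sgn
  simp only [← Nat.add_assoc]

theorem sgn_reverse (hR : IsRot G R) (hc : IsCyc G W m c) (hw : IsOut G m c w) (j : ℕ) :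
    Sgn R m (fun i => c ((m + 2) * i)) (fun i => w ((m + 2) * i)) j ↔
      ¬ Sgn R m c w ((m + 2) * j) := by
  unfold Sgn
  beta_reduce
  have e : (m + 2) * (j + (m + 2)) = ((m + 2) * j + 1) + (m + 3) * (m + 1) := by ring
  rw [e, per_mul hc.per, show (m + 2) * (j + 1) = (m + 2) * j + (m + 2) by ring]
  set v := (m + 2) * j
  constructor
  · intro h1 h2; exact hR.asymm h1 h2
  · intro h
    rcases hR.total (hc.adj v) (hc.adj_prev v) (hw.adj v) (hc.prev_ne_next v).symm
      (hw.ne' v).symm (hw.ne v) with h1 | h1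
    · exact h1
    · exact absurd h1 h

open Classical in
theorem cyc_canonical (hR : IsRot G R) (hc : IsCyc G W m c) (hw : IsOut G m c w)
    (hwc : ∀ i j, w i ≠ c j) (h : V → Pt) (ζ : Pt) (h0 : ∀ i, h (w i) - ζ ≠ 0)
    (hpar : ∀ i j, EqOrIndep (h (w i) - ζ) (h (w j) - ζ))
    (hcan : (Sgn R m c w 0 ↔ Sgn R m c w (m + 2)) ∨
      (Sgn R m c w 0 ∧ 0 < det (h (w 0) - ζ) (h (w 1) - ζ)) ∨
      (¬ Sgn R m c w 0 ∧ det (h (w 0) - ζ) (h (w 1) - ζ) < 0)) :
    ∃ g : V → Pt, ∀ v ∈ Set.range c,
      SatD R (fun a => if a ∈ Set.range c then g a - g v else h a - ζ) v := by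
  obtain ⟨x, x0, x1, x2⟩ := template m (fun i => h (w i) - ζ) (fun i => Sgn R m c w i)
    (fun i _ => h0 i) (fun i j _ _ => hpar i j) hcan
  let g : V → Pt := fun v => if hv : ∃ i, i < m + 3 ∧ c i = v then x hv.choose else 0
  have hg : ∀ i, i < m + 3 → g (c i) = x i := by
    intro i hi
    have hv : ∃ j, j < m + 3 ∧ c j = c i := ⟨i, hi, rfl⟩
    simp only [g, dif_pos hv]
    rw [hc.inj _ _ hv.choose_spec.1 hi hv.choose_spec.2]
  refine ⟨g, ?_⟩
  rintro v ⟨i₀, rfl⟩
  obtain ⟨i, hi, hci⟩ : ∃ i, i < m + 3 ∧ c i = c i₀ :=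
    ⟨i₀ % (m + 3), Nat.mod_lt _ (by omega), (per_mod hc.per i₀).symm⟩
  rw [← hci]
  have hmem : ∀ j, c j ∈ Set.range c := fun j => ⟨j, rfl⟩
  have hnmem : ∀ j, w j ∉ Set.range c := by
    rintro j ⟨l, hl⟩; exact hwc j l hl.symm
  have main : sg (Sgn R m c w i) (g (c (i + (m + 2))) - g (c i)) (g (c (i + 1)) - g (c i))
      (h (w i) - ζ) := by
    rcases Nat.eq_zero_or_pos i with rfl | hpos
    · rw [Nat.zero_add, Nat.zero_add, hg 0 (by omega), hg (m + 2) (by omega), hg 1 (by omega)]
      exact x0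
    · obtain ⟨l, rfl⟩ : ∃ l, i = l + 1 := ⟨i - 1, by omega⟩
      have e1 : c (l + 1 + (m + 2)) = c l := by
        rw [show l + 1 + (m + 2) = l + (m + 3) by ring]; exact hc.per l
      rw [e1, hg l (by omega), hg (l + 1) (by omega)]
      rcases Nat.lt_or_ge l (m + 1) with h1 | h1
      · rw [hg (l + 1 + 1) (by omega)]
        exact x1 l (by omega)
      · have : l = m + 1 := by omega
        subst this
        have e2 : c (m + 1 + 1 + 1) = c 0 := by
          have := hc.per 0
          rwa [Nat.zero_add] at this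
        rw [e2, hg 0 (by omega)]
        exact x2
  refine satD_of_sg hR (hc.adj_prev i) (hc.adj i) (hw.adj i) (hc.prev_ne_next i)
    (hw.ne i).symm (hw.ne' i) ?_
  simp only [if_pos (hmem _), if_neg (hnmem _)]
  exact main

open Classical in
/-- A collapsed cycle can be expanded: the template. -/
theorem cyc_template (hR : IsRot G R) (hc : IsCyc G W m c) (hw : IsOut G m c w)
    (hwc : ∀ i j, w i ≠ c j) (h : V → Pt) (ζ : Pt) (h0 : ∀ i, h (w i) - ζ ≠ 0)
    (hpar : ∀ i j, EqOrIndep (h (w i) - ζ) (h (w j) - ζ))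
    (hgen : (∃ j, (Sgn R m c w j ↔ Sgn R m c w (j + 1))) ∨
      ∃ j, h (w j) ≠ h (w (j + 1))) :
    ∃ g : V → Pt, ∀ v ∈ Set.range c,
      SatD R (fun a => if a ∈ Set.range c then g a - g v else h a - ζ) v := by
  have range_rot : ∀ n, Set.range (fun i => c (n + i)) = Set.range c := by
    intro n
    ext v; constructor
    · rintro ⟨i, rfl⟩; exact ⟨n + i, rfl⟩
    · rintro ⟨i, rfl⟩
      refine ⟨i + (m + 2) * n, ?_⟩
      change c (n + (i + (m + 2) * n)) = c i
      rw [show n + (i + (m + 2) * n) = i + (m + 3) * n by ring]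
      exact per_mul hc.per _ _
  have range_rev : ∀ n, Set.range (fun i => c (n + (m + 2) * i)) = Set.range c := by
    intro n
    ext v; constructor
    · rintro ⟨i, rfl⟩; exact ⟨_, rfl⟩
    · rintro ⟨i, rfl⟩
      refine ⟨n + (m + 2) * i, ?_⟩
      change c (n + (m + 2) * (n + (m + 2) * i)) = c i
      rw [show n + (m + 2) * (n + (m + 2) * i) = i + (m + 3) * (n + (m + 1) * i) by ring]
      exact per_mul hc.per _ _
  by_cases h1 : ∃ j, (Sgn R m c w j ↔ Sgn R m c w (j + 1))
  · obtain ⟨j, hj⟩ := h1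
    have := cyc_canonical hR (hc.rotate (j + 1)) (hw.rotate (j + 1))
      (fun i l => hwc _ _) h ζ (fun i => h0 _) (fun i l => hpar _ _) (by
        left
        rw [sgn_rotate, sgn_rotate, Nat.add_zero, show j + 1 + (m + 2) = j + (m + 3) by ring,
          sgn_per hc hw]
        exact hj.symm)
    rwa [range_rot] at this
  · obtain ⟨j, hj⟩ := hgen.resolve_left h1
    have hd : det (h (w j) - ζ) (h (w (j + 1)) - ζ) ≠ 0 := by
      rcases hpar j (j + 1) with h2 | h2
      · exact absurd (sub_left_inj.1 h2) hj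
      · exact h2
    have halt : Sgn R m c w j ↔ ¬ Sgn R m c w (j + 1) := by
      by_contra h2
      exact h1 ⟨j, by tauto⟩
    by_cases hs : Sgn R m c w j
    · rcases lt_or_gt_of_ne hd with hd | hd
      · have := cyc_canonical hR ((hc.rotate (j + 1)).reverse)
          (IsOut.reverse (hc.rotate (j + 1)) (hw.rotate (j + 1)))
          (fun i l => hwc _ _) h ζ (fun i => h0 _) (fun i l => hpar _ _) (by
            right; left
            rw [sgn_reverse hR (hc.rotate (j + 1)) (hw.rotate (j + 1)), sgn_rotate]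
            simp only [Nat.mul_zero, Nat.add_zero, Nat.mul_one]
            refine ⟨halt.1 hs, ?_⟩
            rw [show j + 1 + (m + 2) = j + (m + 3) by ring, hw.per, det_swap]
            linarith)
        rwa [range_rev] at this
      · have := cyc_canonical hR (hc.rotate j) (hw.rotate j)
          (fun i l => hwc _ _) h ζ (fun i => h0 _) (fun i l => hpar _ _) (by
            right; left
            rw [sgn_rotate]
            exact ⟨hs, hd⟩)
        rwa [range_rot] at this
    · rcases lt_or_gt_of_ne hd with hd | hd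
      · have := cyc_canonical hR (hc.rotate j) (hw.rotate j)
          (fun i l => hwc _ _) h ζ (fun i => h0 _) (fun i l => hpar _ _) (by
            right; right
            rw [sgn_rotate]
            exact ⟨hs, hd⟩)
        rwa [range_rot] at this
      · have := cyc_canonical hR ((hc.rotate (j + 1)).reverse)
          (IsOut.reverse (hc.rotate (j + 1)) (hw.rotate (j + 1)))
          (fun i l => hwc _ _) h ζ (fun i => h0 _) (fun i l => hpar _ _) (by
            right; right
            rw [sgn_reverse hR (hc.rotate (j + 1)) (hw.rotate (j + 1)), sgn_rotate]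
            simp only [Nat.mul_zero, Nat.add_zero, Nat.mul_one]
            refine ⟨by tauto, ?_⟩
            rw [show j + 1 + (m + 2) = j + (m + 3) by ring, hw.per, det_swap]
            linarith)
        rwa [range_rev] at this

end

end Pool.Agent.Lib.MP_8b4fe7_lc
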