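import Mathlib

/-!
# Rotation systems and straight-line drawings

Definitions for the realizability problem of rotation systems by straight-line drawings.
-/

namespace Pool.Agent.Lib.MP_8b4fe7_lc

universe u

/-- A rotation system on a simple graph `G`: for every vertex `v` a permutation `next v` of the
neighbours of `v` (that is, of the edges incident to `v`) which moves all of them in one single
cycle, i.e. a cyclic order of the edges at `v`; `next v a` is the successor of `a`. -/
structure RotationSystem {V : Type u} (G : SimpleGraph V) where
  next : ∀ v : V, Equiv.Perm (G.neighborSet v)
  isCycleOn : ∀ v : V, (next v).IsCycleOn Set.univ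

/-- A straight-line drawing of `G` in the plane `ℂ = ℝ²`: the vertices are at distinct points and
no vertex lies in the relative interior of an edge (edges may cross). -/
structure IsDrawing {V : Type u} (G : SimpleGraph V) (p : V → ℂ) : Prop where
  injective : Function.Injective p
  notMem : ∀ u v : V, G.Adj u v → ∀ w : V, p w ∉ openSegment ℝ (p u) (p v)

/-- The angle in `[0, 2π)` by which the direction of `z` has to be turned counterclockwise in
order to obtain the direction of `w`. -/
noncomputable def ccwAngle (z w : ℂ) : ℝ := toIcoMod Real.two_pi_pos 0 (Complex.arg (w / z))

/-- The points `p v` realize the rotation system: turning counterclockwise around `p v`, starting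
at the edge from `v` to `a`, the first other edge one meets is the edge from `v` to its successor
`next v a`. -/
def Realizes {V : Type u} {G : SimpleGraph V} (π : RotationSystem G) (p : V → ℂ) : Prop :=
  ∀ (v : V) (a b : G.neighborSet v), b ≠ a → b ≠ π.next v a →
    ccwAngle (p a - p v) (p (π.next v a) - p v) < ccwAngle (p a - p v) (p b - p v)

/-- Some straight-line drawing of `G` realizes the rotation system. -/
def Realizable {V : Type u} {G : SimpleGraph V} (π : RotationSystem G) : Prop :=
  ∃ p : V → ℂ, IsDrawing G p ∧ Realizes π p

/-- `a` and `b` are neighbours of `v` and `b` is the successor of `a` in the cyclic order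
at `v`. -/
def RotationSystem.Succ {V : Type u} {G : SimpleGraph V} (π : RotationSystem G) (v a b : V) :
    Prop :=
  ∃ h : G.Adj v a, (π.next v ⟨a, h⟩ : V) = b

/-- The parity condition at the complete graphs on four vertices. In the plane drawing of the
complete graph on `a, b, c, d` with `d` inside the counterclockwise triangle `a, b, c` the
counterclockwise successor of `a` at `d` is `b`, that of `b` at `a` is `d`, that of `c` at `b` is
`d` and that of `a` at `c` is `d`. The condition says that the number of the four vertices at
which `π` differs from this plane drawing is even. -/
def EvenK4 {V : Type u} {G : SimpleGraph V} (π : RotationSystem G) : Prop :=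
  ∀ a b c d : V, G.Adj a b → G.Adj a c → G.Adj a d → G.Adj b c → G.Adj b d → G.Adj c d →
    ((π.Succ d a b ↔ π.Succ a b d) ↔ (π.Succ b c d ↔ π.Succ c a d))

end Pool.Agent.Lib.MP_8b4fe7_lc
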