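import Pool.Agent.Lib.MP_8b4fe7_lc.K23

/-!
# The exceptional component: two four-cycles joined by a perfect matching
-/

namespace Pool.Agent.Lib.MP_8b4fe7_lc

open Filter Topology

universe u

variable {V : Type u} {G : SimpleGraph V} {R : V → V → V → V → Prop}

theorem comp8 (hR : IsRot G R) {W : Set V} (x : ℕ → V) (nb : ℕ → ℕ × ℕ × ℕ) (P : ℕ → ℤ × ℤ)
    (hW : ∀ i, i < 8 → x i ∈ W) (hinj : ∀ i j, i < 8 → j < 8 → x i = x j → i = j)
    (hlt : ∀ i, i < 8 → (nb i).1 < 8 ∧ (nb i).2.1 < 8 ∧ (nb i).2.2 < 8)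
    (hne : ∀ i, i < 8 → (nb i).1 ≠ (nb i).2.1 ∧ (nb i).2.1 ≠ (nb i).2.2 ∧
      (nb i).2.2 ≠ (nb i).1)
    (hadj : ∀ i, i < 8 → G.Adj (x i) (x (nb i).1) ∧ G.Adj (x i) (x (nb i).2.1) ∧
      G.Adj (x i) (x (nb i).2.2))
    (hP : ∀ i, i < 8 → ∃ s : Bool, (R (x i) (x (nb i).1) (x (nb i).2.1) (x (nb i).2.2) ↔
      s = true) ∧ sat3 s (P i) (P (nb i).1) (P (nb i).2.1) (P (nb i).2.2))
    {h0 : V → Pt} (hD : Dist G W h0) (hN : NoBad G R W h0) (ih : IH G R W) : Ext R W h0 := by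
  classical
  let g : V → Pt := fun v =>
    if hv : ∃ i, i < 8 ∧ x i = v then frame (1, 0) 1 (P hv.choose) else 0
  have hg : ∀ i, i < 8 → g (x i) = frame (1, 0) 1 (P i) := by
    intro i hi
    have hv : ∃ j, j < 8 ∧ x j = x i := ⟨i, hi, rfl⟩
    simp only [g, dif_pos hv]
    rw [hinj _ _ hv.choose_spec.1 hi hv.choose_spec.2]
  have hxne : ∀ i j, i < 8 → j < 8 → i ≠ j → x i ≠ x j := fun i j hi hj hij h =>
    hij (hinj i j hi hj h)
  have he0 : ((1, 0) : Pt) ≠ 0 := by simp [Prod.ext_iff]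
  have h0K : x 0 ∈ {v | ∃ i, i < 8 ∧ x i = v} := ⟨0, by omega, rfl⟩
  refine step_component hR (K := {v | ∃ i, i < 8 ∧ x i = v}) ?_ ?_ g ?_ hD hN
    (fun h0' hD' hN' => ih _ (sdiff_ssubset' (hW 0 (by omega)) h0K) h0' hD' hN')
  · rintro v ⟨i, hi, rfl⟩; exact hW i hi
  · rintro v ⟨i, hi, rfl⟩ y hy
    obtain ⟨a1, a2, a3⟩ := hadj i hi
    obtain ⟨l1, l2, l3⟩ := hlt i hi
    obtain ⟨n1, n2, n3⟩ := hne i hi
    rcases nbr_three hR a1 a2 a3 (hxne _ _ l1 l2 n1) (hxne _ _ l2 l3 n2) (hxne _ _ l3 l1 n3) hy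
      with h | h | h
    · exact ⟨_, l1, h.symm⟩
    · exact ⟨_, l2, h.symm⟩
    · exact ⟨_, l3, h.symm⟩
  · rintro v ⟨i, hi, rfl⟩
    obtain ⟨a1, a2, a3⟩ := hadj i hi
    obtain ⟨l1, l2, l3⟩ := hlt i hi
    obtain ⟨n1, n2, n3⟩ := hne i hi
    obtain ⟨s, hs, hs2⟩ := hP i hi
    refine satD_of_sg hR a1 a2 a3 (hxne _ _ l1 l2 n1) (hxne _ _ l2 l3 n2)
      (hxne _ _ l3 l1 n3) ?_
    have := sg_frame3 he0 one_pos hs hs2
    simp only [hg i hi, hg _ l1, hg _ l2, hg _ l3]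
    exact this

theorem ex0 (p s0 s1 s2 s3 : Bool) : ∃ P : ℕ → ℤ × ℤ,
    sat3 p (P 0) (P 3) (P 1) (P 4) ∧
    sat3 (!p) (P 1) (P 0) (P 2) (P 5) ∧
    sat3 p (P 2) (P 1) (P 3) (P 6) ∧
    sat3 (!p) (P 3) (P 2) (P 0) (P 7) ∧
    sat3 s0 (P 4) (P 7) (P 5) (P 0) ∧
    sat3 s1 (P 5) (P 4) (P 6) (P 1) ∧
    sat3 s2 (P 6) (P 5) (P 7) (P 2) ∧
    sat3 s3 (P 7) (P 6) (P 4) (P 3) := ⟨_, ex_table0 p s0 s1 s2 s3⟩

theorem ex1 (p s0 s1 s2 s3 : Bool) : ∃ P : ℕ → ℤ × ℤ,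
    sat3 p (P 0) (P 3) (P 1) (P 4) ∧
    sat3 (!p) (P 1) (P 0) (P 2) (P 5) ∧
    sat3 p (P 2) (P 1) (P 3) (P 6) ∧
    sat3 (!p) (P 3) (P 2) (P 0) (P 7) ∧
    sat3 s0 (P 4) (P 6) (P 7) (P 0) ∧
    sat3 s1 (P 5) (P 6) (P 7) (P 1) ∧
    sat3 s2 (P 6) (P 4) (P 5) (P 2) ∧
    sat3 s3 (P 7) (P 4) (P 5) (P 3) := ⟨_, ex_table1 p s0 s1 s2 s3⟩

theorem ex2 (p s0 s1 s2 s3 : Bool) : ∃ P : ℕ → ℤ × ℤ,
    sat3 p (P 0) (P 3) (P 1) (P 4) ∧
    sat3 (!p) (P 1) (P 0) (P 2) (P 5) ∧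
    sat3 p (P 2) (P 1) (P 3) (P 6) ∧
    sat3 (!p) (P 3) (P 2) (P 0) (P 7) ∧
    sat3 s0 (P 4) (P 5) (P 6) (P 0) ∧
    sat3 s1 (P 5) (P 4) (P 7) (P 1) ∧
    sat3 s2 (P 6) (P 4) (P 7) (P 2) ∧
    sat3 s3 (P 7) (P 5) (P 6) (P 3) := ⟨_, ex_table2 p s0 s1 s2 s3⟩

/-- Neighbour table, type 0. -/
def nb0 (i : ℕ) : ℕ × ℕ × ℕ :=
  ([(3, 1, 4), (0, 2, 5), (1, 3, 6), (2, 0, 7), (7, 5, 0), (4, 6, 1), (5, 7, 2), (6, 4, 3)] :
    List (ℕ × ℕ × ℕ)).getD i (0, 0, 0)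

/-- Neighbour table, type 1. -/
def nb1 (i : ℕ) : ℕ × ℕ × ℕ :=
  ([(3, 1, 4), (0, 2, 5), (1, 3, 6), (2, 0, 7), (6, 7, 0), (6, 7, 1), (4, 5, 2), (4, 5, 3)] :
    List (ℕ × ℕ × ℕ)).getD i (0, 0, 0)

/-- Neighbour table, type 2. -/
def nb2 (i : ℕ) : ℕ × ℕ × ℕ :=
  ([(3, 1, 4), (0, 2, 5), (1, 3, 6), (2, 0, 7), (5, 6, 0), (4, 7, 1), (4, 7, 2), (5, 6, 3)] :
    List (ℕ × ℕ × ℕ)).getD i (0, 0, 0)

theorem exc_types (hR : IsRot G R) {W : Set V} (c z : ℕ → V)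
    (hcW : ∀ i, c i ∈ W) (hzW : ∀ i, z i ∈ W) (hcz : ∀ i j, c i ≠ z j)
    (hci : ∀ i j, i < 4 → j < 4 → c i = c j → i = j)
    (hzi : ∀ i j, i < 4 → j < 4 → z i = z j → i = j)
    (c01 : G.Adj (c 0) (c 1)) (c12 : G.Adj (c 1) (c 2)) (c23 : G.Adj (c 2) (c 3))
    (c30 : G.Adj (c 3) (c 0)) (e0 : G.Adj (c 0) (z 0)) (e1 : G.Adj (c 1) (z 1))
    (e2 : G.Adj (c 2) (z 2)) (e3 : G.Adj (c 3) (z 3))
    (s1 : R (c 0) (c 3) (c 1) (z 0) ↔ ¬ R (c 1) (c 0) (c 2) (z 1))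
    (s2 : R (c 0) (c 3) (c 1) (z 0) ↔ R (c 2) (c 1) (c 3) (z 2))
    (s3 : R (c 0) (c 3) (c 1) (z 0) ↔ ¬ R (c 3) (c 2) (c 0) (z 3))
    (hz : (G.Adj (z 0) (z 1) ∧ G.Adj (z 1) (z 2) ∧ G.Adj (z 2) (z 3) ∧ G.Adj (z 3) (z 0)) ∨
      (G.Adj (z 0) (z 2) ∧ G.Adj (z 2) (z 1) ∧ G.Adj (z 1) (z 3) ∧ G.Adj (z 3) (z 0)) ∨
      (G.Adj (z 0) (z 1) ∧ G.Adj (z 1) (z 3) ∧ G.Adj (z 3) (z 2) ∧ G.Adj (z 2) (z 0)))
    {h0 : V → Pt} (hD : Dist G W h0) (hN : NoBad G R W h0) (ih : IH G R W) : Ext R W h0 := by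
  classical
  let x : ℕ → V := fun i => if i < 4 then c i else z (i - 4)
  have hxW : ∀ i, i < 8 → x i ∈ W := by
    intro i _
    simp only [x]
    split_ifs
    · exact hcW _
    · exact hzW _
  have hxi : ∀ i j, i < 8 → j < 8 → x i = x j → i = j := by
    intro i j hi hj h
    simp only [x] at h
    split_ifs at h with h1 h2 h2
    · exact hci i j h1 h2 h
    · exact absurd h (hcz _ _)
    · exact absurd h.symm (hcz _ _)
    · have := hzi _ _ (by omega) (by omega) h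
      omega
  have x0 : x 0 = c 0 := rfl
  have x1 : x 1 = c 1 := rfl
  have x2 : x 2 = c 2 := rfl
  have x3 : x 3 = c 3 := rfl
  have x4 : x 4 = z 0 := rfl
  have x5 : x 5 = z 1 := rfl
  have x6 : x 6 = z 2 := rfl
  have x7 : x 7 = z 3 := rfl
  have p1 : R (c 1) (c 0) (c 2) (z 1) ↔ (!decide (R (c 0) (c 3) (c 1) (z 0))) = true := by
    rw [Bool.not_eq_true', decide_eq_false_iff_not]; tauto
  have p2 : R (c 2) (c 1) (c 3) (z 2) ↔ (decide (R (c 0) (c 3) (c 1) (z 0))) = true := by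
    rw [decide_eq_true_iff]; tauto
  have p3 : R (c 3) (c 2) (c 0) (z 3) ↔ (!decide (R (c 0) (c 3) (c 1) (z 0))) = true := by
    rw [Bool.not_eq_true', decide_eq_false_iff_not]; tauto
  rcases hz with ⟨z01, z12, z23, z30⟩ | ⟨z02, z21, z13, z30⟩ | ⟨z01, z13, z32, z20⟩
  · obtain ⟨P, t0, t1, t2, t3, t4, t5, t6, t7⟩ := ex0 (decide (R (c 0) (c 3) (c 1) (z 0)))
      (decide (R (z 0) (z 3) (z 1) (c 0))) (decide (R (z 1) (z 0) (z 2) (c 1)))
      (decide (R (z 2) (z 1) (z 3) (c 2))) (decide (R (z 3) (z 2) (z 0) (c 3)))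
    refine comp8 hR x nb0 P hxW hxi (by decide) (by decide) ?_ ?_ hD hN ih
    · intro i hi
      interval_cases i
      · exact ⟨c30.symm, c01, e0⟩
      · exact ⟨c01.symm, c12, e1⟩
      · exact ⟨c12.symm, c23, e2⟩
      · exact ⟨c23.symm, c30, e3⟩
      · exact ⟨z30.symm, z01, e0.symm⟩
      · exact ⟨z01.symm, z12, e1.symm⟩
      · exact ⟨z12.symm, z23, e2.symm⟩
      · exact ⟨z23.symm, z30, e3.symm⟩
    · intro i hi
      interval_cases i
      · exact ⟨_, decide_iff' _, t0⟩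
      · exact ⟨_, p1, t1⟩
      · exact ⟨_, p2, t2⟩
      · exact ⟨_, p3, t3⟩
      · exact ⟨_, decide_iff' _, t4⟩
      · exact ⟨_, decide_iff' _, t5⟩
      · exact ⟨_, decide_iff' _, t6⟩
      · exact ⟨_, decide_iff' _, t7⟩
  · obtain ⟨P, t0, t1, t2, t3, t4, t5, t6, t7⟩ := ex1 (decide (R (c 0) (c 3) (c 1) (z 0)))
      (decide (R (z 0) (z 2) (z 3) (c 0))) (decide (R (z 1) (z 2) (z 3) (c 1)))
      (decide (R (z 2) (z 0) (z 1) (c 2))) (decide (R (z 3) (z 0) (z 1) (c 3)))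
    refine comp8 hR x nb1 P hxW hxi (by decide) (by decide) ?_ ?_ hD hN ih
    · intro i hi
      interval_cases i
      · exact ⟨c30.symm, c01, e0⟩
      · exact ⟨c01.symm, c12, e1⟩
      · exact ⟨c12.symm, c23, e2⟩
      · exact ⟨c23.symm, c30, e3⟩
      · exact ⟨z02, z30.symm, e0.symm⟩
      · exact ⟨z21.symm, z13, e1.symm⟩
      · exact ⟨z02.symm, z21, e2.symm⟩
      · exact ⟨z30, z13.symm, e3.symm⟩
    · intro i hi
      interval_cases i
      · exact ⟨_, decide_iff' _, t0⟩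
      · exact ⟨_, p1, t1⟩
      · exact ⟨_, p2, t2⟩
      · exact ⟨_, p3, t3⟩
      · exact ⟨_, decide_iff' _, t4⟩
      · exact ⟨_, decide_iff' _, t5⟩
      · exact ⟨_, decide_iff' _, t6⟩
      · exact ⟨_, decide_iff' _, t7⟩
  · obtain ⟨P, t0, t1, t2, t3, t4, t5, t6, t7⟩ := ex2 (decide (R (c 0) (c 3) (c 1) (z 0)))
      (decide (R (z 0) (z 1) (z 2) (c 0))) (decide (R (z 1) (z 0) (z 3) (c 1)))
      (decide (R (z 2) (z 0) (z 3) (c 2))) (decide (R (z 3) (z 1) (z 2) (c 3)))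
    refine comp8 hR x nb2 P hxW hxi (by decide) (by decide) ?_ ?_ hD hN ih
    · intro i hi
      interval_cases i
      · exact ⟨c30.symm, c01, e0⟩
      · exact ⟨c01.symm, c12, e1⟩
      · exact ⟨c12.symm, c23, e2⟩
      · exact ⟨c23.symm, c30, e3⟩
      · exact ⟨z01, z20.symm, e0.symm⟩
      · exact ⟨z01.symm, z13, e1.symm⟩
      · exact ⟨z20, z32.symm, e2.symm⟩
      · exact ⟨z13.symm, z32, e3.symm⟩
    · intro i hi
      interval_cases i
      · exact ⟨_, decide_iff' _, t0⟩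
      · exact ⟨_, p1, t1⟩
      · exact ⟨_, p2, t2⟩
      · exact ⟨_, p3, t3⟩
      · exact ⟨_, decide_iff' _, t4⟩
      · exact ⟨_, decide_iff' _, t5⟩
      · exact ⟨_, decide_iff' _, t6⟩
      · exact ⟨_, decide_iff' _, t7⟩

theorem cyc_diff {W : Set V} {m : ℕ} {c : ℕ → V} (hc : IsCyc G W m c) {i j : ℕ}
    (h : c i ≠ c j) : ∃ d, 0 < d ∧ d < m + 3 ∧ c (i + d) = c j ∧ c (j + (m + 3 - d)) = c i := by
  have h1 : ∃ d, d < m + 3 ∧ c (i + d) = c j := by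
    refine ⟨(j + (m + 2) * i) % (m + 3), Nat.mod_lt _ (by omega), ?_⟩
    have h1 := per_mod (c := fun t => c (i + t)) (hc.rotate i).per (j + (m + 2) * i)
    rw [← h1, show i + (j + (m + 2) * i) = j + (m + 3) * i by ring]
    exact per_mul hc.per _ _
  obtain ⟨d, hd, hd2⟩ := h1
  have hd0 : 0 < d := by
    rcases Nat.eq_zero_or_pos d with rfl | h2
    · exact absurd hd2 h
    · exact h2
  refine ⟨d, hd0, hd, hd2, ?_⟩
  rw [hc.eq_iff] at hd2 ⊢
  have h2 : i + d + (m + 3 - d) ≡ j + (m + 3 - d) [MOD m + 3] := hd2.add_right _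
  rw [show i + d + (m + 3 - d) = i + (m + 3) by omega] at h2
  have h3 : i + (m + 3) ≡ i [MOD m + 3] := by
    unfold Nat.ModEq; exact Nat.add_mod_right _ _
  exact h2.symm.trans h3

/-- The step for a shortest cycle, all outer neighbours of another alternating cycle being on
it. -/
theorem step_exceptional (hR : IsRot G R) {W : Set V} {m : ℕ} {c w : ℕ → V}
    (hc : IsCyc G W m c) (hmin : ∀ m' c', IsCyc G W m' c' → m ≤ m') (hw : IsOut G m c w)
    {m' : ℕ} {c' w' : ℕ → V}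
    (hc' : IsCyc G (W \ Set.range c) m' c') (hw' : IsOut G m' c' w')
    (halt : ∀ j, Sgn R m' c' w' j ↔ ¬ Sgn R m' c' w' (j + 1))
    (hX : ∀ j, w' j ∈ Set.range c)
    {h0 : V → Pt} (hD : Dist G W h0) (hN : NoBad G R W h0) (ih : IH G R W) : Ext R W h0 := by
  classical
  have hWc' : IsCyc G W m' c' := hc'.mono Set.sdiff_subset
  have hcc : ∀ i j, c' i ≠ c j := fun i j h => (hc'.mem i).2 ⟨j, h.symm⟩
  have hm1 : 1 ≤ m' := alt_pos hc' hw' halt
  -- positions on the shortest cycle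
  have hf : ∀ j, ∃ l, l < m + 3 ∧ c l = w' j := by
    intro j
    obtain ⟨l, hl⟩ := hX j
    exact ⟨l % (m + 3), Nat.mod_lt _ (by omega), by rw [← per_mod hc.per]; exact hl⟩
  choose f hf1 hf2 using hf
  -- each vertex of the shortest cycle has one outer neighbour
  have huniq : ∀ l i j, G.Adj (c' i) (c l) → G.Adj (c' j) (c l) → c' i = c' j := by
    intro l i j hi hj
    have h1 : c' i = w l := by
      rcases nbr_cyc hR hc hw hi.symm with h | h | h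
      · exact absurd h (hcc _ _)
      · exact absurd h (hcc _ _)
      · exact h
    have h2 : c' j = w l := by
      rcases nbr_cyc hR hc hw hj.symm with h | h | h
      · exact absurd h (hcc _ _)
      · exact absurd h (hcc _ _)
      · exact h
    rw [h1, h2]
  have hwinj : ∀ i j, i < m' + 3 → j < m' + 3 → w' i = w' j → i = j := by
    intro i j hi hj h
    refine hc'.inj i j hi hj (huniq (f i) i j ?_ ?_)
    · rw [hf2]; exact hw'.adj i
    · rw [hf2, h]; exact hw'.adj j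
  have hfinj : ∀ i j, i < m' + 3 → j < m' + 3 → f i = f j → i = j := by
    intro i j hi hj h
    refine hwinj i j hi hj ?_
    rw [← hf2 i, ← hf2 j, h]
  let F : Fin (m' + 3) → Fin (m + 3) := fun i => ⟨f i, hf1 i⟩
  have hFinj : Function.Injective F := by
    intro i j h
    have := congrArg Fin.val h
    exact Fin.ext (hfinj i j i.2 j.2 this)
  have hle : m' + 3 ≤ m + 3 := by
    have := Fintype.card_le_of_injective F hFinj
    rwa [Fintype.card_fin, Fintype.card_fin] at this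
  have hmm : m' = m := le_antisymm (by omega) (hmin m' c' hWc')
  subst hmm
  have hsurj : Function.Surjective F := Finite.injective_iff_surjective.1 hFinj
  -- the arcs
  have arc : ∀ j, ∃ d, 0 < d ∧ d < m' + 3 ∧ c (f j + d) = w' (j + 1) ∧ m' ≤ d ∧
      m' ≤ m' + 3 - d := by
    intro j
    have hne : c (f j) ≠ c (f (j + 1)) := by
      intro h
      have h1 : c' j = c' (j + 1) := by
        refine huniq (f j) j (j + 1) ?_ ?_
        · rw [hf2]; exact hw'.adj j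
        · rw [h, hf2]; exact hw'.adj (j + 1)
      exact (hc'.adj j).ne h1
    obtain ⟨d, d1, d2, d3, d4⟩ := cyc_diff hc hne
    refine ⟨d, d1, d2, by rw [d3, hf2], ?_, ?_⟩
    · exact arc_two hc hmin (hWc'.mem j) (fun i => hcc _ _) (hWc'.mem (j + 1))
        (fun i => hcc _ _) (hc'.adj j) d1 d2 (by rw [hf2]; exact hw'.adj j)
        (by rw [d3, hf2]; exact hw'.adj (j + 1))
    · exact arc_two hc hmin (hWc'.mem (j + 1)) (fun i => hcc _ _) (hWc'.mem j)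
        (fun i => hcc _ _) (hc'.adj j).symm (j := m' + 3 - d) (by omega) (by omega)
        (by rw [hf2]; exact hw'.adj (j + 1))
        (by rw [d4, hf2]; exact hw'.adj j)
  have h2 : ∀ j, Sgn R m' c' w' (j + 2) ↔ Sgn R m' c' w' j := by
    intro j
    have e1 := halt j
    have e2 := halt (j + 1)
    have e3 : Sgn R m' c' w' (j + 1 + 1) ↔ Sgn R m' c' w' (j + 2) := Iff.rfl
    tauto
  have hm : m' = 1 := by
    obtain ⟨d, d1, d2, d3, d4, d5⟩ := arc 0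
    have hm3 : m' ≤ 3 := by omega
    have hcases : m' = 1 ∨ m' = 2 ∨ m' = 3 := by omega
    rcases hcases with h | h | h
    · exact h
    · exfalso
      subst h
      have e1 := sgn_per (R := R) hc' hw' 0
      have e2 := h2 0
      have e3 := h2 2
      have e4 := halt 4
      simp only [Nat.zero_add, Nat.reduceAdd] at e1 e2 e3 e4
      tauto
    · exfalso
      subst h
      obtain ⟨d', d1', d2', d3', d4', d5'⟩ := arc 1
      have hd : d = 3 := by omega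
      have hd' : d' = 3 := by omega
      subst hd
      subst hd'
      rw [Nat.zero_add, ← hf2 1, hc.eq_iff] at d3
      rw [show 1 + 1 = 2 from rfl, ← hf2 2, hc.eq_iff] at d3'
      have e1 : f 0 + 3 + 3 ≡ f 2 [MOD 3 + 3] := (d3.add_right 3).trans d3'
      have e2 : f 0 ≡ f 2 [MOD 3 + 3] := by
        unfold Nat.ModEq at e1 ⊢
        rwa [Nat.add_assoc, Nat.add_mod_right] at e1
      have e3 : w' 0 = w' 2 := by rw [← hf2 0, ← hf2 2]; exact hc.eq_iff.2 e2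
      have := hwinj 0 2 (by omega) (by omega) e3
      omega
  subst hm
  -- rotate the shortest cycle
  have hcr := hc.rotate (f 0)
  have hz0 : c (f 0 + 0) = w' 0 := hf2 0
  have hz : ∀ i, ∃ l, l < 4 ∧ c (f 0 + i) = w' l := by
    intro i
    obtain ⟨l, hl⟩ := hsurj ⟨(f 0 + i) % 4, Nat.mod_lt _ (by omega)⟩
    refine ⟨l, l.2, ?_⟩
    have h1 := congrArg Fin.val hl
    have h3 : f l = (f 0 + i) % 4 := h1
    rw [← hf2, h3]
    exact per_mod hc.per _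
  obtain ⟨l1, hl1, hl1'⟩ := hz 1
  obtain ⟨l2, hl2, hl2'⟩ := hz 2
  obtain ⟨l3, hl3, hl3'⟩ := hz 3
  have hzinj : ∀ i j, i < 4 → j < 4 → c (f 0 + i) = c (f 0 + j) → i = j := fun i j hi hj h =>
    hcr.inj i j hi hj h
  have n01 : l1 ≠ 0 := by
    rintro rfl
    have := hzinj 1 0 (by omega) (by omega) (hl1'.trans hz0.symm); omega
  have n02 : l2 ≠ 0 := by
    rintro rfl
    have := hzinj 2 0 (by omega) (by omega) (hl2'.trans hz0.symm); omega
  have n03 : l3 ≠ 0 := by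
    rintro rfl
    have := hzinj 3 0 (by omega) (by omega) (hl3'.trans hz0.symm); omega
  have n12 : l1 ≠ l2 := by
    rintro rfl
    have := hzinj 1 2 (by omega) (by omega) (hl1'.trans hl2'.symm); omega
  have n13 : l1 ≠ l3 := by
    rintro rfl
    have := hzinj 1 3 (by omega) (by omega) (hl1'.trans hl3'.symm); omega
  have n23 : l2 ≠ l3 := by
    rintro rfl
    have := hzinj 2 3 (by omega) (by omega) (hl2'.trans hl3'.symm); omega
  have a01 : G.Adj (w' 0) (w' l1) := by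
    have := hcr.adj 0; beta_reduce at this; rwa [hz0, hl1'] at this
  have a12 : G.Adj (w' l1) (w' l2) := by
    have := hcr.adj 1; beta_reduce at this; rwa [hl1', hl2'] at this
  have a23 : G.Adj (w' l2) (w' l3) := by
    have := hcr.adj 2; beta_reduce at this; rwa [hl2', hl3'] at this
  have a30 : G.Adj (w' l3) (w' 0) := by
    have h1 := hcr.adj 3
    have h3 : c (f 0 + (3 + 1)) = c (f 0) := by
      have := hc.per (f 0)
      exact this
    beta_reduce at h1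
    rw [hl3', h3, hf2 0] at h1
    exact h1
  have c4 : c' (3 + 1) = c' 0 := by
    have := hc'.per 0
    rwa [Nat.zero_add] at this
  have c5 : c' (2 + 3) = c' 1 := by
    have := hc'.per 1
    exact this
  have c6 : c' (3 + 3) = c' 2 := by
    have := hc'.per 2
    exact this
  refine exc_types hR c' w' hWc'.mem (fun i => ?_) (fun i j h => ?_)
    (fun i j hi hj h => hc'.inj i j hi hj h) (fun i j hi hj h => hwinj i j hi hj h)
    (hc'.adj 0) (hc'.adj 1) (hc'.adj 2) (c4 ▸ hc'.adj 3) (hw'.adj 0) (hw'.adj 1) (hw'.adj 2)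
    (hw'.adj 3) ?_ ?_ ?_ ?_ hD hN ih
  · obtain ⟨l, hl⟩ := hX i
    rw [← hl]; exact hc.mem l
  · obtain ⟨l, hl⟩ := hX j
    exact hcc i l (h.trans hl.symm)
  · have := halt 0
    unfold Sgn at this
    have e : c' (1 + (1 + 2)) = c' 0 := c4
    simp only [Nat.zero_add, Nat.reduceAdd] at this e
    rw [e] at this
    exact this
  · have := h2 0
    unfold Sgn at this
    have e : c' (2 + 3) = c' 1 := c5
    simp only [Nat.zero_add, Nat.reduceAdd] at this e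
    rw [e] at this
    exact this.symm
  · have := halt 0
    have h4 := h2 1
    unfold Sgn at this h4
    have e : c' (3 + 3) = c' 2 := c6
    have e' : c' (1 + (1 + 2)) = c' 0 := c4
    simp only [Nat.zero_add, Nat.reduceAdd] at this e e' h4
    rw [e, e'] at h4
    rw [e'] at this
    tauto
  · have hl1c : l1 = 1 ∨ l1 = 2 ∨ l1 = 3 := by omega
    have hl2c : l2 = 1 ∨ l2 = 2 ∨ l2 = 3 := by omega
    have hl3c : l3 = 1 ∨ l3 = 2 ∨ l3 = 3 := by omega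
    rcases hl1c with rfl | rfl | rfl <;> rcases hl2c with rfl | rfl | rfl <;>
      rcases hl3c with rfl | rfl | rfl <;> first
      | exact absurd rfl n12
      | exact absurd rfl n13
      | exact absurd rfl n23
      | exact Or.inl ⟨a01, a12, a23, a30⟩
      | exact Or.inl ⟨a30.symm, a23.symm, a12.symm, a01.symm⟩
      | exact Or.inr (Or.inl ⟨a01, a12, a23, a30⟩)
      | exact Or.inr (Or.inl ⟨a30.symm, a23.symm, a12.symm, a01.symm⟩)
      | exact Or.inr (Or.inr ⟨a01, a12, a23, a30⟩)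
      | exact Or.inr (Or.inr ⟨a30.symm, a23.symm, a12.symm, a01.symm⟩)

end Pool.Agent.Lib.MP_8b4fe7_lc
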