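import Pool.Agent.Lib.MP_8b4fe7_lc.Template

/-!
# Collapsed drawings and their expansion
-/

namespace Pool.Agent.Lib.MP_8b4fe7_lc

open Filter Topology

universe u

variable {V : Type u} {G : SimpleGraph V} {R : V → V → V → V → Prop}

/-- `R v a b c` says: `a, b, c` are the three neighbours of `v`, in this prescribed cyclic
order. -/
structure IsRot (G : SimpleGraph V) (R : V → V → V → V → Prop) : Prop where
  ex : ∀ v, ∃ a b c, R v a b c
  adj : ∀ {v a b c}, R v a b c → ∀ x, G.Adj v x ↔ (x = a ∨ x = b ∨ x = c)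
  ne : ∀ {v a b c}, R v a b c → a ≠ b ∧ b ≠ c ∧ c ≠ a
  rot : ∀ {v a b c}, R v a b c → R v b c a
  total : ∀ {v a b c}, G.Adj v a → G.Adj v b → G.Adj v c → a ≠ b → b ≠ c → c ≠ a →
    R v a b c ∨ R v b a c
  asymm : ∀ {v a b c}, R v a b c → ¬ R v b a c

/-- The directions `d` of the neighbours of `v` are in the prescribed cyclic order. -/
def SatD (R : V → V → V → V → Prop) (d : V → Pt) (v : V) : Prop :=
  ∀ a b c, R v a b c → cyc (d a) (d b) (d c)

/-- The positions `h` satisfy the condition at `v`. -/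
def Sat (R : V → V → V → V → Prop) (h : V → Pt) (v : V) : Prop :=
  SatD R (fun a => h a - h v) v

theorem satD_of_cyc (hR : IsRot G R) {d : V → Pt} {v a b c : V} (h : R v a b c)
    (hd : cyc (d a) (d b) (d c)) : SatD R d v := by
  intro a' b' c' h'
  have ha := (hR.adj h a').1 ((hR.adj h' a').2 (Or.inl rfl))
  have hb := (hR.adj h b').1 ((hR.adj h' b').2 (Or.inr (Or.inl rfl)))
  have hc := (hR.adj h c').1 ((hR.adj h' c').2 (Or.inr (Or.inr rfl)))
  obtain ⟨n1, n2, n3⟩ := hR.ne h'
  have as := hR.asymm h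
  have h2 := hR.rot h
  have as2 := hR.asymm h2
  have as3 := hR.asymm (hR.rot h2)
  rcases ha with rfl | rfl | rfl <;> rcases hb with rfl | rfl | rfl <;>
    rcases hc with rfl | rfl | rfl <;> first
    | exact absurd rfl n1
    | exact absurd rfl n2
    | exact absurd rfl n3
    | exact hd
    | exact cyc_rot hd
    | exact cyc_rot' hd
    | exact absurd h' as
    | exact absurd h' as2
    | exact absurd h' as3

theorem satD_of_sg (hR : IsRot G R) {d : V → Pt} {v a b c : V} (ha : G.Adj v a)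
    (hb : G.Adj v b) (hc : G.Adj v c) (hab : a ≠ b) (hbc : b ≠ c) (hca : c ≠ a)
    (h : sg (R v a b c) (d a) (d b) (d c)) : SatD R d v := by
  rcases hR.total ha hb hc hab hbc hca with h1 | h1
  · exact satD_of_cyc hR h1 (h.1 h1)
  · exact satD_of_cyc hR h1 (h.2 (fun h2 => hR.asymm h2 h1))

theorem eventually_satD (hR : IsRot G R) {α : Type*} {l : Filter α} {D : α → V → Pt} {d : V → Pt}
    {v : V} (hD : ∀ a, Tendsto (fun t => D t a) l (𝓝 (d a))) (h : SatD R d v) :
    ∀ᶠ t in l, SatD R (D t) v := by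
  obtain ⟨a, b, c, habc⟩ := hR.ex v
  filter_upwards [eventually_cyc (hD a) (hD b) (hD c) (h a b c habc)] with t ht
  exact satD_of_cyc hR habc ht

theorem eventually_sat (hR : IsRot G R) {α : Type*} {l : Filter α} {H : α → V → Pt} {h : V → Pt}
    {v : V} (hH : ∀ a, Tendsto (fun t => H t a) l (𝓝 (h a))) (hs : Sat R h v) :
    ∀ᶠ t in l, Sat R (H t) v :=
  eventually_satD hR (D := fun t a => H t a - H t v) (fun a => (hH a).sub (hH v)) hs

theorem sat_congr (hR : IsRot G R) {h h' : V → Pt} {v : V} (hv : h v = h' v)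
    (ha : ∀ a, G.Adj v a → h a = h' a) (hs : Sat R h v) : Sat R h' v := by
  obtain ⟨a, b, c, habc⟩ := hR.ex v
  refine satD_of_cyc hR habc ?_
  have := hs a b c habc
  rw [← hv, ← ha a ((hR.adj habc a).2 (Or.inl rfl)),
    ← ha b ((hR.adj habc b).2 (Or.inr (Or.inl rfl))),
    ← ha c ((hR.adj habc c).2 (Or.inr (Or.inr rfl)))]
  exact this

theorem tendsto_add_smul (x d : Pt) :
    Tendsto (fun t : ℝ => x + t • d) (𝓝[>] 0) (𝓝 x) := by
  have : Tendsto (fun t : ℝ => x + t • d) (𝓝 0) (𝓝 (x + (0 : ℝ) • d)) :=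
    tendsto_const_nhds.add (tendsto_id.smul tendsto_const_nhds)
  simp only [zero_smul, add_zero] at this
  exact this.mono_left nhdsWithin_le_nhds

open Classical in
/-- Expanding a collapsed set `Z` of vertices. -/
theorem expand [Finite V] (hR : IsRot G R) (Z A : Set V) (h g : V → Pt) (ζ : Pt)
    (hZ : ∀ v ∈ Z, h v = ζ) (hA : ∀ v ∈ A, Sat R h v)
    (hg : ∀ v ∈ Z, SatD R (fun a => if a ∈ Z then g a - g v else h a - ζ) v) :
    ∀ᶠ t in 𝓝[>] (0 : ℝ), ∀ v, v ∈ A ∨ v ∈ Z →
      Sat R (fun x => if x ∈ Z then ζ + t • g x else h x) v := by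
  rw [eventually_all]
  intro v
  by_cases hvZ : v ∈ Z
  · obtain ⟨a, b, c, habc⟩ := hR.ex v
    have h1 := hg v hvZ a b c habc
    let D : ℝ → V → Pt := fun t x => if x ∈ Z then g x - g v else h x - ζ - t • g v
    have hD : ∀ x, Tendsto (fun t => D t x) (𝓝[>] 0) (𝓝 (if x ∈ Z then g x - g v else h x - ζ)) := by
      intro x
      by_cases hx : x ∈ Z
      · simp only [D, if_pos hx]; exact tendsto_const_nhds
      · simp only [D, if_neg hx]
        have := tendsto_add_smul (h x - ζ) (-g v)
        simpa [sub_eq_add_neg] using this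
    have hpos : ∀ᶠ t in 𝓝[>] (0 : ℝ), 0 < t := self_mem_nhdsWithin
    filter_upwards [eventually_cyc (hD a) (hD b) (hD c) h1, hpos] with t ht htp _
    have key : ∀ x, (if x ∈ Z then ζ + t • g x else h x) - (if v ∈ Z then ζ + t • g v else h v)
        = (if x ∈ Z then t else 1) • D t x := by
      intro x
      by_cases hx : x ∈ Z
      · simp only [D, if_pos hx, if_pos hvZ, smul_sub]; abel
      · simp only [D, if_neg hx, if_pos hvZ, one_smul]; abel
    have hp : ∀ x, 0 < (if x ∈ Z then t else 1) := by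
      intro x; split_ifs
      · exact htp
      · exact one_pos
    refine satD_of_cyc hR habc ?_
    simp only [key]
    exact cyc_smul (hp a) (hp b) (hp c) ht
  · by_cases hvA : v ∈ A
    · have hH : ∀ a, Tendsto (fun t : ℝ => if a ∈ Z then ζ + t • g a else h a) (𝓝[>] 0)
          (𝓝 (h a)) := by
        intro a
        by_cases ha : a ∈ Z
        · simp only [if_pos ha, hZ a ha]; exact tendsto_add_smul _ _
        · simp only [if_neg ha]; exact tendsto_const_nhds
      filter_upwards [eventually_sat hR hH (hA v hvA)] with t ht _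
      exact ht
    · filter_upwards with t ht
      exact absurd ht (by tauto)

open Classical in
/-- Moving a collapsed set (or a single vertex) slightly into general position. -/
theorem move [Finite V] (hR : IsRot G R) (Z A : Set V) (h : V → Pt) (ζ : Pt)
    (hZ : ∀ v ∈ Z, h v = ζ) (hA : ∀ v ∈ A, Sat R h v) :
    ∃ (h' : V → Pt) (ζ' : Pt), (∀ v, v ∉ Z → h' v = h v) ∧ (∀ v ∈ Z, h' v = ζ') ∧
      (∀ v ∈ A, Sat R h' v) ∧ (∀ v, v ∉ Z → h v ≠ ζ') ∧
      (∀ a b, a ∉ Z → b ∉ Z → h a ≠ h b → det (h a - ζ') (h b - ζ') ≠ 0) := by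
  obtain ⟨d, hd0, hd⟩ := exists_generic {f : Pt | ∃ a b, h a ≠ h b ∧ f = h b - h a}
    (by
      have : {f : Pt | ∃ a b, h a ≠ h b ∧ f = h b - h a} ⊆
          Set.range (fun p : V × V => h p.2 - h p.1) := by
        rintro f ⟨a, b, -, rfl⟩; exact ⟨(a, b), rfl⟩
      exact (Set.finite_range _).subset this)
    (by rintro f ⟨a, b, hab, rfl⟩; exact sub_ne_zero.2 hab.symm)
  have hpos : ∀ᶠ t in 𝓝[>] (0 : ℝ), 0 < t := self_mem_nhdsWithin
  let H : ℝ → V → Pt := fun t v => if v ∈ Z then ζ + t • d else h v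
  have hH : ∀ a, Tendsto (fun t : ℝ => H t a) (𝓝[>] 0) (𝓝 (h a)) := by
    intro a
    by_cases ha : a ∈ Z
    · simp only [H, if_pos ha, hZ a ha]; exact tendsto_add_smul _ _
    · simp only [H, if_neg ha]; exact tendsto_const_nhds
  have E1 : ∀ᶠ t in 𝓝[>] (0 : ℝ), ∀ v, v ∈ A → Sat R (H t) v := by
    rw [eventually_all]
    intro v
    by_cases hv : v ∈ A
    · filter_upwards [eventually_sat hR hH (hA v hv)] with t ht _
      exact ht
    · filter_upwards with t ht; exact absurd ht hv
  have E2 : ∀ᶠ t in 𝓝[>] (0 : ℝ), ∀ v, h v ≠ ζ + t • d := by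
    rw [eventually_all]
    intro v
    by_cases hv : h v = ζ
    · filter_upwards [hpos] with t ht h1
      rw [hv] at h1
      have : t • d = 0 := by
        have := h1.symm
        simpa using this
      rcases smul_eq_zero.1 this with h2 | h2
      · exact ht.ne' h2
      · exact hd0 h2
    · have := (tendsto_add_smul ζ d).eventually_ne (Ne.symm hv)
      filter_upwards [this] with t ht
      exact ht.symm
  have E3 : ∀ᶠ t in 𝓝[>] (0 : ℝ), ∀ a b, h a ≠ h b →
      det (h a - (ζ + t • d)) (h b - (ζ + t • d)) ≠ 0 := by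
    rw [eventually_all]; intro a
    rw [eventually_all]; intro b
    by_cases hab : h a = h b
    · filter_upwards with t h1; exact absurd hab h1
    have h2 : det d (h b - h a) ≠ 0 := hd _ ⟨a, b, hab, rfl⟩
    have h3 : ∀ t : ℝ, det (h a - (ζ + t • d)) (h b - (ζ + t • d))
        = det (h a - ζ) (h b - ζ) - t * det d (h b - h a) := by
      intro t
      simp only [det_sub_left, det_sub_right, det_add_left, det_add_right, det_smul_left,
        det_smul_right, det_self]
      rw [det_swap d (h a), det_swap d ζ]; ring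
    by_cases h4 : det (h a - ζ) (h b - ζ) = 0
    · filter_upwards [hpos] with t ht _
      rw [h3, h4, zero_sub]
      exact neg_ne_zero.2 (mul_ne_zero ht.ne' h2)
    · have l : Tendsto (fun t : ℝ => det (h a - ζ) (h b - ζ) - t * det d (h b - h a)) (𝓝[>] 0)
          (𝓝 (det (h a - ζ) (h b - ζ))) := by
        have : Tendsto (fun t : ℝ => det (h a - ζ) (h b - ζ) - t * det d (h b - h a)) (𝓝 0)
            (𝓝 (det (h a - ζ) (h b - ζ) - 0 * det d (h b - h a))) :=
          tendsto_const_nhds.sub (tendsto_id.mul_const _)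
        rw [zero_mul, sub_zero] at this
        exact this.mono_left nhdsWithin_le_nhds
      filter_upwards [l.eventually_ne h4] with t ht _
      rw [h3]; exact ht
  obtain ⟨t, h1, h2, h3⟩ := (E1.and (E2.and E3)).exists
  refine ⟨H t, ζ + t • d, fun v hv => if_neg hv, fun v hv => if_pos hv, h1,
    fun v _ => h2 v, fun a b _ _ hab => h3 a b hab⟩

end Pool.Agent.Lib.MP_8b4fe7_lc
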