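import Pool.Agent.Lib.MP_8b4fe7_lc.Cycle

/-!
# Existence of cycles and properties of shortest cycles
-/

namespace Pool.Agent.Lib.MP_8b4fe7_lc

universe u

variable {V : Type u} {G : SimpleGraph V} {R : V → V → V → V → Prop} {W : Set V}

theorem mkCyc (n : ℕ) (d : ℕ → V) (hmem : ∀ i, i < n + 3 → d i ∈ W)
    (hadj : ∀ i, i < n + 2 → G.Adj (d i) (d (i + 1))) (hlast : G.Adj (d (n + 2)) (d 0))
    (hinj : ∀ i j, i < n + 3 → j < n + 3 → d i = d j → i = j) :
    IsCyc G W n (fun t => d (t % (n + 3))) where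
  mem := fun i => hmem _ (Nat.mod_lt _ (by omega))
  adj := fun i => by
    have h1 : i % (n + 3) < n + 3 := Nat.mod_lt _ (by omega)
    rcases Nat.lt_or_ge (i % (n + 3)) (n + 2) with h | h
    · have h2 : (i + 1) % (n + 3) = i % (n + 3) + 1 := by
        rw [Nat.add_mod, Nat.mod_eq_of_lt (show 1 < n + 3 by omega)]
        exact Nat.mod_eq_of_lt (by omega)
      rw [h2]
      exact hadj _ h
    · have h3 : i % (n + 3) = n + 2 := by omega
      have h2 : (i + 1) % (n + 3) = 0 := by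
        rw [Nat.add_mod, h3, Nat.mod_eq_of_lt (show 1 < n + 3 by omega)]
        exact Nat.mod_self _
      rw [h2, h3]
      exact hlast
  per := fun i => by rw [Nat.add_mod_right]
  inj := fun i j hi hj h => by
    rw [Nat.mod_eq_of_lt hi, Nat.mod_eq_of_lt hj] at h
    exact hinj i j hi hj h

/-- If every vertex of the nonempty finite set `W` has two neighbours in `W` then `W` contains a
cycle. -/
theorem exists_cyc [Finite V] (hne : W.Nonempty)
    (h2 : ∀ v ∈ W, ∃ a b, a ≠ b ∧ a ∈ W ∧ b ∈ W ∧ G.Adj v a ∧ G.Adj v b) :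
    ∃ m c, IsCyc G W m c := by
  classical
  -- a step which does not go back
  have step : ∀ p : {p : V × V // p.1 ∈ W ∧ p.2 ∈ W ∧ G.Adj p.1 p.2},
      ∃ q : {p : V × V // p.1 ∈ W ∧ p.2 ∈ W ∧ G.Adj p.1 p.2}, q.1.1 = p.1.2 ∧ q.1.2 ≠ p.1.1 := by
    rintro ⟨⟨x, y⟩, hx, hy, hxy⟩
    obtain ⟨a, b, hab, ha, hb, hya, hyb⟩ := h2 y hy
    by_cases hax : a = x
    · exact ⟨⟨⟨y, b⟩, hy, hb, hyb⟩, rfl, fun h => hab (hax.trans h.symm)⟩
    · exact ⟨⟨⟨y, a⟩, hy, ha, hya⟩, rfl, hax⟩
  choose nx hnx1 hnx2 using step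
  obtain ⟨v, hv⟩ := hne
  obtain ⟨a, b, hab, ha, hb, hva, hvb⟩ := h2 v hv
  let p : ℕ → {p : V × V // p.1 ∈ W ∧ p.2 ∈ W ∧ G.Adj p.1 p.2} :=
    fun n => Nat.rec ⟨(v, a), hv, ha, hva⟩ (fun _ q => nx q) n
  have ps : ∀ n, p (n + 1) = nx (p n) := fun n => rfl
  let x : ℕ → V := fun n => (p n).1.1
  have hx1 : ∀ n, (p n).1.2 = x (n + 1) := fun n => (hnx1 (p n)).symm
  have hxW : ∀ n, x n ∈ W := fun n => (p n).2.1
  have hxadj : ∀ n, G.Adj (x n) (x (n + 1)) := fun n => by
    have := (p n).2.2.2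
    rwa [hx1] at this
  have hxne : ∀ n, x (n + 2) ≠ x n := fun n => by
    have := hnx2 (p n)
    rw [← ps] at this
    intro h
    exact this ((hx1 (n + 1)).trans h)
  have hrep : ∃ d, 0 < d ∧ ∃ i, x (i + d) = x i := by
    obtain ⟨i, j, hij, h⟩ := Finite.exists_ne_map_eq_of_infinite x
    rcases Nat.lt_or_gt_of_ne hij with h1 | h1
    · exact ⟨j - i, by omega, i, by rw [show i + (j - i) = j by omega]; exact h.symm⟩
    · exact ⟨i - j, by omega, j, by rw [show j + (i - j) = i by omega]; exact h⟩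
  obtain ⟨hd0, i, hi⟩ := Nat.find_spec hrep
  have hmin : ∀ d' < Nat.find hrep, ¬ (0 < d' ∧ ∃ i, x (i + d') = x i) :=
    fun d' hd' => Nat.find_min hrep hd'
  set d := Nat.find hrep with hd
  have hd1 : d ≠ 1 := by
    intro h; rw [h] at hi
    exact (hxadj i).ne hi.symm
  have hd2 : d ≠ 2 := by
    intro h; rw [h] at hi
    exact hxne i hi
  obtain ⟨n, hn⟩ : ∃ n, d = n + 3 := ⟨d - 3, by omega⟩
  refine ⟨n, _, mkCyc n (fun t => x (i + t)) (fun t _ => hxW _) (fun t _ => hxadj _) ?_ ?_⟩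
  · have := hxadj (i + (n + 2))
    rw [show i + (n + 2) + 1 = i + (n + 3) by ring, ← hn, hi] at this
    exact this
  · have key : ∀ s t, s < t → t < n + 3 → x (i + s) ≠ x (i + t) := by
      intro s t hst ht h
      refine hmin (t - s) (by omega) ⟨by omega, i + s, ?_⟩
      rw [show i + s + (t - s) = i + t by omega]; exact h.symm
    intro s t hs ht h
    rcases Nat.lt_trichotomy s t with h1 | h1 | h1
    · exact absurd h (key s t h1 ht)
    · exact h1
    · exact absurd h.symm (key t s h1 hs)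

theorem exists_min_cyc (h : ∃ m c, IsCyc G W m c) :
    ∃ m c, IsCyc G W m c ∧ ∀ m' c', IsCyc G W m' c' → m ≤ m' := by
  classical
  obtain ⟨c, hc⟩ := Nat.find_spec h
  exact ⟨Nat.find h, c, hc, fun m' c' hc' => Nat.find_min' h ⟨c', hc'⟩⟩

theorem exists_out (hR : IsRot G R) {m : ℕ} {c : ℕ → V} (hc : IsCyc G W m c) :
    ∃ w, IsOut G m c w := by
  classical
  have third : ∀ v a b : V, ∃ x, G.Adj v x ∧ x ≠ a ∧ x ≠ b := by
    intro v a b
    obtain ⟨x, y, z, hxyz⟩ := hR.ex v
    have hx := (hR.adj hxyz x).2 (Or.inl rfl)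
    have hy := (hR.adj hxyz y).2 (Or.inr (Or.inl rfl))
    have hz := (hR.adj hxyz z).2 (Or.inr (Or.inr rfl))
    obtain ⟨n1, n2, n3⟩ := hR.ne hxyz
    by_cases hxa : x = a
    · by_cases hyb : y = b
      · exact ⟨z, hz, fun h => n3 (h.trans hxa.symm), fun h => n2 (hyb.trans h.symm)⟩
      · exact ⟨y, hy, fun h => n1 (hxa.trans h.symm), hyb⟩
    · by_cases hxb : x = b
      · by_cases hya : y = a
        · exact ⟨z, hz, fun h => n2 (hya.trans h.symm), fun h => n3 (h.trans hxb.symm)⟩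
        · exact ⟨y, hy, hya, fun h => n1 (hxb.trans h.symm)⟩
      · exact ⟨x, hx, hxa, hxb⟩
  choose t ht1 ht2 ht3 using third
  refine ⟨fun i => t (c i) (c (i + (m + 2))) (c (i + 1)), ?_, fun i => ht1 _ _ _,
    fun i => ht3 _ _ _, fun i => ht2 _ _ _⟩
  intro i
  rw [show i + (m + 3) + (m + 2) = (i + (m + 2)) + (m + 3) by ring,
    show i + (m + 3) + 1 = (i + 1) + (m + 3) by ring, hc.per, hc.per, hc.per]

section
variable {m : ℕ} {c w : ℕ → V}

/-- The neighbours of `c i`. -/
theorem nbr_cyc (hR : IsRot G R) (hc : IsCyc G W m c) (hw : IsOut G m c w) {i : ℕ} {x : V}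
    (h : G.Adj (c i) x) : x = c (i + (m + 2)) ∨ x = c (i + 1) ∨ x = w i := by
  rcases hR.total (hc.adj_prev i) (hc.adj i) (hw.adj i) (hc.prev_ne_next i) (hw.ne i).symm
    (hw.ne' i) with h1 | h1
  · exact (hR.adj h1 x).1 h
  · have := (hR.adj h1 x).1 h
    tauto

/-- On a shortest cycle there are no chords. -/
theorem out_ne (hc : IsCyc G W m c) (hmin : ∀ m' c', IsCyc G W m' c' → m ≤ m')
    (hw : IsOut G m c w) (i j : ℕ) : w i ≠ c j := by
  intro h
  -- rotate to `i = 0`
  have hc' := hc.rotate i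
  have hw' := hw.rotate i
  obtain ⟨l, hl, hl2⟩ : ∃ l, l < m + 3 ∧ c (i + l) = c j := by
    refine ⟨(j + (m + 2) * i) % (m + 3), Nat.mod_lt _ (by omega), ?_⟩
    have h1 := per_mod (c := fun t => c (i + t)) hc'.per (j + (m + 2) * i)
    rw [← h1, show i + (j + (m + 2) * i) = j + (m + 3) * i by ring]
    exact per_mul hc.per _ _
  rw [← hl2] at h
  have hadj : G.Adj (c i) (c (i + l)) := h ▸ hw.adj i
  have l0 : l ≠ 0 := by rintro rfl; exact hadj.ne rfl
  have l1 : l ≠ 1 := by rintro rfl; exact hw.ne i h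
  have l2 : l ≠ m + 2 := by rintro rfl; exact hw.ne' i h
  obtain ⟨n, rfl⟩ : ∃ n, l = n + 2 := ⟨l - 2, by omega⟩
  have := hmin n _ (mkCyc n (fun t => c (i + t)) (fun t _ => hc.mem _) (fun t _ => hc.adj _)
    hadj.symm (fun s t hs ht h => hc'.inj s t (by omega) (by omega) h))
  omega

/-- A path through one further vertex closes an arc of a shortest cycle. -/
theorem arc_one (hc : IsCyc G W m c) (hmin : ∀ m' c', IsCyc G W m' c' → m ≤ m')
    {y : V} (hy : y ∈ W) (hyc : ∀ i, y ≠ c i) {i j : ℕ} (hj : 0 < j) (hjk : j < m + 3)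
    (h1 : G.Adj y (c i)) (h2 : G.Adj y (c (i + j))) : m + 1 ≤ j := by
  classical
  obtain ⟨n, rfl⟩ : ∃ n, j = n + 1 := ⟨j - 1, by omega⟩
  have hc' := hc.rotate i
  have := hmin n _ (mkCyc (W := W) n (fun t => if t ≤ n + 1 then c (i + t) else y) ?_ ?_ ?_ ?_)
  · omega
  · intro t _
    split_ifs
    · exact hc.mem _
    · exact hy
  · intro t ht
    rw [if_pos (by omega)]
    by_cases h : t + 1 ≤ n + 1
    · rw [if_pos h]; exact hc.adj _
    · rw [if_neg h]
      have : t = n + 1 := by omega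
      subst this
      exact h2.symm
  · rw [if_neg (by omega), if_pos (by omega)]
    exact h1
  · intro s t hs ht
    split_ifs with h3 h4 h5
    · intro h; exact hc'.inj s t (by omega) (by omega) h
    · intro h; exact absurd h.symm (hyc _)
    · intro h; exact absurd h (hyc _)
    · intro _; omega

/-- A path through two further vertices closes an arc of a shortest cycle. -/
theorem arc_two (hc : IsCyc G W m c) (hmin : ∀ m' c', IsCyc G W m' c' → m ≤ m')
    {y y' : V} (hy : y ∈ W) (hyc : ∀ i, y ≠ c i) (hy' : y' ∈ W) (hyc' : ∀ i, y' ≠ c i)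
    (hyy : G.Adj y y') {i j : ℕ} (hj : 0 < j) (hjk : j < m + 3)
    (h1 : G.Adj y (c i)) (h2 : G.Adj y' (c (i + j))) : m ≤ j := by
  classical
  have hc' := hc.rotate i
  have := hmin j _ (mkCyc (W := W) j
    (fun t => if t ≤ j then c (i + t) else if t = j + 1 then y' else y) ?_ ?_ ?_ ?_)
  · omega
  · intro t _
    split_ifs
    · exact hc.mem _
    · exact hy'
    · exact hy
  · intro t ht
    rcases Nat.lt_trichotomy t j with h | h | h
    · rw [if_pos (by omega), if_pos (by omega)]; exact hc.adj _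
    · subst h
      rw [if_pos le_rfl, if_neg (by omega), if_pos rfl]; exact h2.symm
    · have : t = j + 1 := by omega
      subst this
      rw [if_neg (by omega), if_pos rfl, if_neg (by omega), if_neg (by omega)]
      exact hyy.symm
  · rw [if_neg (by omega), if_neg (by omega), if_pos (by omega)]
    exact h1
  · intro s t hs ht
    split_ifs with h3 h4 h5 h6 h7 h8 h9
    · intro h; exact hc'.inj s t (by omega) (by omega) h
    · intro h; exact absurd h.symm (hyc' _)
    · intro h; exact absurd h.symm (hyc _)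
    · intro h; exact absurd h (hyc' _)
    · intro _; omega
    · intro h; exact absurd h.symm hyy.ne
    · intro h; exact absurd h (hyc _)
    · intro h; exact absurd h hyy.ne
    · intro _; omega

end

end Pool.Agent.Lib.MP_8b4fe7_lc
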