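import Pool.Agent.Lib.MP_8b4fe7_lc.Tables
import Pool.Agent.Lib.MP_8b4fe7_lc.Minimal

/-!
# From integer tables to the real plane
-/

namespace Pool.Agent.Lib.MP_8b4fe7_lc

open Filter Topology

/-- The integer point `p` in the frame given by `e` and `d • J e`. -/
noncomputable def frame (e : Pt) (d : ℝ) (p : ℤ × ℤ) : Pt :=
  (p.1 : ℝ) • e + (d * (p.2 : ℝ)) • J e

theorem frame_sub (e : Pt) (d : ℝ) (p q : ℤ × ℤ) :
    frame e d (p - q) = frame e d p - frame e d q := by
  unfold frame J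
  ext <;> simp <;> ring

theorem det_frame (e : Pt) (d : ℝ) (p q : ℤ × ℤ) :
    det (frame e d p) (frame e d q) = (d * det e (J e)) * (detZ p q : ℝ) := by
  unfold frame det detZ J
  simp only [Prod.fst_add, Prod.snd_add, Prod.smul_fst, Prod.smul_snd, smul_eq_mul]
  push_cast
  ring

theorem cyc_frame {e : Pt} {d : ℝ} (he : e ≠ 0) (hd : 0 < d) {p q r : ℤ × ℤ} (h : cz p q r) :
    cyc (frame e d p) (frame e d q) (frame e d r) := by
  have hJ := det_J_pos he
  have hk : 0 < d * det e (J e) := by positivity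
  have key : ∀ x y : ℤ × ℤ, 0 < detZ x y → 0 < det (frame e d x) (frame e d y) := by
    intro x y hxy
    rw [det_frame]
    have : (0 : ℝ) < (detZ x y : ℝ) := by exact_mod_cast hxy
    positivity
  rcases h with ⟨h1, h2⟩ | ⟨h1, h2⟩ | ⟨h1, h2⟩
  · exact Or.inl ⟨key _ _ h1, key _ _ h2⟩
  · exact Or.inr (Or.inl ⟨key _ _ h1, key _ _ h2⟩)
  · exact Or.inr (Or.inr ⟨key _ _ h1, key _ _ h2⟩)

theorem sg_frame {e : Pt} {d : ℝ} (he : e ≠ 0) (hd : 0 < d) {s : Bool} {S : Prop}
    (hS : S ↔ s = true) {p q r : ℤ × ℤ} (h : sgz s p q r) :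
    sg S (frame e d p) (frame e d q) (frame e d r) := by
  unfold sgz at h
  refine ⟨fun h1 => ?_, fun h1 => ?_⟩
  · rw [if_pos (hS.1 h1)] at h
    exact cyc_frame he hd h
  · rw [if_neg (fun h2 => h1 (hS.2 h2))] at h
    exact cyc_frame he hd h

theorem sg_frame3 {e : Pt} {d : ℝ} (he : e ≠ 0) (hd : 0 < d) {s : Bool} {S : Prop}
    (hS : S ↔ s = true) {o p q r : ℤ × ℤ} (h : sat3 s o p q r) :
    sg S (frame e d p - frame e d o) (frame e d q - frame e d o)
      (frame e d r - frame e d o) := by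
  rw [← frame_sub, ← frame_sub, ← frame_sub]
  exact sg_frame he hd hS h

theorem tendsto_frame (e : Pt) (p : ℤ × ℤ) :
    Tendsto (fun d => frame e d p) (𝓝[>] 0) (𝓝 ((p.1 : ℝ) • e)) := by
  unfold frame
  have := tendsto_add_smul ((p.1 : ℝ) • e) ((p.2 : ℝ) • J e)
  simpa only [smul_smul] using this

theorem thin_side {e ρ : Pt} (he : det e ρ ≠ 0) {a b : ℤ × ℤ} (hab : 0 < a.1 * b.1)
    (h : 0 < detZ a b) :
    ∀ᶠ d in 𝓝[>] (0 : ℝ), cyc (frame e d a) (frame e d b) ρ := by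
  have he0 : e ≠ 0 := by rintro rfl; exact he (det_zero_left _)
  have hJ := det_J_pos he0
  have hpos : ∀ᶠ t in 𝓝[>] (0 : ℝ), 0 < t := self_mem_nhdsWithin
  have key : ∀ d : ℝ, 0 < d → 0 < det (frame e d a) (frame e d b) := by
    intro d hd
    rw [det_frame]
    have : (0 : ℝ) < (detZ a b : ℝ) := by exact_mod_cast h
    positivity
  have hab' : (0 : ℝ) < (a.1 : ℝ) * (b.1 : ℝ) := by exact_mod_cast hab
  by_cases hb : 0 < (b.1 : ℝ) * det e ρ
  · have h1 : 0 < det ((b.1 : ℝ) • e) ρ := by rw [det_smul_left]; exact hb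
    filter_upwards [hpos, eventually_det_pos (tendsto_frame e b)
      (tendsto_const_nhds (x := ρ)) h1] with d hd h2
    exact Or.inl ⟨key d hd, h2⟩
  · have hb0 : (b.1 : ℝ) ≠ 0 := by
      intro h0; rw [h0] at hab'; simp at hab'
    have hb1 : (b.1 : ℝ) * det e ρ < 0 :=
      lt_of_le_of_ne (not_lt.1 hb) (mul_ne_zero hb0 he)
    have ha1 : (a.1 : ℝ) * det e ρ < 0 := by
      by_contra hn
      have h3 : 0 ≤ ((a.1 : ℝ) * (b.1 : ℝ)) * ((a.1 : ℝ) * det e ρ) :=
        mul_nonneg hab'.le (not_lt.1 hn)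
      have h4 : ((a.1 : ℝ) * (b.1 : ℝ)) * ((a.1 : ℝ) * det e ρ)
          = ((a.1 : ℝ) * (a.1 : ℝ)) * ((b.1 : ℝ) * det e ρ) := by ring
      have ha0 : (a.1 : ℝ) ≠ 0 := by
        intro h0; rw [h0] at hab'; simp at hab'
      have h5 : 0 < (a.1 : ℝ) * (a.1 : ℝ) := mul_self_pos.2 ha0
      rw [h4] at h3
      have := mul_neg_of_pos_of_neg h5 hb1
      linarith
    have h1 : 0 < det ρ ((a.1 : ℝ) • e) := by
      rw [det_smul_right, det_swap]; linarith
    filter_upwards [hpos, eventually_det_pos (tendsto_const_nhds (x := ρ))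
      (tendsto_frame e a) h1] with d hd h2
    exact Or.inr (Or.inr ⟨h2, key d hd⟩)

theorem thin_mid {e ρ : Pt} (he : 0 < det e ρ) {a b : ℤ × ℤ} (ha : a.1 < 0) (hb : 0 < b.1) :
    ∀ᶠ d in 𝓝[>] (0 : ℝ), cyc (frame e d a) (frame e d b) ρ := by
  have h1 : 0 < det ((b.1 : ℝ) • e) ρ := by
    rw [det_smul_left]
    have : (0 : ℝ) < (b.1 : ℝ) := by exact_mod_cast hb
    positivity
  have h2 : 0 < det ρ ((a.1 : ℝ) • e) := by
    rw [det_smul_right, det_swap]
    have : (a.1 : ℝ) < 0 := by exact_mod_cast ha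
    nlinarith
  filter_upwards [eventually_det_pos (tendsto_frame e b) (tendsto_const_nhds (x := ρ)) h1,
    eventually_det_pos (tendsto_const_nhds (x := ρ)) (tendsto_frame e a) h2] with d h3 h4
  exact Or.inr (Or.inl ⟨h3, h4⟩)

theorem detZ_swap (u v : ℤ × ℤ) : detZ v u = - detZ u v := by unfold detZ; ring

theorem sg_side2 {e ρ : Pt} (he : det e ρ ≠ 0) {s : Bool} {S : Prop} (hS : S ↔ s = true)
    {q a b : ℤ × ℤ} (h : side2 s q a b) :
    ∀ᶠ d in 𝓝[>] (0 : ℝ), sg S (frame e d a - frame e d q) (frame e d b - frame e d q) ρ := by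
  obtain ⟨h1, h2⟩ := h
  unfold posz at h2
  by_cases hs : S
  · rw [if_pos (hS.1 hs)] at h2
    filter_upwards [thin_side (a := a - q) (b := b - q) he h1 h2] with d hd
    rw [frame_sub, frame_sub] at hd
    exact ⟨fun _ => hd, fun h => absurd hs h⟩
  · rw [if_neg (fun h3 => hs (hS.2 h3))] at h2
    have h3 : 0 < (b - q).1 * (a - q).1 := by
      rw [mul_comm]; exact h1
    filter_upwards [thin_side (a := b - q) (b := a - q) he h3
      (by rw [detZ_swap]; linarith)] with d hd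
    rw [frame_sub, frame_sub] at hd
    exact ⟨fun h => absurd h hs, fun _ => hd⟩

theorem sg_thin2 {e ρ : Pt} (he : 0 < det e ρ) {s : Bool} {S : Prop} (hS : S ↔ s = true)
    {q a b : ℤ × ℤ} (h : thin2 s q a b) :
    ∀ᶠ d in 𝓝[>] (0 : ℝ), sg S (frame e d a - frame e d q) (frame e d b - frame e d q) ρ := by
  rcases h with h | h
  · exact sg_side2 he.ne' hS h
  · by_cases hs : S
    · rw [if_pos (hS.1 hs)] at h
      filter_upwards [thin_mid (a := a - q) (b := b - q) he (by simp; omega)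
        (by simp; omega)] with d hd
      rw [frame_sub, frame_sub] at hd
      exact ⟨fun _ => hd, fun h => absurd hs h⟩
    · rw [if_neg (fun h3 => hs (hS.2 h3))] at h
      filter_upwards [thin_mid (a := b - q) (b := a - q) he (by simp; omega)
        (by simp; omega)] with d hd
      rw [frame_sub, frame_sub] at hd
      exact ⟨fun h => absurd h hs, fun _ => hd⟩

theorem frame_one_zero (e : Pt) : frame e 1 (1, 0) = e := by
  unfold frame; simp

end Pool.Agent.Lib.MP_8b4fe7_lc
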