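import Pool.Agent.Lib.MP_8b4fe7_lc.Clusters

/-!
# The step for a complete bipartite graph with parts of sizes two and three
-/

namespace Pool.Agent.Lib.MP_8b4fe7_lc

open Filter Topology

universe u

variable {V : Type u} {G : SimpleGraph V} {R : V → V → V → V → Prop}

theorem eventually_pair {u p q : Pt} (h : 0 < det u (q - p)) :
    ∀ᶠ t in 𝓝[>] (0 : ℝ), 0 < det (u + t • p) (u + t • q) := by
  have hpos : ∀ᶠ t in 𝓝[>] (0 : ℝ), 0 < t := self_mem_nhdsWithin
  have l : Tendsto (fun t : ℝ => det u (q - p) + t * det p q) (𝓝[>] 0) (𝓝 (det u (q - p))) := by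
    have : Tendsto (fun t : ℝ => det u (q - p) + t * det p q) (𝓝 0)
        (𝓝 (det u (q - p) + 0 * det p q)) :=
      tendsto_const_nhds.add (tendsto_id.mul_const _)
    rw [zero_mul, add_zero] at this
    exact this.mono_left nhdsWithin_le_nhds
  filter_upwards [hpos, l.eventually (lt_mem_nhds h)] with t ht h1
  have : det (u + t • p) (u + t • q) = t * (det u (q - p) + t * det p q) := by
    simp only [det_add_left, det_add_right, det_smul_left, det_smul_right, det_self,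
      det_sub_right]
    rw [det_swap u p]; ring
  rw [this]
  exact mul_pos ht h1

open Classical in
/-- A pending vertex with two neighbours in the collapsed set. -/
theorem pend_two (hR : IsRot G R) {Z : Set V} {h g : V → Pt} {ζ : Pt} {z a b o : V}
    (hz : z ∉ Z) (ha : a ∈ Z) (hb : b ∈ Z) (ho : o ∉ Z) (hr : R z a b o)
    (h1 : det (ζ - h z) (h o - h z) ≠ 0) (h2 : 0 < det (ζ - h z) (g b - g a)) :
    ∀ᶠ t in 𝓝[>] (0 : ℝ), Sat R (fun x => if x ∈ Z then ζ + t • g x else h x) z := by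
  have key : ∀ t : ℝ, ∀ x, ζ + t • g x - h z = (ζ - h z) + t • g x := fun t x => by abel
  have E1 := eventually_pair h2
  rcases lt_or_gt_of_ne h1 with h1 | h1
  · have h3 : 0 < det (h o - h z) (ζ - h z) := by rw [det_swap]; linarith
    have E2 := eventually_det_pos (tendsto_const_nhds (x := h o - h z) (f := 𝓝[>] (0 : ℝ)))
      (tendsto_add_smul (ζ - h z) (g a)) h3
    filter_upwards [E1, E2] with t e1 e2
    refine satD_of_cyc hR hr ?_
    simp only [if_pos ha, if_pos hb, if_neg ho, if_neg hz, key]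
    exact Or.inr (Or.inr ⟨e2, e1⟩)
  · have E2 := eventually_det_pos (tendsto_add_smul (ζ - h z) (g b))
      (tendsto_const_nhds (x := h o - h z) (f := 𝓝[>] (0 : ℝ))) h1
    filter_upwards [E1, E2] with t e1 e2
    refine satD_of_cyc hR hr ?_
    simp only [if_pos ha, if_pos hb, if_neg ho, if_neg hz, key]
    exact Or.inl ⟨e1, e2⟩

open Classical in
/-- A pending vertex with three neighbours in the collapsed set. -/
theorem pend_three (hR : IsRot G R) {Z : Set V} {h g : V → Pt} {ζ : Pt} {z a b c : V}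
    (hz : z ∉ Z) (ha : a ∈ Z) (hb : b ∈ Z) (hc : c ∈ Z) (hr : R z a b c)
    (h2 : (0 < det (ζ - h z) (g b - g a) ∧ 0 < det (ζ - h z) (g c - g b)) ∨
      (0 < det (ζ - h z) (g c - g b) ∧ 0 < det (ζ - h z) (g a - g c)) ∨
      (0 < det (ζ - h z) (g a - g c) ∧ 0 < det (ζ - h z) (g b - g a))) :
    ∀ᶠ t in 𝓝[>] (0 : ℝ), Sat R (fun x => if x ∈ Z then ζ + t • g x else h x) z := by
  have key : ∀ t : ℝ, ∀ x, ζ + t • g x - h z = (ζ - h z) + t • g x := fun t x => by abel
  rcases h2 with ⟨e1, e2⟩ | ⟨e1, e2⟩ | ⟨e1, e2⟩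
  · filter_upwards [eventually_pair e1, eventually_pair e2] with t f1 f2
    refine satD_of_cyc hR hr ?_
    simp only [if_pos ha, if_pos hb, if_pos hc, if_neg hz, key]
    exact Or.inl ⟨f1, f2⟩
  · filter_upwards [eventually_pair e1, eventually_pair e2] with t f1 f2
    refine satD_of_cyc hR hr ?_
    simp only [if_pos ha, if_pos hb, if_pos hc, if_neg hz, key]
    exact Or.inr (Or.inl ⟨f1, f2⟩)
  · filter_upwards [eventually_pair e1, eventually_pair e2] with t f1 f2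
    refine satD_of_cyc hR hr ?_
    simp only [if_pos ha, if_pos hb, if_pos hc, if_neg hz, key]
    exact Or.inr (Or.inr ⟨f1, f2⟩)

theorem frame_sub_tendsto (e : Pt) (p q : ℤ × ℤ) :
    Tendsto (fun d => frame e d q - frame e d p) (𝓝[>] 0) (𝓝 (((q.1 : ℝ) - p.1) • e)) := by
  have := (tendsto_frame e q).sub (tendsto_frame e p)
  rwa [← sub_smul] at this

/-- The template for the cluster. -/
theorem k23_template (hR : IsRot G R) {a b x1 x2 x3 o1 o2 o3 : V}
    (hab : a ≠ b) (h12 : x1 ≠ x2) (h23 : x2 ≠ x3) (h31 : x3 ≠ x1)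
    (ha1 : G.Adj a x1) (ha2 : G.Adj a x2) (ha3 : G.Adj a x3)
    (hb1 : G.Adj b x1) (hb2 : G.Adj b x2) (hb3 : G.Adj b x3)
    (ho1 : G.Adj x1 o1) (ho2 : G.Adj x2 o2) (ho3 : G.Adj x3 o3)
    {Z : Set V} (mZ : ∀ x, x ∈ Z ↔ x = a ∨ x = b ∨ x = x1 ∨ x = x2 ∨ x = x3)
    (hoZ1 : o1 ∉ Z) (hoZ2 : o2 ∉ Z) (hoZ3 : o3 ∉ Z) :
    ∃ P : ℕ → ℤ × ℤ, (P 2).1 ≠ (P 3).1 ∧ (P 3).1 ≠ (P 4).1 ∧ (P 4).1 ≠ (P 2).1 ∧
      ∀ (h : V → Pt) (ζ e : Pt), det e (h o1 - ζ) ≠ 0 → det e (h o2 - ζ) ≠ 0 →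
        det e (h o3 - ζ) ≠ 0 → ∀ᶠ d in 𝓝[>] (0 : ℝ), ∀ g : V → Pt,
          g a = frame e d (P 0) → g b = frame e d (P 1) → g x1 = frame e d (P 2) →
          g x2 = frame e d (P 3) → g x3 = frame e d (P 4) →
          open Classical in
          ∀ v ∈ Z, SatD R (fun t => if t ∈ Z then g t - g v else h t - ζ) v := by
  classical
  obtain ⟨t0, t1, t2, t3, t4, t5, t6, t7⟩ := kk_table (decide (R a x1 x2 x3))
    (decide (R b x1 x2 x3)) (decide (R x1 a b o1)) (decide (R x2 a b o2)) (decide (R x3 a b o3))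
  set P := look kkTab ((((((decide (R a x1 x2 x3)).toNat * 2 + (decide (R b x1 x2 x3)).toNat) * 2
    + (decide (R x1 a b o1)).toNat) * 2 + (decide (R x2 a b o2)).toNat)) * 2 +
    (decide (R x3 a b o3)).toNat) with hP
  refine ⟨P, t5, t6, t7, ?_⟩
  intro h ζ e e1 e2 e3
  have he0 : e ≠ 0 := by rintro rfl; exact e1 (det_zero_left _)
  have hpos : ∀ᶠ t in 𝓝[>] (0 : ℝ), 0 < t := self_mem_nhdsWithin
  have aZ : a ∈ Z := by rw [mZ]; tauto
  have bZ : b ∈ Z := by rw [mZ]; tauto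
  have x1Z : x1 ∈ Z := by rw [mZ]; tauto
  have x2Z : x2 ∈ Z := by rw [mZ]; tauto
  have x3Z : x3 ∈ Z := by rw [mZ]; tauto
  have ne : ∀ {s t : V}, s ∈ Z → t ∉ Z → s ≠ t := fun hs ht h => ht (h ▸ hs)
  filter_upwards [hpos, sg_side2 e1 (decide_iff' (R x1 a b o1)) t2,
    sg_side2 e2 (decide_iff' (R x2 a b o2)) t3,
    sg_side2 e3 (decide_iff' (R x3 a b o3)) t4] with d hd d2 d3 d4 g ga gb g1 g2 g3
  have d0 := sg_frame3 he0 hd (decide_iff' _) t0
  have d1 := sg_frame3 he0 hd (decide_iff' _) t1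
  intro v hv
  have hv' := (mZ v).1 hv
  rcases hv' with rfl | rfl | rfl | rfl | rfl
  · refine satD_of_sg hR ha1 ha2 ha3 h12 h23 h31 ?_
    simp only [if_pos x1Z, if_pos x2Z, if_pos x3Z, ga, g1, g2, g3]
    exact d0
  · refine satD_of_sg hR hb1 hb2 hb3 h12 h23 h31 ?_
    simp only [if_pos x1Z, if_pos x2Z, if_pos x3Z, gb, g1, g2, g3]
    exact d1
  · refine satD_of_sg hR ha1.symm hb1.symm ho1 hab (ne bZ hoZ1) (ne aZ hoZ1).symm ?_
    simp only [if_pos aZ, if_pos bZ, if_neg hoZ1, ga, gb, g1]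
    exact d2
  · refine satD_of_sg hR ha2.symm hb2.symm ho2 hab (ne bZ hoZ2) (ne aZ hoZ2).symm ?_
    simp only [if_pos aZ, if_pos bZ, if_neg hoZ2, ga, gb, g2]
    exact d3
  · refine satD_of_sg hR ha3.symm hb3.symm ho3 hab (ne bZ hoZ3) (ne aZ hoZ3).symm ?_
    simp only [if_pos aZ, if_pos bZ, if_neg hoZ3, ga, gb, g3]
    exact d4

theorem exists_e {r1 r2 r3 : Pt} (h1 : r1 ≠ 0) (h2 : r2 ≠ 0) (h3 : r3 ≠ 0) :
    ∃ e : Pt, det e r1 ≠ 0 ∧ det e r2 ≠ 0 ∧ det e r3 ≠ 0 := by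
  obtain ⟨d, -, hd⟩ := exists_generic {r1, r2, r3} (Set.toFinite _) (by
    intro f hf
    simp only [Set.mem_insert_iff, Set.mem_singleton_iff] at hf
    rcases hf with rfl | rfl | rfl <;> assumption)
  exact ⟨d, hd r1 (by simp), hd r2 (by simp), hd r3 (by simp)⟩

/-- Three differences with sum zero and a sign: after a change of sign of `k` two of the three
products are positive. -/
theorem two_of_three {A B C k : ℝ} (hA : A ≠ 0) (hB : B ≠ 0) (hC : C ≠ 0) (hs : A + B + C = 0)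
    (hk : k ≠ 0) : ∃ s : ℝ, (s = 1 ∨ s = -1) ∧
      ((0 < A * (s * k) ∧ 0 < B * (s * k)) ∨ (0 < B * (s * k) ∧ 0 < C * (s * k)) ∨
        (0 < C * (s * k) ∧ 0 < A * (s * k))) := by
  rcases lt_or_gt_of_ne hk with hk | hk <;> rcases lt_or_gt_of_ne hA with hA | hA <;>
    rcases lt_or_gt_of_ne hB with hB | hB <;> rcases lt_or_gt_of_ne hC with hC | hC
  · linarith
  · exact ⟨1, Or.inl rfl, Or.inl ⟨by nlinarith, by nlinarith⟩⟩
  · exact ⟨1, Or.inl rfl, Or.inr (Or.inr ⟨by nlinarith, by nlinarith⟩)⟩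
  · exact ⟨-1, Or.inr rfl, Or.inr (Or.inl ⟨by nlinarith, by nlinarith⟩)⟩
  · exact ⟨1, Or.inl rfl, Or.inr (Or.inl ⟨by nlinarith, by nlinarith⟩)⟩
  · exact ⟨-1, Or.inr rfl, Or.inr (Or.inr ⟨by nlinarith, by nlinarith⟩)⟩
  · exact ⟨-1, Or.inr rfl, Or.inl ⟨by nlinarith, by nlinarith⟩⟩
  · linarith
  · linarith
  · exact ⟨-1, Or.inr rfl, Or.inl ⟨by nlinarith, by nlinarith⟩⟩
  · exact ⟨-1, Or.inr rfl, Or.inr (Or.inr ⟨by nlinarith, by nlinarith⟩)⟩
  · exact ⟨1, Or.inl rfl, Or.inr (Or.inl ⟨by nlinarith, by nlinarith⟩)⟩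
  · exact ⟨-1, Or.inr rfl, Or.inr (Or.inl ⟨by nlinarith, by nlinarith⟩)⟩
  · exact ⟨1, Or.inl rfl, Or.inr (Or.inr ⟨by nlinarith, by nlinarith⟩)⟩
  · exact ⟨1, Or.inl rfl, Or.inl ⟨by nlinarith, by nlinarith⟩⟩
  · linarith

/-- The step for the cluster: `a`, `b` are adjacent to all of `x1`, `x2`, `x3`. -/
theorem step_k23 [Finite V] (hR : IsRot G R) {W : Set V} {a b x1 x2 x3 : V}
    (haW : a ∈ W) (hbW : b ∈ W) (hx1 : x1 ∈ W) (hx2 : x2 ∈ W) (hx3 : x3 ∈ W)
    (hab : a ≠ b) (h12 : x1 ≠ x2) (h23 : x2 ≠ x3) (h31 : x3 ≠ x1)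
    (ha1 : G.Adj a x1) (ha2 : G.Adj a x2) (ha3 : G.Adj a x3)
    (hb1 : G.Adj b x1) (hb2 : G.Adj b x2) (hb3 : G.Adj b x3)
    (n12 : ¬ G.Adj x1 x2) (n23 : ¬ G.Adj x2 x3) (n31 : ¬ G.Adj x3 x1)
    (hpend : (∀ z ∈ W, z ≠ a → z ≠ b →
        ¬ (G.Adj z x1 ∧ G.Adj z x2) ∧ ¬ (G.Adj z x2 ∧ G.Adj z x3) ∧ ¬ (G.Adj z x3 ∧ G.Adj z x1))
      ∨ ∃ z ∈ W, z ≠ a ∧ z ≠ b ∧ G.Adj z x1 ∧ G.Adj z x2)
    {h0 : V → Pt} (hD : Dist G W h0) (hN : NoBad G R W h0) (ih : IH G R W) : Ext R W h0 := by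
  classical
  obtain ⟨o1, ho1, ho1a, ho1b⟩ := exists_third hR x1 a b
  obtain ⟨o2, ho2, ho2a, ho2b⟩ := exists_third hR x2 a b
  obtain ⟨o3, ho3, ho3a, ho3b⟩ := exists_third hR x3 a b
  have na : ∀ x, G.Adj a x → x = x1 ∨ x = x2 ∨ x = x3 := fun x hx =>
    nbr_three hR ha1 ha2 ha3 h12 h23 h31 hx
  have nb : ∀ x, G.Adj b x → x = x1 ∨ x = x2 ∨ x = x3 := fun x hx =>
    nbr_three hR hb1 hb2 hb3 h12 h23 h31 hx
  have n1 : ∀ x, G.Adj x1 x → x = a ∨ x = b ∨ x = o1 := fun x hx =>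
    nbr_three hR ha1.symm hb1.symm ho1 hab (Ne.symm ho1b) ho1a hx
  have n2 : ∀ x, G.Adj x2 x → x = a ∨ x = b ∨ x = o2 := fun x hx =>
    nbr_three hR ha2.symm hb2.symm ho2 hab (Ne.symm ho2b) ho2a hx
  have n3 : ∀ x, G.Adj x3 x → x = a ∨ x = b ∨ x = o3 := fun x hx =>
    nbr_three hR ha3.symm hb3.symm ho3 hab (Ne.symm ho3b) ho3a hx
  obtain ⟨Z, mZ⟩ : ∃ Z : Set V, ∀ x, x ∈ Z ↔ x = a ∨ x = b ∨ x = x1 ∨ x = x2 ∨ x = x3 :=
    ⟨{a, b, x1, x2, x3}, fun x => by simp⟩
  have ho1Z : o1 ∉ Z := by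
    rw [mZ]
    rintro (h | h | h | h | h)
    · exact ho1a h
    · exact ho1b h
    · exact ho1.ne h.symm
    · exact n12 (h ▸ ho1)
    · exact n31 (h ▸ ho1).symm
  have ho2Z : o2 ∉ Z := by
    rw [mZ]
    rintro (h | h | h | h | h)
    · exact ho2a h
    · exact ho2b h
    · exact n12 (h ▸ ho2).symm
    · exact ho2.ne h.symm
    · exact n23 (h ▸ ho2)
  have ho3Z : o3 ∉ Z := by
    rw [mZ]
    rintro (h | h | h | h | h)
    · exact ho3a h
    · exact ho3b h
    · exact n31 (h ▸ ho3)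
    · exact n23 (h ▸ ho3).symm
    · exact ho3.ne h.symm
  have hZW : Z ⊆ W := by
    intro x hx
    rcases (mZ x).1 hx with rfl | rfl | rfl | rfl | rfl <;> assumption
  have aZ : a ∈ Z := by rw [mZ]; tauto
  have bZ : b ∈ Z := by rw [mZ]; tauto
  have x1Z : x1 ∈ Z := by rw [mZ]; tauto
  have x2Z : x2 ∈ Z := by rw [mZ]; tauto
  have x3Z : x3 ∈ Z := by rw [mZ]; tauto
  have outer : ∀ x ∈ Z, ∀ t, t ∉ Z → G.Adj x t →
      (x = x1 ∧ t = o1) ∨ (x = x2 ∧ t = o2) ∨ (x = x3 ∧ t = o3) := by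
    intro x hx t ht hxt
    have h1 : ∀ s, s ∈ Z → t ≠ s := fun s hs h => ht (h ▸ hs)
    rcases (mZ x).1 hx with rfl | rfl | rfl | rfl | rfl
    · rcases na t hxt with h | h | h
      · exact absurd h (h1 _ x1Z)
      · exact absurd h (h1 _ x2Z)
      · exact absurd h (h1 _ x3Z)
    · rcases nb t hxt with h | h | h
      · exact absurd h (h1 _ x1Z)
      · exact absurd h (h1 _ x2Z)
      · exact absurd h (h1 _ x3Z)
    · rcases n1 t hxt with h | h | h
      · exact absurd h (h1 _ aZ)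
      · exact absurd h (h1 _ bZ)
      · exact Or.inl ⟨rfl, h⟩
    · rcases n2 t hxt with h | h | h
      · exact absurd h (h1 _ aZ)
      · exact absurd h (h1 _ bZ)
      · exact Or.inr (Or.inl ⟨rfl, h⟩)
    · rcases n3 t hxt with h | h | h
      · exact absurd h (h1 _ aZ)
      · exact absurd h (h1 _ bZ)
      · exact Or.inr (Or.inr ⟨rfl, h⟩)
  obtain ⟨P, P1, P2, P3, htemp⟩ := k23_template hR hab h12 h23 h31 ha1 ha2 ha3 hb1 hb2 hb3
    ho1 ho2 ho3 mZ ho1Z ho2Z ho3Z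
  have hpos : ∀ᶠ t in 𝓝[>] (0 : ℝ), 0 < t := self_mem_nhdsWithin
  have a1 : a ≠ x1 := ha1.ne
  have a2 : a ≠ x2 := ha2.ne
  have a3 : a ≠ x3 := ha3.ne
  have b1 : b ≠ x1 := hb1.ne
  have b2 : b ≠ x2 := hb2.ne
  have b3 : b ≠ x3 := hb3.ne
  -- the positions
  let gg : Pt → ℝ → V → Pt := fun e d x => frame e d
      (if x = a then P 0 else if x = b then P 1 else if x = x1 then P 2 else
        if x = x2 then P 3 else P 4)
  have ga : ∀ e d, gg e d a = frame e d (P 0) := fun e d => by simp [gg]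
  have gb : ∀ e d, gg e d b = frame e d (P 1) := fun e d => by simp [gg, hab.symm]
  have g1 : ∀ e d, gg e d x1 = frame e d (P 2) := fun e d => by simp [gg, a1.symm, b1.symm]
  have g2 : ∀ e d, gg e d x2 = frame e d (P 3) := fun e d => by
    simp [gg, a2.symm, b2.symm, h12.symm]
  have g3 : ∀ e d, gg e d x3 = frame e d (P 4) := fun e d => by
    simp [gg, a3.symm, b3.symm, h31, h23.symm]
  rcases hpend with hpend | ⟨z, hzW, hza, hzb, hz1, hz2⟩
  · -- no pending vertex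
    refine step_cluster hR (Z := Z) (Q := ∅) hZW (Set.empty_subset _)
      (fun v _ h => h) Set.subsingleton_empty hD hN ?_ ?_ ?_ ?_
    · intro h0' hD' hN'
      exact ih _ (sdiff_ssubset' haW (Or.inl aZ)) h0' hD' hN'
    · intro y hy p hp q hq hyp hyq
      have hyZ : y ∉ Z := fun h => hy.2 (Or.inl h)
      have hya : y ≠ a := fun h => hyZ (h ▸ aZ)
      have hyb : y ≠ b := fun h => hyZ (h ▸ bZ)
      obtain ⟨q1, q2, q3⟩ := hpend y hy.1 hya hyb
      rcases outer p hp y hyZ hyp.symm with ⟨hp1, _⟩ | ⟨hp1, _⟩ | ⟨hp1, _⟩ <;>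
        rcases outer q hq y hyZ hyq.symm with ⟨hq1, _⟩ | ⟨hq1, _⟩ | ⟨hq1, _⟩ <;>
        rw [hp1] at hyp <;> rw [hq1] at hyq <;> rw [hp1, hq1] <;> exfalso <;> tauto
    · intro m' c' w' hc' hw' halt hX
      refine count_three hc' hw' (fun v hv => hv.2) halt hX o1 o2 o3 ?_
      rintro x (hx | hx) t ht hxt
      · rcases outer x hx t (fun h => ht (Or.inl h)) hxt with ⟨_, h⟩ | ⟨_, h⟩ | ⟨_, h⟩ <;>
          simp [h]
      · exact absurd hx (Set.notMem_empty _)
    · intro h ζ k1 k2 k3 k4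
      obtain ⟨e, e1, e2, e3⟩ := exists_e (k1 o1 ho1Z) (k1 o2 ho2Z) (k1 o3 ho3Z)
      obtain ⟨d, hd⟩ := (htemp h ζ e e1 e2 e3).exists
      exact ⟨gg e d, hd (gg e d) (ga e d) (gb e d) (g1 e d) (g2 e d) (g3 e d),
        fun z hz => absurd hz (Set.notMem_empty _)⟩
  · -- a pending vertex adjacent to `x1` and `x2`
    have hzZ : z ∉ Z := by
      rw [mZ]
      rintro (h | h | h | h | h)
      · exact hza h
      · exact hzb h
      · exact hz1.ne h
      · exact hz2.ne h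
      · exact n31 (h ▸ hz1)
    have hzo1 : z = o1 := by
      rcases outer x1 x1Z z hzZ hz1.symm with ⟨_, h⟩ | ⟨h, _⟩ | ⟨h, _⟩
      · exact h
      · exact absurd h h12
      · exact absurd h h31.symm
    have hzo2 : z = o2 := by
      rcases outer x2 x2Z z hzZ hz2.symm with ⟨h, _⟩ | ⟨_, h⟩ | ⟨h, _⟩
      · exact absurd h h12.symm
      · exact h
      · exact absurd h h23
    obtain ⟨o, hzo, hox1, hox2⟩ := exists_third hR z x1 x2
    have nz : ∀ x, G.Adj z x → x = x1 ∨ x = x2 ∨ x = o := fun x hx =>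
      nbr_three hR hz1 hz2 hzo h12 (Ne.symm hox2) hox1 hx
    refine step_cluster hR (Z := Z) (Q := {z}) hZW (Set.singleton_subset_iff.2 hzW)
      (fun v hv h => hzZ (Set.mem_singleton_iff.1 h ▸ hv)) Set.subsingleton_singleton hD hN
      ?_ ?_ ?_ ?_
    · intro h0' hD' hN'
      exact ih _ (sdiff_ssubset' haW (Or.inl aZ)) h0' hD' hN'
    · intro y hy p hp q hq hyp hyq
      have hyZ : y ∉ Z := fun h => hy.2 (Or.inl h)
      have hyz : y ≠ z := fun h => hy.2 (Or.inr h)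
      have only : ∀ p ∈ Z, G.Adj y p → p = x3 := by
        intro p hp hyp
        rcases outer p hp y hyZ hyp.symm with ⟨_, h⟩ | ⟨_, h⟩ | ⟨h, _⟩
        · exact absurd (h.trans hzo1.symm) hyz
        · exact absurd (h.trans hzo2.symm) hyz
        · exact h
      rw [only p hp hyp, only q hq hyq]
    · intro m' c' w' hc' hw' halt hX
      refine count_three hc' hw' (fun v hv => hv.2) halt hX o3 o o ?_
      rintro x (hx | hx) t ht hxt
      · rcases outer x hx t (fun h => ht (Or.inl h)) hxt with ⟨_, h⟩ | ⟨_, h⟩ | ⟨_, h⟩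
        · exact absurd (Or.inr (Set.mem_singleton_iff.2 (h.trans hzo1.symm))) ht
        · exact absurd (Or.inr (Set.mem_singleton_iff.2 (h.trans hzo2.symm))) ht
        · exact Or.inl h
      · rw [Set.mem_singleton_iff] at hx
        subst hx
        rcases nz t hxt with h | h | h
        · exact absurd (Or.inl (h ▸ x1Z)) ht
        · exact absurd (Or.inl (h ▸ x2Z)) ht
        · exact Or.inr (Or.inl h)
    · intro h ζ k1 k2 k3 k4
      obtain ⟨e0, e1, e2, e3⟩ := exists_e (k1 o1 ho1Z) (k1 o2 ho2Z) (k1 o3 ho3Z)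
      -- both signs of `e0` are possible
      have hk : det (ζ - h z) e0 ≠ 0 := by
        rw [← hzo1] at e1
        rw [det_swap]
        have : ζ - h z = -(h z - ζ) := by abel
        rw [this, det_neg_right, neg_neg]
        exact e1
      have both : ∀ s : ℝ, (s = 1 ∨ s = -1) → ∀ᶠ d in 𝓝[>] (0 : ℝ), ∀ v ∈ Z,
          SatD R (fun t => if t ∈ Z then gg (s • e0) d t - gg (s • e0) d v else h t - ζ) v := by
        intro s hs
        have hs0 : s ≠ 0 := by rcases hs with rfl | rfl <;> norm_num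
        have := htemp h ζ (s • e0) (by rw [det_smul_left]; exact mul_ne_zero hs0 e1)
          (by rw [det_smul_left]; exact mul_ne_zero hs0 e2)
          (by rw [det_smul_left]; exact mul_ne_zero hs0 e3)
        filter_upwards [this] with d hd
        exact hd (gg (s • e0) d) (ga _ d) (gb _ d) (g1 _ d) (g2 _ d) (g3 _ d)
      have lim : ∀ (s : ℝ) (p q : ℤ × ℤ), 0 < ((q.1 : ℝ) - p.1) * (s * det (ζ - h z) e0) →
          ∀ᶠ d in 𝓝[>] (0 : ℝ), 0 < det (ζ - h z) (frame (s • e0) d q - frame (s • e0) d p) := by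
        intro s p q hpq
        refine eventually_det_pos (tendsto_const_nhds (x := ζ - h z))
          (frame_sub_tendsto (s • e0) p q) ?_
        rw [det_smul_right, det_smul_right]
        exact hpq
      have c1 : ((P 3).1 : ℝ) - (P 2).1 ≠ 0 := by
        rw [sub_ne_zero]; exact_mod_cast P1.symm
      have c2 : ((P 4).1 : ℝ) - (P 3).1 ≠ 0 := by
        rw [sub_ne_zero]; exact_mod_cast P2.symm
      have c3 : ((P 2).1 : ℝ) - (P 4).1 ≠ 0 := by
        rw [sub_ne_zero]; exact_mod_cast P3.symm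
      by_cases hoZ : o ∈ Z
      · -- the third neighbour is `x3`
        have hox3 : o = x3 := by
          rcases outer o hoZ z hzZ hzo.symm with ⟨h, _⟩ | ⟨h, _⟩ | ⟨h, _⟩
          · exact absurd h hox1
          · exact absurd h hox2
          · exact h
        subst hox3
        rcases hR.total hz1 hz2 hzo h12 h23 h31 with hr | hr
        · obtain ⟨s, hs, hs2⟩ := two_of_three c1 c2 c3 (by ring) hk
          have : ∀ᶠ d in 𝓝[>] (0 : ℝ),
              (0 < det (ζ - h z) (gg (s • e0) d x2 - gg (s • e0) d x1) ∧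
                0 < det (ζ - h z) (gg (s • e0) d o - gg (s • e0) d x2)) ∨
              (0 < det (ζ - h z) (gg (s • e0) d o - gg (s • e0) d x2) ∧
                0 < det (ζ - h z) (gg (s • e0) d x1 - gg (s • e0) d o)) ∨
              (0 < det (ζ - h z) (gg (s • e0) d x1 - gg (s • e0) d o) ∧
                0 < det (ζ - h z) (gg (s • e0) d x2 - gg (s • e0) d x1)) := by
            simp only [g1, g2, g3]
            rcases hs2 with ⟨u1, u2⟩ | ⟨u1, u2⟩ | ⟨u1, u2⟩
            · filter_upwards [lim s _ _ u1, lim s _ _ u2] with d v1 v2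
              exact Or.inl ⟨v1, v2⟩
            · filter_upwards [lim s _ _ u1, lim s _ _ u2] with d v1 v2
              exact Or.inr (Or.inl ⟨v1, v2⟩)
            · filter_upwards [lim s _ _ u1, lim s _ _ u2] with d v1 v2
              exact Or.inr (Or.inr ⟨v1, v2⟩)
          obtain ⟨d, hd1, hd2⟩ := ((both s hs).and this).exists
          refine ⟨gg (s • e0) d, hd1, ?_⟩
          intro z' hz'
          rw [Set.mem_singleton_iff] at hz'
          subst hz'
          exact pend_three hR hzZ x1Z x2Z hoZ hr hd2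
        · obtain ⟨s, hs, hs2⟩ := two_of_three (neg_ne_zero.2 c1) (neg_ne_zero.2 c3)
            (neg_ne_zero.2 c2) (by ring) hk
          have : ∀ᶠ d in 𝓝[>] (0 : ℝ),
              (0 < det (ζ - h z) (gg (s • e0) d x1 - gg (s • e0) d x2) ∧
                0 < det (ζ - h z) (gg (s • e0) d o - gg (s • e0) d x1)) ∨
              (0 < det (ζ - h z) (gg (s • e0) d o - gg (s • e0) d x1) ∧
                0 < det (ζ - h z) (gg (s • e0) d x2 - gg (s • e0) d o)) ∨
              (0 < det (ζ - h z) (gg (s • e0) d x2 - gg (s • e0) d o) ∧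
                0 < det (ζ - h z) (gg (s • e0) d x1 - gg (s • e0) d x2)) := by
            simp only [g1, g2, g3]
            simp only [neg_sub] at hs2
            rcases hs2 with ⟨u1, u2⟩ | ⟨u1, u2⟩ | ⟨u1, u2⟩
            · filter_upwards [lim s _ _ u1, lim s _ _ u2] with d v1 v2
              exact Or.inl ⟨v1, v2⟩
            · filter_upwards [lim s _ _ u1, lim s _ _ u2] with d v1 v2
              exact Or.inr (Or.inl ⟨v1, v2⟩)
            · filter_upwards [lim s _ _ u1, lim s _ _ u2] with d v1 v2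
              exact Or.inr (Or.inr ⟨v1, v2⟩)
          obtain ⟨d, hd1, hd2⟩ := ((both s hs).and this).exists
          refine ⟨gg (s • e0) d, hd1, ?_⟩
          intro z' hz'
          rw [Set.mem_singleton_iff] at hz'
          subst hz'
          exact pend_three hR hzZ x2Z x1Z hoZ hr hd2
      · -- the third neighbour is outside
        have hzo' : h z ≠ h o := k3 z hzW hzZ o hoZ hzo.ne'
        have hdet : det (ζ - h z) (h o - h z) ≠ 0 := by
          have h1 : det (h z - ζ) (h o - ζ) ≠ 0 := by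
            rcases k2 z o hzZ hoZ with h2 | h2
            · exact absurd (sub_left_inj.1 h2) hzo'
            · exact h2
          have e1 : ζ - h z = -(h z - ζ) := by abel
          have e2 : h o - h z = (h o - ζ) - (h z - ζ) := by abel
          rw [e1, e2, det_neg_left, det_sub_right, det_self, sub_zero]
          exact neg_ne_zero.2 h1
        have sgn : ∀ A : ℝ, A ≠ 0 → ∃ s : ℝ, (s = 1 ∨ s = -1) ∧
            0 < A * (s * det (ζ - h z) e0) := by
          intro A hA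
          rcases lt_or_gt_of_ne (mul_ne_zero hA hk) with h1 | h1
          · exact ⟨-1, Or.inr rfl, by linarith⟩
          · exact ⟨1, Or.inl rfl, by linarith⟩
        rcases hR.total hz1 hz2 hzo h12 (Ne.symm hox2) hox1 with hr | hr
        · obtain ⟨s, hs, hs2⟩ := sgn _ c1
          obtain ⟨d, hd1, hd2⟩ := ((both s hs).and (lim s _ _ hs2)).exists
          refine ⟨gg (s • e0) d, hd1, ?_⟩
          intro z' hz'
          rw [Set.mem_singleton_iff] at hz'
          subst hz'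
          refine pend_two hR hzZ x1Z x2Z hoZ hr hdet ?_
          rw [g1, g2]; exact hd2
        · obtain ⟨s, hs, hs2⟩ := sgn _ (neg_ne_zero.2 c1)
          rw [neg_sub] at hs2
          obtain ⟨d, hd1, hd2⟩ := ((both s hs).and (lim s _ _ hs2)).exists
          refine ⟨gg (s • e0) d, hd1, ?_⟩
          intro z' hz'
          rw [Set.mem_singleton_iff] at hz'
          subst hz'
          refine pend_two hR hzZ x2Z x1Z hoZ hr hdet ?_
          rw [g1, g2]; exact hd2

end Pool.Agent.Lib.MP_8b4fe7_lc
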