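import Pool.Agent.Lib.MP_8b4fe7_lc.Exc

/-!
# The induction
-/

namespace Pool.Agent.Lib.MP_8b4fe7_lc

open Filter Topology

universe u

variable {V : Type u} {G : SimpleGraph V} {R : V → V → V → V → Prop}

theorem cyc_of_triangle {W : Set V} {a b c : V} (ha : a ∈ W) (hb : b ∈ W) (hc : c ∈ W)
    (hab : G.Adj a b) (hbc : G.Adj b c) (hca : G.Adj c a) : ∃ c', IsCyc G W 0 c' := by
  refine ⟨_, mkCyc 0 (fun i => if i = 0 then a else if i = 1 then b else c) ?_ ?_ ?_ ?_⟩
  · intro i _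
    split_ifs <;> assumption
  · intro i hi
    have : i = 0 ∨ i = 1 := by omega
    rcases this with rfl | rfl
    · exact hab
    · exact hbc
  · exact hca
  · intro i j hi hj h
    have hi' : i = 0 ∨ i = 1 ∨ i = 2 := by omega
    have hj' : j = 0 ∨ j = 1 ∨ j = 2 := by omega
    rcases hi' with rfl | rfl | rfl <;> rcases hj' with rfl | rfl | rfl <;> first
      | rfl
      | exact absurd h hab.ne
      | exact absurd h hab.ne'
      | exact absurd h hbc.ne
      | exact absurd h hbc.ne'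
      | exact absurd h hca.ne
      | exact absurd h hca.ne'

/-- The step when two neighbours on a shortest cycle belong to an outer vertex. -/
theorem step_open [Finite V] (hR : IsRot G R) (hEv : EvR G R) {W : Set V} {m : ℕ} {c : ℕ → V}
    (hc : IsCyc G W m c) (hmin : ∀ m' c', IsCyc G W m' c' → m ≤ m')
    {y : V} (hy : y ∈ W) (hyc : ∀ i, y ≠ c i) {i j : ℕ} (hi : G.Adj y (c i))
    (hj : G.Adj y (c j)) (hij : c i ≠ c j)
    {h0 : V → Pt} (hD : Dist G W h0) (hN : NoBad G R W h0) (ih : IH G R W) : Ext R W h0 := by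
  obtain ⟨d, d1, d2, d3, d4⟩ := cyc_diff hc hij
  have g1 : m + 1 ≤ d := arc_one hc hmin hy hyc d1 d2 hi (d3 ▸ hj)
  have g2 : m + 1 ≤ m + 3 - d :=
    arc_one hc hmin hy hyc (by omega) (by omega) hj (d4 ▸ hi)
  have hm : m = 0 ∨ m = 1 := by omega
  rcases hm with rfl | rfl
  · -- triangles
    have key : ∃ l, G.Adj y (c l) ∧ G.Adj y (c (l + 1)) := by
      have : d = 1 ∨ d = 2 := by omega
      rcases this with rfl | rfl
      · exact ⟨i, hi, d3 ▸ hj⟩
      · exact ⟨j, hj, d4 ▸ hi⟩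
    obtain ⟨l, hl, hl'⟩ := key
    have a01 := hc.adj l
    have a12 := hc.adj (l + 1)
    have a20 : G.Adj (c (l + 1 + 1)) (c l) := by
      have h1 := hc.adj (l + 2)
      have h2 : c (l + 2 + 1) = c l := hc.per l
      rwa [h2] at h1
    by_cases hyz : G.Adj y (c (l + 1 + 1))
    · exact step_k4 hR hEv hy (hc.mem l) (hc.mem (l + 1)) (hc.mem (l + 1 + 1)) hl hl' hyz a01
        a20.symm a12 hD hN ih
    · by_cases hex : ∃ t ∈ W, t ≠ c l ∧ t ≠ c (l + 1) ∧ G.Adj y t ∧ G.Adj (c (l + 1 + 1)) t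
      · obtain ⟨t, htW, ht1, ht2, ht3, ht4⟩ := hex
        exact step_diamond' hR hy (hc.mem l) (hc.mem (l + 1)) (hc.mem (l + 1 + 1)) htW
          hl hl' a01 a20 a12.symm (hyc _) ht1 ht2 ht3 ht4 hD hN ih
      · exact step_diamond hR hy (hc.mem l) (hc.mem (l + 1)) (hc.mem (l + 1 + 1))
          hl hl' a01 a20 a12.symm (hyc _) hyz
          (fun t htW ht1 ht2 ht3 ht4 => hex ⟨t, htW, ht1, ht2, ht3, ht4⟩) hD hN ih
  · -- quadrilaterals
    have hd : d = 2 := by omega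
    subst hd
    have hj' : G.Adj y (c (i + 2)) := d3 ▸ hj
    have notri : ∀ a b c, a ∈ W → b ∈ W → c ∈ W → G.Adj a b → G.Adj b c → G.Adj c a → False := by
      intro a b c ha hb hc hab hbc hca
      obtain ⟨c', hc'⟩ := cyc_of_triangle ha hb hc hab hbc hca
      have := hmin 0 c' hc'
      omega
    have a01 := hc.adj i
    have a12 : G.Adj (c (i + 1)) (c (i + 2)) := hc.adj (i + 1)
    have a23 : G.Adj (c (i + 2)) (c (i + 3)) := hc.adj (i + 2)
    have a30 : G.Adj (c (i + 3)) (c i) := by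
      have h1 := hc.adj (i + 3)
      have h2 : c (i + 3 + 1) = c i := hc.per i
      rwa [h2] at h1
    have hcr := hc.rotate i
    have inj : ∀ s t, s < 4 → t < 4 → c (i + s) = c (i + t) → s = t := fun s t hs ht h =>
      hcr.inj s t hs ht h
    have hab : c i ≠ c (i + 2) := fun h => by
      have := inj 0 2 (by omega) (by omega) h; omega
    have h13 : c (i + 1) ≠ c (i + 3) := fun h => by
      have := inj 1 3 (by omega) (by omega) h; omega
    have m0 := hc.mem i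
    have m1 := hc.mem (i + 1)
    have m2 := hc.mem (i + 2)
    have m3 := hc.mem (i + 3)
    have n13 : ¬ G.Adj (c (i + 1)) (c (i + 3)) := fun h => notri _ _ _ m0 m1 m3 a01 h a30
    have n3y : ¬ G.Adj (c (i + 3)) y := fun h => notri _ _ _ m0 m3 hy a30.symm h hi
    have ny1 : ¬ G.Adj y (c (i + 1)) := fun h => notri _ _ _ m0 hy m1 hi.symm h a01.symm
    have y1 : y ≠ c (i + 1) := hyc _
    have y3 : y ≠ c (i + 3) := hyc _
    by_cases e12 : ∃ z ∈ W, z ≠ c i ∧ z ≠ c (i + 2) ∧ G.Adj z (c (i + 1)) ∧ G.Adj z (c (i + 3))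
    · exact step_k23 hR m0 m2 m1 m3 hy hab h13 y3.symm y1 a01 a30.symm hi.symm a12.symm a23
        hj'.symm n13 n3y ny1 (Or.inr e12) hD hN ih
    by_cases e23 : ∃ z ∈ W, z ≠ c i ∧ z ≠ c (i + 2) ∧ G.Adj z (c (i + 3)) ∧ G.Adj z y
    · exact step_k23 hR m0 m2 m3 hy m1 hab y3.symm y1 h13 a30.symm hi.symm a01 a23
        hj'.symm a12.symm n3y ny1 n13 (Or.inr e23) hD hN ih
    by_cases e31 : ∃ z ∈ W, z ≠ c i ∧ z ≠ c (i + 2) ∧ G.Adj z y ∧ G.Adj z (c (i + 1))
    · exact step_k23 hR m0 m2 hy m1 m3 hab y1 h13 y3.symm hi.symm a01 a30.symm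
        hj'.symm a12.symm a23 ny1 n13 n3y (Or.inr e31) hD hN ih
    · refine step_k23 hR m0 m2 m1 m3 hy hab h13 y3.symm y1 a01 a30.symm hi.symm a12.symm a23
        hj'.symm n13 n3y ny1 (Or.inl ?_) hD hN ih
      intro z hzW hza hzb
      exact ⟨fun h => e12 ⟨z, hzW, hza, hzb, h.1, h.2⟩, fun h => e23 ⟨z, hzW, hza, hzb, h.1, h.2⟩,
        fun h => e31 ⟨z, hzW, hza, hzb, h.1, h.2⟩⟩

theorem main_step [Finite V] (hR : IsRot G R) (hEv : EvR G R) (W : Set V) (ih : IH G R W)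
    (h0 : V → Pt) (hD : Dist G W h0) (hN : NoBad G R W h0) : Ext R W h0 := by
  classical
  rcases Set.eq_empty_or_nonempty W with rfl | hne
  · exact ⟨h0, fun v _ => rfl, fun v hv => absurd hv (Set.notMem_empty _)⟩
  by_cases hleaf : ∃ f ∈ W, ∀ a b, a ∈ W → b ∈ W → G.Adj f a → G.Adj f b → a = b
  · obtain ⟨f, hf, hf1⟩ := hleaf
    exact step_leaf hR hf hf1 hD hN
      (fun h0' hD' hN' => ih _ (sdiff_ssubset' hf (Set.mem_singleton f)) h0' hD' hN')
  have h2 : ∀ v ∈ W, ∃ a b, a ≠ b ∧ a ∈ W ∧ b ∈ W ∧ G.Adj v a ∧ G.Adj v b := by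
    intro v hv
    by_contra hn
    refine hleaf ⟨v, hv, fun a b ha hb hva hvb => ?_⟩
    by_contra hab
    exact hn ⟨a, b, hab, ha, hb, hva, hvb⟩
  obtain ⟨m, c, hc, hmin⟩ := exists_min_cyc (exists_cyc hne h2)
  obtain ⟨w, hw⟩ := exists_out hR hc
  have hwc := out_ne hc hmin hw
  by_cases hcl : ∀ y ∈ W, (∀ i, y ≠ c i) → ∀ i j, G.Adj y (c i) → G.Adj y (c j) → c i = c j
  · by_cases hex : ∀ m' c' w', IsCyc G (W \ Set.range c) m' c' → IsOut G m' c' w' →
      (∀ j, Sgn R m' c' w' j ↔ ¬ Sgn R m' c' w' (j + 1)) → (∀ j, w' j ∈ Set.range c) → False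
    · exact step_cycle hR hc hw hwc hcl hex hD hN ih
    · push Not at hex
      obtain ⟨m', c', w', hc', hw', halt, hX, -⟩ := hex
      exact step_exceptional hR hc hmin hw hc' hw' (fun j => by
        have := halt j; tauto) hX hD hN ih
  · push Not at hcl
    obtain ⟨y, hy, hyc, i, j, hi, hj, hij⟩ := hcl
    exact step_open hR hEv hc hmin hy hyc hi hj hij hD hN ih

theorem main_ind [Finite V] (hR : IsRot G R) (hEv : EvR G R) :
    ∀ (n : ℕ) (W : Set V), W.ncard = n → ∀ h0 : V → Pt, Dist G W h0 → NoBad G R W h0 →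
      Ext R W h0 := by
  intro n
  induction n using Nat.strong_induction_on with
  | _ n ih =>
    intro W hW h0 hD hN
    refine main_step hR hEv W ?_ h0 hD hN
    intro W' hW' h0' hD' hN'
    exact ih _ (hW ▸ Set.ncard_lt_ncard hW' (Set.toFinite _)) W' rfl h0' hD' hN'

/-- Positions which satisfy all conditions. -/
theorem exists_sat [Finite V] (hR : IsRot G R) (hEv : EvR G R) :
    ∃ h : V → Pt, ∀ v, Sat R h v := by
  obtain ⟨h, -, hh⟩ := main_ind hR hEv _ Set.univ rfl (fun _ => 0)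
    (fun v _ a b _ _ ha _ _ => absurd (Set.mem_univ _) ha)
    (fun m c w _ _ _ hX _ => hX 0 (Set.mem_univ _))
  exact ⟨h, fun v => hh v (Set.mem_univ _)⟩

end Pool.Agent.Lib.MP_8b4fe7_lc
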