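import Pool.Agent.Lib.MP_8b4fe7_lc.PolyDefs
import Pool.Agent.Lib.MP_8b4fe7_lc.Char
import Pool.Agent.Lib.PolyTime.Decode

/-!
# The realizability problem for cubic graphs is in P
-/

namespace Pool.Agent.Lib.MP_8b4fe7_lc

open N68a2faeb N487b59b3

theorem cubicRealizability_iff (w : List Bool) : cubicRealizability w = true ↔
    ∃ (L : List (List ℕ)) (n : ℕ) (G : SimpleGraph (Fin n)) (π : RotationSystem G),
      w = bitEncode L ∧ Encodes L G π ∧ (∀ v, (G.neighborSet v).ncard = 3) ∧ Realizable π := by
  classical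
  unfold cubicRealizability
  exact decide_eq_true_iff

/-! ### All instances are described by lists, and the list determines the instance -/

theorem Succ.unique {V : Type*} {G : SimpleGraph V} {π : RotationSystem G} {v a b b' : V}
    (h : π.Succ v a b) (h' : π.Succ v a b') : b = b' := by
  obtain ⟨_, rfl⟩ := h
  obtain ⟨_, rfl⟩ := h'
  rfl

/-- Every graph on the vertices `0, 1, …, n - 1` with a rotation system is described by a
list. -/
theorem exists_encodes {n : ℕ} (G : SimpleGraph (Fin n)) (π : RotationSystem G) :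
    ∃ L : List (List ℕ), Encodes L G π := by
  classical
  -- the list of the neighbours of one vertex
  have key : ∀ v : Fin n, ∃ l : List ℕ, l.Nodup ∧ (∀ u, u ∈ l ↔ ∃ h : u < n, G.Adj v ⟨u, h⟩) ∧
      ∀ (a b : Fin n) (k : ℕ), l[k]? = some a.1 → l[(k + 1) % l.length]? = some b.1 →
        π.Succ v a b := by
    intro v
    by_cases hne : Nonempty (G.neighborSet v)
    · obtain ⟨a₀⟩ := hne
      have hcyc := π.isCycleOn v
      have hfin : Fintype (G.neighborSet v) := Fintype.ofFinite _
      obtain ⟨d, hd⟩ : ∃ d, d = Fintype.card (G.neighborSet v) := ⟨_, rfl⟩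
      have hdpos : 0 < d := hd ▸ Fintype.card_pos_iff.mpr ⟨a₀⟩
      have hcyc' : (π.next v).IsCycleOn ((Finset.univ : Finset (G.neighborSet v)) : Set _) := by
        rw [Finset.coe_univ]; exact hcyc
      have hpow : ∀ i j : ℕ, ((π.next v) ^ i) a₀ = ((π.next v) ^ j) a₀ ↔ i ≡ j [MOD d] := by
        intro i j
        have := hcyc'.pow_apply_eq_pow_apply (Finset.mem_univ a₀) (m := i) (n := j)
        rwa [Finset.card_univ, ← hd] at this
      refine ⟨(List.range d).map (fun k => ((((π.next v) ^ k) a₀ : G.neighborSet v) : Fin n).1),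
        ?_, ?_, ?_⟩
      · refine (List.nodup_range).map_on ?_
        intro i hi j hj hij
        rw [List.mem_range] at hi hj
        have h1 : ((π.next v) ^ i) a₀ = ((π.next v) ^ j) a₀ := Subtype.ext (Fin.ext hij)
        rw [hpow] at h1
        have h2 : i % d = j % d := h1
        rwa [Nat.mod_eq_of_lt hi, Nat.mod_eq_of_lt hj] at h2
      · intro u
        rw [List.mem_map]
        constructor
        · rintro ⟨k, _, rfl⟩
          exact ⟨Fin.isLt _, (((π.next v) ^ k) a₀).2⟩
        · rintro ⟨h, hadj⟩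
          obtain ⟨k, hk, hk'⟩ := hcyc'.exists_pow_eq (Finset.mem_univ a₀)
            (Finset.mem_univ (⟨⟨u, h⟩, hadj⟩ : G.neighborSet v))
          rw [Finset.card_univ, ← hd] at hk
          exact ⟨k, List.mem_range.mpr hk, by rw [hk']⟩
      · intro a b k ha hb
        rw [List.length_map, List.length_range] at hb
        rw [List.getElem?_map, Option.map_eq_some_iff] at ha hb
        obtain ⟨i, hi, hia⟩ := ha
        obtain ⟨j, hj, hjb⟩ := hb
        rw [List.getElem?_eq_some_iff] at hi hj
        obtain ⟨hi1, hi2⟩ := hi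
        obtain ⟨hj1, hj2⟩ := hj
        rw [List.getElem_range] at hi2 hj2
        subst hi2
        have ha' : ((((π.next v) ^ k) a₀ : G.neighborSet v) : Fin n) = a := Fin.ext hia
        have hb' : ((((π.next v) ^ j) a₀ : G.neighborSet v) : Fin n) = b := Fin.ext hjb
        have hadj : G.Adj v a := ha' ▸ (((π.next v) ^ k) a₀).2
        refine ⟨hadj, ?_⟩
        have h1 : (⟨a, hadj⟩ : G.neighborSet v) = ((π.next v) ^ k) a₀ := Subtype.ext ha'.symm
        have h2 : ((π.next v) ^ j) a₀ = ((π.next v) ^ (k + 1)) a₀ := by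
          rw [hpow, ← hj2]
          exact Nat.mod_modEq _ _
        rw [h1, ← hb', h2, pow_succ', Equiv.Perm.mul_apply]
    · refine ⟨[], List.nodup_nil, ?_, ?_⟩
      · intro u
        simp only [List.not_mem_nil, false_iff]
        rintro ⟨h, hadj⟩
        exact hne ⟨⟨⟨u, h⟩, hadj⟩⟩
      · intro a b k h
        simp at h
  choose l h1 h2 h3 using key
  have hget : ∀ v : Fin n, (List.ofFn l).getD v [] = l v := by
    intro v
    rw [List.getD_eq_getElem _ _ (by rw [List.length_ofFn]; exact v.2), List.getElem_ofFn]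
  refine ⟨List.ofFn l, List.length_ofFn, ?_, ?_, ?_⟩
  · intro v
    rw [hget]
    exact h1 v
  · intro v
    rw [hget]
    exact h2 v
  · intro v
    rw [hget]
    exact h3 v

/-- A list describes at most one graph with rotation system on the vertices `0, …, n - 1`. -/
theorem Encodes.unique {L : List (List ℕ)} {n : ℕ} {G G' : SimpleGraph (Fin n)}
    {π : RotationSystem G} {π' : RotationSystem G'} (h : Encodes L G π) (h' : Encodes L G' π') :
    G = G' ∧ ∀ v a b, π.Succ v a b ↔ π'.Succ v a b := by
  have hG : G = G' := by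
    ext v u
    have h1 := (h.mem_iff v u).symm.trans (h'.mem_iff v u)
    constructor
    · intro hadj
      exact (h1.mp ⟨u.2, hadj⟩).2
    · intro hadj
      exact (h1.mpr ⟨u.2, hadj⟩).2
  refine ⟨hG, ?_⟩
  subst hG
  have key : ∀ (π π' : RotationSystem G), Encodes L G π → Encodes L G π' → ∀ v a b,
      π.Succ v a b → π'.Succ v a b := by
    intro π π' h h' v a b hs
    have hs' := hs
    obtain ⟨hadj, hb⟩ := hs'
    have hmem : a.1 ∈ L.getD v [] := (h.mem_iff v a).mpr ⟨a.2, hadj⟩
    obtain ⟨k, hk, hk'⟩ := List.getElem_of_mem hmem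
    have hlt : (k + 1) % (L.getD v []).length < (L.getD v []).length :=
      Nat.mod_lt _ (by omega)
    obtain ⟨c, hc⟩ : ∃ c, (L.getD v [])[(k + 1) % (L.getD v []).length]? = some c :=
      ⟨_, List.getElem?_eq_getElem hlt⟩
    have hcmem : c ∈ L.getD v [] := List.mem_of_getElem? hc
    obtain ⟨hcn, -⟩ := (h.mem_iff v c).mp hcmem
    have ha : (L.getD v [])[k]? = some a.1 := by rw [List.getElem?_eq_getElem hk, hk']
    have e1 := h.succ v a ⟨c, hcn⟩ k ha hc
    have e2 := h'.succ v a ⟨c, hcn⟩ k ha hc
    rw [Succ.unique hs e1]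
    exact e2
  intro v a b
  exact ⟨key π π' h h' v a b, key π' π h' h v a b⟩

/-! ### The decision procedure -/

/-- the successor test for a cyclic order of three elements -/
def succB (l : List ℕ) (x y : ℕ) : Bool :=
  (decide (x = l.getD 0 0) && decide (y = l.getD 1 0)) ||
    ((decide (x = l.getD 1 0) && decide (y = l.getD 2 0)) ||
      (decide (x = l.getD 2 0) && decide (y = l.getD 0 0)))

/-- the test whether a list describes a cubic graph with rotation system -/
def validB (L : List (List ℕ)) : Bool :=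
  (List.range L.length).all fun v =>
    (decide ((L.getD v []).length = 3) && !(decide (v ∈ L.getD v []))) &&
      ((L.getD v []).all fun u => decide (v ∈ L.getD u []) &&
        decide (((L.getD v []).filter (fun x => decide (x = u))).length = 1))

/-- the test of the parity condition -/
def evenB (L : List (List ℕ)) : Bool :=
  (List.range L.length).all fun a => (List.range L.length).all fun b =>
    (List.range L.length).all fun c => (List.range L.length).all fun d =>
      !(decide (b ∈ L.getD a []) && (decide (c ∈ L.getD a []) && (decide (d ∈ L.getD a []) &&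
        (decide (c ∈ L.getD b []) && (decide (d ∈ L.getD b []) && decide (d ∈ L.getD c [])))))) ||
      decide (decide (succB (L.getD d []) a b = succB (L.getD a []) b d) =
        decide (succB (L.getD b []) c d = succB (L.getD c []) a d))

section PolyTime

open Pool.Agent.Lib.PolyTime

variable {α : Type} [N487b59b3 α]

attribute [local fun_prop] pt_range

@[local fun_prop]
theorem pt_getD_nil {l : α → List (List ℕ)} {i : α → ℕ} (hl : IsPolyTime l)
    (hi : IsPolyTime i) : IsPolyTime (fun a => (l a).getD (i a) []) := pt_getD [] hl hi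

@[local fun_prop]
theorem pt_getD_const (k : ℕ) {l : α → List ℕ} (hl : IsPolyTime l) :
    IsPolyTime (fun a => (l a).getD k 0) := pt_getD 0 hl (pt_const k)

@[local fun_prop]
theorem pt_succB {l : α → List ℕ} {x y : α → ℕ} (hl : IsPolyTime l) (hx : IsPolyTime x)
    (hy : IsPolyTime y) : IsPolyTime (fun a => succB (l a) (x a) (y a)) := by
  unfold succB
  fun_prop

theorem pt_validB : IsPolyTime validB := by
  unfold validB
  fun_prop

theorem pt_evenB : IsPolyTime evenB := by
  unfold evenB
  fun_prop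

end PolyTime

/-! ### Correctness of the decision procedure -/

/-- the list of a vertex of degree three has length three -/
theorem Encodes.length_eq_ncard {L : List (List ℕ)} {n : ℕ} {G : SimpleGraph (Fin n)}
    {π : RotationSystem G} (h : Encodes L G π) (v : Fin n) :
    (L.getD v []).length = (G.neighborSet v).ncard := by
  have h1 : Fin.val '' (G.neighborSet v) = ((L.getD v []).toFinset : Set ℕ) := by
    ext u
    rw [List.coe_toFinset]
    constructor
    · rintro ⟨w, hw, rfl⟩
      exact (h.mem_iff v w).mpr ⟨w.2, hw⟩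
    · intro hu
      obtain ⟨hn, hadj⟩ := (h.mem_iff v u).mp hu
      exact ⟨⟨u, hn⟩, hadj, rfl⟩
  rw [← Set.ncard_image_of_injective _ Fin.val_injective, h1, Set.ncard_coe_finset,
    List.toFinset_card_of_nodup (h.nodup v)]

theorem Encodes.adj_iff {L : List (List ℕ)} {n : ℕ} {G : SimpleGraph (Fin n)}
    {π : RotationSystem G} (h : Encodes L G π) (v u : Fin n) :
    G.Adj v u ↔ u.1 ∈ L.getD v [] := by
  rw [h.mem_iff]
  exact ⟨fun hadj => ⟨u.2, hadj⟩, fun hh => hh.2⟩

/-- the successor test is correct -/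
theorem Encodes.succ_iff {L : List (List ℕ)} {n : ℕ} {G : SimpleGraph (Fin n)}
    {π : RotationSystem G} (h : Encodes L G π) (hcub : ∀ v, (G.neighborSet v).ncard = 3)
    (v a b : Fin n) : π.Succ v a b ↔ succB (L.getD v []) a b = true := by
  have hlen := (h.length_eq_ncard v).trans (hcub v)
  have hmem := h.mem_iff v
  have hsucc := h.succ v
  obtain ⟨p, q, r, hl⟩ : ∃ p q r, L.getD v [] = [p, q, r] := List.length_eq_three.mp hlen
  rw [hl] at hmem hsucc ⊢
  obtain ⟨hp, -⟩ := (hmem p).mp (by simp)
  obtain ⟨hq, -⟩ := (hmem q).mp (by simp)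
  obtain ⟨hr, -⟩ := (hmem r).mp (by simp)
  have s1 := hsucc ⟨p, hp⟩ ⟨q, hq⟩ 0 rfl rfl
  have s2 := hsucc ⟨q, hq⟩ ⟨r, hr⟩ 1 rfl rfl
  have s3 := hsucc ⟨r, hr⟩ ⟨p, hp⟩ 2 rfl (by simp)
  have hB : succB [p, q, r] a b = true ↔
      (a.1 = p ∧ b.1 = q) ∨ (a.1 = q ∧ b.1 = r) ∨ (a.1 = r ∧ b.1 = p) := by
    simp [succB]
  rw [hB]
  constructor
  · intro hs
    have hs' := hs
    obtain ⟨hadj, -⟩ := hs'
    have ha : a.1 ∈ [p, q, r] := (hmem a).mpr ⟨a.2, hadj⟩
    simp only [List.mem_cons, List.not_mem_nil, or_false] at ha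
    rcases ha with ha | ha | ha
    · left
      refine ⟨ha, ?_⟩
      have : a = ⟨p, hp⟩ := Fin.ext ha
      rw [this] at hs
      rw [Succ.unique hs s1]
    · right; left
      refine ⟨ha, ?_⟩
      have : a = ⟨q, hq⟩ := Fin.ext ha
      rw [this] at hs
      rw [Succ.unique hs s2]
    · right; right
      refine ⟨ha, ?_⟩
      have : a = ⟨r, hr⟩ := Fin.ext ha
      rw [this] at hs
      rw [Succ.unique hs s3]
  · rintro (⟨ha, hb⟩ | ⟨ha, hb⟩ | ⟨ha, hb⟩)
    · have h1 : a = ⟨p, hp⟩ := Fin.ext ha
      have h2 : b = ⟨q, hq⟩ := Fin.ext hb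
      rw [h1, h2]; exact s1
    · have h1 : a = ⟨q, hq⟩ := Fin.ext ha
      have h2 : b = ⟨r, hr⟩ := Fin.ext hb
      rw [h1, h2]; exact s2
    · have h1 : a = ⟨r, hr⟩ := Fin.ext ha
      have h2 : b = ⟨p, hp⟩ := Fin.ext hb
      rw [h1, h2]; exact s3

/-- the test of the parity condition is correct -/
theorem Encodes.evenB_iff {L : List (List ℕ)} {n : ℕ} {G : SimpleGraph (Fin n)}
    {π : RotationSystem G} (h : Encodes L G π) (hcub : ∀ v, (G.neighborSet v).ncard = 3) :
    evenB L = true ↔ EvenK4 π := by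
  have hlen := h.length_eq
  have hbool : ∀ x y z w : Bool, decide (decide (x = y) = decide (z = w)) = true ↔
      (((x = true) ↔ (y = true)) ↔ ((z = true) ↔ (w = true))) := by decide
  unfold evenB
  rw [hlen]
  simp only [List.all_eq_true, List.mem_range, Bool.or_eq_true, Bool.not_eq_true',
    Bool.and_eq_false_imp, decide_eq_true_eq, hbool]
  constructor
  · intro H a b c d hab hac had hbc hbd hcd
    have := H a.1 a.2 b.1 b.2 c.1 c.2 d.1 d.2
    rw [h.adj_iff] at hab hac had hbc hbd hcd
    rw [h.succ_iff hcub, h.succ_iff hcub, h.succ_iff hcub, h.succ_iff hcub]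
    rcases this with h1 | h1
    · have h2 := h1 hab hac had hbc hbd
      rw [decide_eq_false_iff_not] at h2
      exact absurd hcd h2
    · exact h1
  · intro H a ha b hb c hc d hd
    by_cases hall : b ∈ L.getD a [] ∧ c ∈ L.getD a [] ∧ d ∈ L.getD a [] ∧ c ∈ L.getD b [] ∧
        d ∈ L.getD b [] ∧ d ∈ L.getD c []
    · right
      obtain ⟨hab, hac, had, hbc, hbd, hcd⟩ := hall
      have := H ⟨a, ha⟩ ⟨b, hb⟩ ⟨c, hc⟩ ⟨d, hd⟩ ((h.adj_iff _ _).mpr hab)
        ((h.adj_iff _ _).mpr hac) ((h.adj_iff _ _).mpr had) ((h.adj_iff _ _).mpr hbc)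
        ((h.adj_iff _ _).mpr hbd) ((h.adj_iff _ _).mpr hcd)
      rw [h.succ_iff hcub, h.succ_iff hcub, h.succ_iff hcub, h.succ_iff hcub] at this
      exact this
    · left
      intro h1 h2 h3 h4 h5
      rw [decide_eq_false_iff_not]
      intro h6
      exact hall ⟨h1, h2, h3, h4, h5, h6⟩

/-- the validity test as a statement -/
theorem validB_iff (L : List (List ℕ)) : validB L = true ↔ ∀ v < L.length,
    (L.getD v []).length = 3 ∧ v ∉ L.getD v [] ∧ (L.getD v []).Nodup ∧
      ∀ u ∈ L.getD v [], v ∈ L.getD u [] := by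
  unfold validB
  simp only [List.all_eq_true, List.mem_range, Bool.and_eq_true, Bool.not_eq_true',
    decide_eq_true_eq, decide_eq_false_iff_not]
  refine forall₂_congr fun v _ => ?_
  rw [List.nodup_iff_count_eq_one]
  have hcount : ∀ u, ((L.getD v []).filter (fun x => decide (x = u))).length =
      (L.getD v []).count u := by
    intro u
    rw [List.count_eq_length_filter]
    rfl
  simp only [hcount]
  constructor
  · rintro ⟨⟨h1, h2⟩, h3⟩
    exact ⟨h1, h2, fun u hu => (h3 u hu).2, fun u hu => (h3 u hu).1⟩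
  · rintro ⟨h1, h2, h3, h4⟩
    exact ⟨⟨h1, h2⟩, fun u hu => ⟨h4 u hu, h3 u hu⟩⟩

/-- a list describing a cubic graph passes the validity test -/
theorem Encodes.validB {L : List (List ℕ)} {n : ℕ} {G : SimpleGraph (Fin n)}
    {π : RotationSystem G} (h : Encodes L G π) (hcub : ∀ v, (G.neighborSet v).ncard = 3) :
    validB L = true := by
  rw [validB_iff]
  intro v hv
  rw [h.length_eq] at hv
  refine ⟨(h.length_eq_ncard ⟨v, hv⟩).trans (hcub _), ?_, h.nodup ⟨v, hv⟩, ?_⟩
  · intro hmem
    exact G.irrefl ((h.adj_iff ⟨v, hv⟩ ⟨v, hv⟩).mpr hmem)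
  · intro u hu
    obtain ⟨hn, hadj⟩ := (h.mem_iff ⟨v, hv⟩ u).mp hu
    exact (h.adj_iff ⟨u, hn⟩ ⟨v, hv⟩).mp hadj.symm

/-- a list which passes the validity test describes a cubic graph with a rotation system -/
theorem exists_of_validB {L : List (List ℕ)} (hL : validB L = true) :
    ∃ (G : SimpleGraph (Fin L.length)) (π : RotationSystem G), Encodes L G π ∧
      ∀ v, (G.neighborSet v).ncard = 3 := by
  rw [validB_iff] at hL
  have hlt : ∀ v < L.length, ∀ u ∈ L.getD v [], u < L.length := by
    intro v hv u hu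
    by_contra hcon
    have h1 := (hL v hv).2.2.2 u hu
    rw [List.getD_eq_default _ _ (by omega)] at h1
    simp at h1
  let G : SimpleGraph (Fin L.length) :=
    { Adj := fun a b => b.1 ∈ L.getD a []
      symm := ⟨fun a b hab => (hL a a.2).2.2.2 b hab⟩
      loopless := ⟨fun a haa => (hL a a.2).2.1 haa⟩ }
  let lst : ∀ v : Fin L.length, List (Fin L.length) := fun v =>
    (L.getD v []).pmap (fun u h => ⟨u, h⟩) (fun u hu => hlt v v.2 u hu)
  have hlst : ∀ v : Fin L.length, (lst v).map Fin.val = L.getD v [] := by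
    intro v
    simp only [lst, List.map_pmap]
    exact List.pmap_eq_self.mpr (fun _ _ => rfl)
  have hnd : ∀ v : Fin L.length, (lst v).Nodup := by
    intro v
    have := (hL v v.2).2.2.1
    rw [← hlst v] at this
    exact this.of_map
  have hmem : ∀ v u : Fin L.length, u ∈ lst v ↔ G.Adj v u := by
    intro v u
    show u ∈ lst v ↔ u.1 ∈ L.getD v []
    rw [← hlst v, List.mem_map]
    constructor
    · intro h
      exact ⟨u, h, rfl⟩
    · rintro ⟨w, hw, hwu⟩
      rwa [← Fin.ext hwu]
  have hset : ∀ v : Fin L.length, {u | u ∈ lst v} = G.neighborSet v := by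
    intro v
    ext u
    exact hmem v u
  have hcyc : ∀ v : Fin L.length, (lst v).formPerm.IsCycleOn (G.neighborSet v) := by
    intro v
    rw [← hset v]
    exact (hnd v).isCycleOn_formPerm
  let π : RotationSystem G :=
    { next := fun v => (lst v).formPerm.subtypePerm fun _ => (hcyc v).apply_mem_iff
      isCycleOn := fun v => (hcyc v).subtypePerm }
  have henc : Encodes L G π := by
    refine ⟨rfl, fun v => (hL v v.2).2.2.1, ?_, ?_⟩
    · intro v u
      constructor
      · intro hu
        exact ⟨hlt v v.2 u hu, hu⟩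
      · rintro ⟨_, h⟩
        exact h
    · intro v a b k ha hb
      rw [← hlst v, List.getElem?_map, Option.map_eq_some_iff] at ha hb
      obtain ⟨a', ha', haa⟩ := ha
      obtain ⟨b', hb', hbb⟩ := hb
      have haa' : a' = a := Fin.ext haa
      have hbb' : b' = b := Fin.ext hbb
      subst haa' hbb'
      rw [List.length_map] at hb'
      rw [List.getElem?_eq_some_iff] at ha' hb'
      obtain ⟨hk, hk'⟩ := ha'
      obtain ⟨hj, hj'⟩ := hb'
      have hadj : G.Adj v a' := (hmem v a').mp (hk' ▸ List.getElem_mem hk)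
      refine ⟨hadj, ?_⟩
      show (lst v).formPerm a' = b'
      rw [← hk', List.formPerm_apply_getElem _ (hnd v) k hk, ← hj']
  exact ⟨G, π, henc, fun v => (henc.length_eq_ncard v).symm.trans (hL v v.2).1⟩

/-- The realizability problem for rotation systems, restricted to cubic graphs, can be decided in
polynomial time. -/
theorem cubicRealizability_mem_P : cubicRealizability ∈ N68a2faeb.P := by
  have hchar : ∀ (n : ℕ) (G : SimpleGraph (Fin n)) (_ : ∀ v, (G.neighborSet v).ncard = 3)
      (π : RotationSystem G), Realizable π ↔ EvenK4 π := fun n G h π => char h π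
  have hpt : IsPolyTime (fun w : List Bool =>
      (PolyTime.dec (List (List ℕ)) w).any fun L => validB L && evenB L) := by
    have h1 := pt_validB
    have h2 := pt_evenB
    fun_prop
  refine PolyTime.pt_congr hpt fun w => ?_
  rw [Bool.eq_iff_iff]
  rw [cubicRealizability_iff, List.any_eq_true]
  constructor
  · rintro ⟨L, hw, hL⟩
    rw [PolyTime.mem_dec] at hw
    rw [Bool.and_eq_true] at hL
    obtain ⟨G, π, henc, hcub⟩ := exists_of_validB hL.1
    exact ⟨L, L.length, G, π, hw, henc, hcub,
      (hchar _ G hcub π).mpr ((henc.evenB_iff hcub).mp hL.2)⟩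
  · rintro ⟨L, n, G, π, hw, henc, hcub, hreal⟩
    refine ⟨L, PolyTime.mem_dec.mpr hw, ?_⟩
    rw [Bool.and_eq_true]
    exact ⟨henc.validB hcub, (henc.evenB_iff hcub).mpr ((hchar _ G hcub π).mp hreal)⟩

end Pool.Agent.Lib.MP_8b4fe7_lc
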