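import Pool.Agent.Lib.MP_8b4fe7_lc.Defs
import Pool.Prelude.Def_H_3587d628

/-!
# Cubic graphs with a rotation system as inputs, and the decision problem

The inputs are lists of lists of natural numbers: the entry number `v` lists the neighbours of
the vertex `v` in their counterclockwise cyclic order. The decision problem is a language of bit
strings, in the sense of the library of the frozen statements (`N68a2faeb`).
-/

namespace Pool.Agent.Lib.MP_8b4fe7_lc

open N68a2faeb N487b59b3

/-- The list `L` describes the graph `G` on the vertices `0, 1, …, n - 1` with the rotation
system `π`: it has `n` entries, and the entry number `v` lists the neighbours of `v`, each of them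
once, in such an order that each neighbour is followed (cyclically) by its successor. -/
structure Encodes (L : List (List ℕ)) {n : ℕ} (G : SimpleGraph (Fin n)) (π : RotationSystem G) :
    Prop where
  length_eq : L.length = n
  nodup : ∀ v : Fin n, (L.getD v []).Nodup
  mem_iff : ∀ (v : Fin n) (u : ℕ), u ∈ L.getD v [] ↔ ∃ h : u < n, G.Adj v ⟨u, h⟩
  succ : ∀ (v a b : Fin n) (k : ℕ), (L.getD v [])[k]? = some a.1 →
    (L.getD v [])[(k + 1) % (L.getD v []).length]? = some b.1 → π.Succ v a b

open Classical in
/-- The realizability problem for rotation systems by straight-line drawings, restricted to cubic
graphs, as a language of bit strings: a bit string is accepted iff it is the code of a list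
describing a cubic graph with a rotation system which is realized by a straight-line drawing. -/
noncomputable def cubicRealizability : DecisionProblem := fun w =>
  decide (∃ (L : List (List ℕ)) (n : ℕ) (G : SimpleGraph (Fin n)) (π : RotationSystem G),
    w = bitEncode L ∧ Encodes L G π ∧ (∀ v, (G.neighborSet v).ncard = 3) ∧ Realizable π)

end Pool.Agent.Lib.MP_8b4fe7_lc
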