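import Pool.Agent.Lib.MP_8b4fe7_lc.Main
import Pool.Agent.Lib.MP_8b4fe7_lc.Angle

/-!
# Rotation systems of cubic graphs
-/

namespace Pool.Agent.Lib.MP_8b4fe7_lc

open Filter Topology

universe u

variable {V : Type u} {G : SimpleGraph V}

/-- The relation of a rotation system on a cubic graph. -/
def rel (π : RotationSystem G) (v a b c : V) : Prop :=
  π.Succ v a b ∧ π.Succ v b c ∧ π.Succ v c a

theorem succ_inj (π : RotationSystem G) {v a b b' : V} (h : π.Succ v a b) (h' : π.Succ v a b') :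
    b = b' := by
  obtain ⟨h1, h2⟩ := h
  obtain ⟨h3, h4⟩ := h'
  rw [← h2, ← h4]

theorem succ_adj (π : RotationSystem G) {v a b : V} (h : π.Succ v a b) :
    G.Adj v a ∧ G.Adj v b := by
  obtain ⟨h1, h2⟩ := h
  refine ⟨h1, ?_⟩
  rw [← h2]
  exact (π.next v ⟨a, h1⟩).2

/-- The basic facts on a cyclic permutation of three objects. -/
theorem cycle_three {α : Type*} {σ : Equiv.Perm α} (hσ : σ.IsCycleOn Set.univ)
    (hcard : Nat.card α = 3) (a : α) :
    a ≠ σ a ∧ σ a ≠ σ (σ a) ∧ σ (σ a) ≠ a ∧ σ (σ (σ a)) = a ∧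
      ∀ x, x = a ∨ x = σ a ∨ x = σ (σ a) := by
  classical
  have hfin : Finite α := Nat.finite_of_card_ne_zero (by omega)
  have : Fintype α := Fintype.ofFinite α
  have hc : (Finset.univ : Finset α).card = 3 := by
    rw [Finset.card_univ, ← Nat.card_eq_fintype_card, hcard]
  have hσ' : σ.IsCycleOn ((Finset.univ : Finset α) : Set α) := by
    rw [Finset.coe_univ]; exact hσ
  have key : ∀ n, (σ ^ n) a = a ↔ 3 ∣ n := by
    intro n
    have := hσ'.pow_apply_eq (Finset.mem_univ a) (n := n)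
    rwa [hc] at this
  have k1 : σ a ≠ a := by
    intro h
    have := (key 1).1 (by simpa using h)
    omega
  have k2 : σ (σ a) ≠ a := by
    intro h
    have := (key 2).1 (by simpa [pow_succ] using h)
    omega
  have k3 : σ (σ (σ a)) = a := by
    have := (key 3).2 (by omega)
    simpa [pow_succ] using this
  refine ⟨k1.symm, fun h => k1 (σ.injective h).symm, k2, k3, ?_⟩
  intro x
  obtain ⟨n, hn, hx⟩ := hσ'.exists_pow_eq (Finset.mem_univ a) (Finset.mem_univ x)
  rw [hc] at hn
  have : n = 0 ∨ n = 1 ∨ n = 2 := by omega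
  rcases this with rfl | rfl | rfl
  · left; rw [← hx]; simp
  · right; left; rw [← hx]; simp
  · right; right; rw [← hx]; simp [pow_succ]

theorem par_aux (p q r s : Prop) :
    ((s ↔ ¬ p) ↔ (q ↔ ¬ r)) ↔ ((p ↔ q) ↔ (r ↔ s)) := by
  by_cases h1 : p <;> by_cases h2 : q <;> by_cases h3 : r <;> by_cases h4 : s <;>
    simp [h1, h2, h3, h4]

variable (hcub : ∀ v, (G.neighborSet v).ncard = 3)

include hcub

theorem rel_next (π : RotationSystem G) {v a : V} (h : G.Adj v a) :
    rel π v a (π.next v ⟨a, h⟩) (π.next v (π.next v ⟨a, h⟩)) ∧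
      (∀ x, G.Adj v x → x = a ∨ x = (π.next v ⟨a, h⟩ : V) ∨
        x = (π.next v (π.next v ⟨a, h⟩) : V)) ∧
      a ≠ (π.next v ⟨a, h⟩ : V) ∧
      ((π.next v ⟨a, h⟩ : V)) ≠ (π.next v (π.next v ⟨a, h⟩) : V) ∧
      ((π.next v (π.next v ⟨a, h⟩) : V)) ≠ a := by
  obtain ⟨h1, h2, h3, h4, h5⟩ := cycle_three (π.isCycleOn v) (hcub v) ⟨a, h⟩
  refine ⟨⟨⟨h, rfl⟩, ⟨(π.next v ⟨a, h⟩).2, rfl⟩, ⟨(π.next v (π.next v ⟨a, h⟩)).2, ?_⟩⟩, ?_,
    ?_, ?_, ?_⟩
  · exact congrArg Subtype.val h4
  · intro x hx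
    rcases h5 ⟨x, hx⟩ with h | h | h
    · exact Or.inl (congrArg Subtype.val h)
    · exact Or.inr (Or.inl (congrArg Subtype.val h))
    · exact Or.inr (Or.inr (congrArg Subtype.val h))
  · exact fun h => h1 (Subtype.ext h)
  · exact fun h => h2 (Subtype.ext h)
  · exact fun h => h3 (Subtype.ext h)

theorem rel_eq (π : RotationSystem G) {v a b c : V} (h : rel π v a b c) :
    ∃ ha : G.Adj v a, (π.next v ⟨a, ha⟩ : V) = b ∧ (π.next v (π.next v ⟨a, ha⟩) : V) = c := by
  have ha := (succ_adj π h.1).1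
  obtain ⟨h1, -⟩ := rel_next hcub π ha
  have e1 := succ_inj π h1.1 h.1
  refine ⟨ha, e1, ?_⟩
  have h2 := h1.2.1
  rw [e1] at h2
  exact succ_inj π h2 h.2.1

theorem isRot (π : RotationSystem G) : IsRot G (rel π) where
  ex := by
    intro v
    have : (G.neighborSet v).Nonempty := by
      rw [← Set.ncard_pos (Set.finite_of_ncard_ne_zero (by rw [hcub v]; omega)), hcub v]
      omega
    obtain ⟨a, ha⟩ := this
    exact ⟨_, _, _, (rel_next hcub π ha).1⟩
  adj := by
    intro v a b c h x
    obtain ⟨ha, h1, h2⟩ := rel_eq hcub π h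
    obtain ⟨-, h3, -⟩ := rel_next hcub π ha
    constructor
    · intro hx
      rw [h1, h2] at h3
      exact h3 x hx
    · rintro (rfl | rfl | rfl)
      · exact ha
      · exact (succ_adj π h.1).2
      · exact (succ_adj π h.2.1).2
  ne := by
    intro v a b c h
    obtain ⟨ha, h1, h2⟩ := rel_eq hcub π h
    obtain ⟨-, -, h3, h4, h5⟩ := rel_next hcub π ha
    rw [h1] at h3 h4
    rw [h2] at h4 h5
    exact ⟨h3, h4, h5⟩
  rot := by
    intro v a b c h
    exact ⟨h.2.1, h.2.2, h.1⟩
  total := by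
    intro v a b c ha hb hc hab hbc hca
    obtain ⟨h1, h2, h3, h4, h5⟩ := rel_next hcub π ha
    rcases h2 b hb with h | h | h
    · exact absurd h hab.symm
    · rcases h2 c hc with h' | h' | h'
      · exact absurd h' hca
      · exact absurd (h.trans h'.symm) hbc
      · left; rw [h, h']; exact h1
    · rcases h2 c hc with h' | h' | h'
      · exact absurd h' hca
      · right; rw [h, h']; exact ⟨h1.2.2, h1.1, h1.2.1⟩
      · exact absurd (h.trans h'.symm) hbc
  asymm := by
    intro v a b c h h'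
    obtain ⟨ha, h1, h2⟩ := rel_eq hcub π h
    obtain ⟨-, -, h3, h4, h5⟩ := rel_next hcub π ha
    have e : c = a := succ_inj π h.2.1 h'.1
    exact h5 (h2.trans e)

theorem succ_iff (π : RotationSystem G) {v a b c : V} (ha : G.Adj v a) (hb : G.Adj v b)
    (hc : G.Adj v c) (hab : a ≠ b) (hbc : b ≠ c) (hca : c ≠ a) :
    π.Succ v a b ↔ rel π v a b c := by
  constructor
  · intro h
    rcases (isRot hcub π).total ha hb hc hab hbc hca with h1 | h1
    · exact h1
    · exact absurd (succ_inj π h h1.2.1) hbc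
  · intro h; exact h.1

theorem evR_iff (π : RotationSystem G) : EvR G (rel π) ↔ EvenK4 π := by
  have hR := isRot hcub π
  have key : ∀ a b c d : V, G.Adj a b → G.Adj a c → G.Adj a d → G.Adj b c → G.Adj b d →
      G.Adj c d → (((π.Succ d a b ↔ π.Succ a b d) ↔ (π.Succ b c d ↔ π.Succ c a d)) ↔
        ((rel π a b c d ↔ rel π b a c d) ↔ (rel π c a b d ↔ rel π d a b c))) := by
    intro a b c d hab hac had hbc hbd hcd
    have e1 := succ_iff hcub π had.symm hbd.symm hcd.symm hab.ne hbc.ne hac.ne'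
    have e2 := succ_iff hcub π hab had hac hbd.ne hcd.ne' hbc.ne'
    have e3 := succ_iff hcub π hbc hbd hab.symm hcd.ne had.ne' hac.ne
    have e4 := succ_iff hcub π hac.symm hcd hbc.symm had.ne hbd.ne' hab.ne'
    have f2 : rel π a b d c ↔ ¬ rel π a b c d := by
      constructor
      · intro h h'; exact hR.asymm h' (hR.rot (hR.rot h))
      · intro h
        rcases hR.total hab hac had hbc.ne hcd.ne hbd.ne' with h' | h'
        · exact absurd h' h
        · exact hR.rot h'
    have f3 : rel π b c d a ↔ rel π b a c d := by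
      constructor
      · intro h; exact hR.rot (hR.rot h)
      · intro h; exact hR.rot h
    have f4 : rel π c a d b ↔ ¬ rel π c a b d := by
      constructor
      · intro h h'; exact hR.asymm h' (hR.rot (hR.rot h))
      · intro h
        rcases hR.total hac.symm hbc.symm hcd hab.ne hbd.ne had.ne' with h' | h'
        · exact absurd h' h
        · exact hR.rot h'
    rw [e1, e2, e3, e4, f2, f3, f4]
    exact par_aux _ _ _ _
  constructor
  · intro h a b c d hab hac had hbc hbd hcd
    exact (key a b c d hab hac had hbc hbd hcd).2 (h a b c d hab hac had hbc hbd hcd)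
  · intro h a b c d hab hac had hbc hbd hcd
    exact (key a b c d hab hac had hbc hbd hcd).1 (h a b c d hab hac had hbc hbd hcd)

end Pool.Agent.Lib.MP_8b4fe7_lc
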