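import Pool.Agent.Lib.MP_8b4fe7_lc.Frame

/-!
# The induction: extension of drawings
-/

namespace Pool.Agent.Lib.MP_8b4fe7_lc

open Filter Topology

universe u

variable {V : Type u} {G : SimpleGraph V} {R : V → V → V → V → Prop}

/-- No alternating cycle of `W` has all its outer neighbours outside `W` at one point. -/
def NoBad (G : SimpleGraph V) (R : V → V → V → V → Prop) (W : Set V) (h0 : V → Pt) : Prop :=
  ∀ m c w, IsCyc G W m c → IsOut G m c w →
    (∀ j, Sgn R m c w j ↔ ¬ Sgn R m c w (j + 1)) →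
    (∀ j, w j ∉ W) → (∀ j, h0 (w j) = h0 (w 0)) → False

/-- The neighbours outside `W` of a vertex of `W` are at distinct points. -/
def Dist (G : SimpleGraph V) (W : Set V) (h0 : V → Pt) : Prop :=
  ∀ v ∈ W, ∀ a b, G.Adj v a → G.Adj v b → a ∉ W → b ∉ W → a ≠ b → h0 a ≠ h0 b

/-- The positions outside `W` extend to positions which satisfy all conditions in `W`. -/
def Ext (R : V → V → V → V → Prop) (W : Set V) (h0 : V → Pt) : Prop :=
  ∃ h : V → Pt, (∀ v, v ∉ W → h v = h0 v) ∧ ∀ v ∈ W, Sat R h v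

/-- The parity condition at the complete graphs on four vertices. -/
def EvR (G : SimpleGraph V) (R : V → V → V → V → Prop) : Prop :=
  ∀ a b c d, G.Adj a b → G.Adj a c → G.Adj a d → G.Adj b c → G.Adj b d → G.Adj c d →
    ((R a b c d ↔ R b a c d) ↔ (R c a b d ↔ R d a b c))

theorem IsCyc.mono {W W' : Set V} {m : ℕ} {c : ℕ → V} (hc : IsCyc G W m c) (h : W ⊆ W') :
    IsCyc G W' m c :=
  ⟨fun i => h (hc.mem i), hc.adj, hc.per, hc.inj⟩

theorem nbr_three (hR : IsRot G R) {v a b c : V} (ha : G.Adj v a) (hb : G.Adj v b)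
    (hc : G.Adj v c) (hab : a ≠ b) (hbc : b ≠ c) (hca : c ≠ a) {x : V} (hx : G.Adj v x) :
    x = a ∨ x = b ∨ x = c := by
  rcases hR.total ha hb hc hab hbc hca with h | h
  · exact (hR.adj h x).1 hx
  · have := (hR.adj h x).1 hx
    tauto

theorem exists_third (hR : IsRot G R) (v a b : V) : ∃ x, G.Adj v x ∧ x ≠ a ∧ x ≠ b := by
  classical
  obtain ⟨x, y, z, hxyz⟩ := hR.ex v
  have hx := (hR.adj hxyz x).2 (Or.inl rfl)
  have hy := (hR.adj hxyz y).2 (Or.inr (Or.inl rfl))
  have hz := (hR.adj hxyz z).2 (Or.inr (Or.inr rfl))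
  obtain ⟨n1, n2, n3⟩ := hR.ne hxyz
  by_cases hxa : x = a
  · by_cases hyb : y = b
    · exact ⟨z, hz, fun h => n3 (h.trans hxa.symm), fun h => n2 (hyb.trans h.symm)⟩
    · exact ⟨y, hy, fun h => n1 (hxa.trans h.symm), hyb⟩
  · by_cases hxb : x = b
    · by_cases hya : y = a
      · exact ⟨z, hz, fun h => n2 (hya.trans h.symm), fun h => n3 (h.trans hxb.symm)⟩
      · exact ⟨y, hy, hya, fun h => n1 (hxb.trans h.symm)⟩
    · exact ⟨x, hx, hxa, hxb⟩

theorem alt_pos {W : Set V} {m : ℕ} {c w : ℕ → V} (hc : IsCyc G W m c) (hw : IsOut G m c w)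
    (h : ∀ j, Sgn R m c w j ↔ ¬ Sgn R m c w (j + 1)) : 1 ≤ m := by
  by_contra hm
  have : m = 0 := by omega
  subst this
  have h0 := h 0
  have h1 := h 1
  have h2 := h 2
  have h3 := sgn_per (R := R) hc hw 0
  simp only [Nat.zero_add] at h0 h3
  have h4 : Sgn R 0 c w (2 + 1) ↔ Sgn R 0 c w 0 := h3
  have h5 : Sgn R 0 c w (1 + 1) ↔ Sgn R 0 c w 2 := Iff.rfl
  tauto

/-- A set with at most three outer neighbours cannot contain all outer neighbours of an
alternating cycle. -/
theorem count_three {W X : Set V} {m : ℕ} {c w : ℕ → V} (hc : IsCyc G W m c)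
    (hw : IsOut G m c w) (hWX : ∀ v ∈ W, v ∉ X)
    (h : ∀ j, Sgn R m c w j ↔ ¬ Sgn R m c w (j + 1)) (hX : ∀ j, w j ∈ X)
    (b1 b2 b3 : V) (hB : ∀ x ∈ X, ∀ y, y ∉ X → G.Adj x y → y = b1 ∨ y = b2 ∨ y = b3) :
    False := by
  have hm := alt_pos hc hw h
  have key : ∀ j, c j = b1 ∨ c j = b2 ∨ c j = b3 := fun j =>
    hB (w j) (hX j) (c j) (hWX _ (hc.mem j)) (hw.adj j).symm
  have inj : ∀ i j, i < 4 → j < 4 → c i = c j → i = j := fun i j hi hj h =>
    hc.inj i j (by omega) (by omega) h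
  have e01 : c 0 ≠ c 1 := fun h => by have := inj 0 1 (by omega) (by omega) h; omega
  have e02 : c 0 ≠ c 2 := fun h => by have := inj 0 2 (by omega) (by omega) h; omega
  have e03 : c 0 ≠ c 3 := fun h => by have := inj 0 3 (by omega) (by omega) h; omega
  have e12 : c 1 ≠ c 2 := fun h => by have := inj 1 2 (by omega) (by omega) h; omega
  have e13 : c 1 ≠ c 3 := fun h => by have := inj 1 3 (by omega) (by omega) h; omega
  have e23 : c 2 ≠ c 3 := fun h => by have := inj 2 3 (by omega) (by omega) h; omega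
  rcases key 0 with h0 | h0 | h0 <;> rcases key 1 with h1 | h1 | h1 <;>
    rcases key 2 with h2 | h2 | h2 <;> rcases key 3 with h3 | h3 | h3 <;>
    simp_all

/-- Passing to a smaller set. -/
theorem transfer {W X : Set V} {h0 h0' : V → Pt} (hD : Dist G W h0)
    (hN : NoBad G R W h0) (h1 : ∀ v, v ∉ W → h0' v = h0 v)
    (h2 : ∀ v ∈ W \ X, ∀ x ∈ X, G.Adj v x → ∀ y, y ∉ W → h0' x ≠ h0 y)
    (h3 : ∀ v ∈ W \ X, ∀ a ∈ X, ∀ b ∈ X, G.Adj v a → G.Adj v b → a ≠ b → h0' a ≠ h0' b)
    (h4 : ∀ m c w, IsCyc G (W \ X) m c → IsOut G m c w →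
      (∀ j, Sgn R m c w j ↔ ¬ Sgn R m c w (j + 1)) → (∀ j, w j ∈ X) → False) :
    Dist G (W \ X) h0' ∧ NoBad G R (W \ X) h0' := by
  have hcase : ∀ a, a ∉ W \ X → a ∉ W ∨ a ∈ X := by
    intro a ha
    by_contra hn
    push Not at hn
    exact ha ⟨hn.1, hn.2⟩
  constructor
  · intro v hv a b ha hb haW hbW hab
    rcases hcase a haW with ha' | ha' <;> rcases hcase b hbW with hb' | hb'
    · rw [h1 a ha', h1 b hb']; exact hD v hv.1 a b ha hb ha' hb' hab
    · rw [h1 a ha']; exact (h2 v hv b hb' hb a ha').symm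
    · rw [h1 b hb']; exact h2 v hv a ha' ha b hb'
    · exact h3 v hv a ha' b hb' ha hb hab
  · intro m c w hc hw halt hwW heq
    by_cases hall : ∀ j, w j ∉ W
    · refine hN m c w (hc.mono Set.sdiff_subset) hw halt hall ?_
      intro j
      rw [← h1 _ (hall j), ← h1 _ (hall 0)]
      exact heq j
    · push Not at hall
      obtain ⟨j0, hj0⟩ := hall
      have hj0X : w j0 ∈ X := (hcase _ (hwW j0)).resolve_left (not_not.2 hj0)
      refine h4 m c w hc hw halt ?_
      intro j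
      rcases hcase _ (hwW j) with hj | hj
      · exfalso
        refine h2 (c j0) (hc.mem j0) (w j0) hj0X (hw.adj j0) (w j) hj ?_
        rw [heq j0, ← heq j, h1 _ hj]
      · exact hj

/-- A closed set of vertices which can be drawn by itself. -/
theorem step_component (hR : IsRot G R) {W K : Set V} (hKW : K ⊆ W) (hcl : ∀ v ∈ K, ∀ x, G.Adj v x → x ∈ K)
    (g : V → Pt) (hg : ∀ v ∈ K, Sat R g v) {h0 : V → Pt} (hD : Dist G W h0)
    (hN : NoBad G R W h0)
    (ih : ∀ h0', Dist G (W \ K) h0' → NoBad G R (W \ K) h0' → Ext R (W \ K) h0') :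
    Ext R W h0 := by
  classical
  obtain ⟨hD', hN'⟩ := transfer (R := R) (X := K) hD hN (fun v _ => rfl)
    (fun v hv x hx hvx => absurd (hcl x hx v hvx.symm) hv.2)
    (fun v hv a ha b _ hva => absurd (hcl a ha v hva.symm) hv.2)
    (fun m c w hc hw _ hX => (hc.mem 0).2 (hcl _ (hX 0) _ (hw.adj 0).symm))
  obtain ⟨h, hh1, hh2⟩ := ih h0 hD' hN'
  refine ⟨fun v => if v ∈ K then g v else h v, fun v hv => ?_, fun v hv => ?_⟩
  · have hvK : v ∉ K := fun h => hv (hKW h)
    simp only [if_neg hvK]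
    exact hh1 v (fun h => hv h.1)
  · by_cases hvK : v ∈ K
    · refine sat_congr hR (h := g) ?_ ?_ (hg v hvK)
      · simp only [if_pos hvK]
      · intro a ha; simp only [if_pos (hcl v hvK a ha)]
    · refine sat_congr hR (h := h) ?_ ?_ (hh2 v ⟨hv, hvK⟩)
      · simp only [if_neg hvK]
      · intro a ha
        have : a ∉ K := fun h => hvK (hcl a h v ha.symm)
        simp only [if_neg this]

/-- Fresh points. -/
theorem exists_fresh [Finite V] (h : V → Pt) : ∃ p : Pt, ∀ v, h v ≠ p := by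
  have : Infinite Pt := inferInstanceAs (Infinite (ℝ × ℝ))
  obtain ⟨p, hp⟩ := (Set.finite_range h).exists_notMem
  exact ⟨p, fun v hv => hp ⟨v, hv⟩⟩

theorem eventually_ne_line [Finite V] (h : V → Pt) (ζ d : Pt) (hd0 : d ≠ 0) :
    ∀ᶠ t in 𝓝[>] (0 : ℝ), ∀ v, h v ≠ ζ + t • d := by
  have hpos : ∀ᶠ t in 𝓝[>] (0 : ℝ), 0 < t := self_mem_nhdsWithin
  rw [eventually_all]
  intro v
  by_cases hv : h v = ζ
  · filter_upwards [hpos] with t ht h1
    rw [hv] at h1
    have : t • d = 0 := by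
      have := h1.symm
      simpa using this
    rcases smul_eq_zero.1 this with h2 | h2
    · exact ht.ne' h2
    · exact hd0 h2
  · filter_upwards [(tendsto_add_smul ζ d).eventually_ne (Ne.symm hv)] with t ht
    exact ht.symm

/-- Making the points of `A` distinct from all other points. -/
theorem separate [Finite V] (hR : IsRot G R) (A : Set V) (h : V → Pt)
    (hA : ∀ v ∈ A, Sat R h v) :
    ∃ h' : V → Pt, (∀ v, v ∉ A → h' v = h v) ∧ (∀ v ∈ A, Sat R h' v) ∧
      ∀ x ∈ A, ∀ y, y ≠ x → h' x ≠ h' y := by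
  classical
  obtain ⟨n, ⟨e⟩⟩ := Finite.exists_equiv_fin V
  let κ : V → Pt := fun v => if v ∈ A then (((e v : ℕ) : ℝ) + 1, 0) else 0
  have hκ : ∀ x ∈ A, ∀ y, y ≠ x → κ x - κ y ≠ 0 := by
    intro x hx y hyx h
    by_cases hy : y ∈ A
    · simp only [κ, if_pos hx, if_pos hy] at h
      have h1 := congrArg Prod.fst h
      simp only [Prod.fst_sub, Prod.fst_zero] at h1
      have h2 : ((e x : ℕ) : ℝ) = ((e y : ℕ) : ℝ) := by linarith
      have h3 : (e x : ℕ) = (e y : ℕ) := by exact_mod_cast h2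
      exact hyx (e.injective (Fin.ext h3.symm))
    · simp only [κ, if_pos hx, if_neg hy] at h
      have h1 := congrArg Prod.fst h
      simp only [sub_zero, Prod.fst_zero] at h1
      have : (0 : ℝ) ≤ ((e x : ℕ) : ℝ) := Nat.cast_nonneg _
      linarith
  let H : ℝ → V → Pt := fun t v => h v + t • κ v
  have hH : ∀ a, Tendsto (fun t : ℝ => H t a) (𝓝[>] 0) (𝓝 (h a)) := fun a => tendsto_add_smul _ _
  have hpos : ∀ᶠ t in 𝓝[>] (0 : ℝ), 0 < t := self_mem_nhdsWithin
  have E1 : ∀ᶠ t in 𝓝[>] (0 : ℝ), ∀ v, v ∈ A → Sat R (H t) v := by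
    rw [eventually_all]
    intro v
    by_cases hv : v ∈ A
    · filter_upwards [eventually_sat hR hH (hA v hv)] with t ht _
      exact ht
    · filter_upwards with t ht; exact absurd ht hv
  have E2 : ∀ᶠ t in 𝓝[>] (0 : ℝ), ∀ x y, x ∈ A → y ≠ x → H t x ≠ H t y := by
    rw [eventually_all]; intro x
    rw [eventually_all]; intro y
    by_cases hx : x ∈ A
    · by_cases hyx : y = x
      · filter_upwards with t _ h; exact absurd hyx h
      · have h1 := hκ x hx y hyx
        have h2 : ∀ t, H t x - H t y = (h x - h y) + t • (κ x - κ y) := by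
          intro t; simp only [H, smul_sub]; abel
        by_cases h3 : h x - h y = 0
        · filter_upwards [hpos] with t ht _ _ h4
          have h5 := h2 t
          rw [h4, sub_self, h3, zero_add] at h5
          rcases smul_eq_zero.1 h5.symm with h6 | h6
          · exact ht.ne' h6
          · exact h1 h6
        · filter_upwards [(tendsto_add_smul (h x - h y) (κ x - κ y)).eventually_ne h3] with
            t ht _ _ h4
          rw [← h2, h4, sub_self] at ht
          exact ht rfl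
    · filter_upwards with t ht; exact absurd ht hx
  obtain ⟨t, h1, h2⟩ := (E1.and E2).exists
  refine ⟨H t, fun v hv => ?_, h1, fun x hx y hyx => h2 x y hx hyx⟩
  simp only [H, κ, if_neg hv, smul_zero, add_zero]

open Classical in
/-- The general step: collapse `Z` to a point, with at most one pending vertex `Q`. -/
theorem step_cluster [Finite V] (hR : IsRot G R) {W Z Q : Set V} (hZW : Z ⊆ W) (hQW : Q ⊆ W)
    (hZQ : ∀ v ∈ Z, v ∉ Q) (hQ : Q.Subsingleton) {h0 : V → Pt} (hD : Dist G W h0)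
    (hN : NoBad G R W h0)
    (ih : ∀ h0', Dist G (W \ (Z ∪ Q)) h0' → NoBad G R (W \ (Z ∪ Q)) h0' →
      Ext R (W \ (Z ∪ Q)) h0')
    (hcl : ∀ v ∈ W \ (Z ∪ Q), ∀ a ∈ Z, ∀ b ∈ Z, G.Adj v a → G.Adj v b → a = b)
    (hcount : ∀ m c w, IsCyc G (W \ (Z ∪ Q)) m c → IsOut G m c w →
      (∀ j, Sgn R m c w j ↔ ¬ Sgn R m c w (j + 1)) → (∀ j, w j ∈ Z ∪ Q) → False)
    (hgen : ∀ (h : V → Pt) (ζ : Pt), (∀ v, v ∉ Z → h v - ζ ≠ 0) →
      (∀ a b, a ∉ Z → b ∉ Z → EqOrIndep (h a - ζ) (h b - ζ)) →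
      (∀ x ∈ W, x ∉ Z → ∀ y, y ∉ Z → y ≠ x → h x ≠ h y) →
      (∀ v, v ∉ W → h v = h0 v) →
      ∃ g : V → Pt, (∀ v ∈ Z, SatD R (fun a => if a ∈ Z then g a - g v else h a - ζ) v) ∧
        ∀ z ∈ Q, ∀ᶠ t in 𝓝[>] (0 : ℝ),
          Sat R (fun x => if x ∈ Z then ζ + t • g x else h x) z) :
    Ext R W h0 := by
  -- fresh points
  obtain ⟨ζ₀, hζ₀⟩ := exists_fresh h0
  obtain ⟨p, hp⟩ := exists_fresh (fun v => if v ∈ Z then ζ₀ else h0 v)
  let h1 : V → Pt := fun v => if v ∈ Z then ζ₀ else if v ∈ Q then p else h0 v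
  have h1Z : ∀ v ∈ Z, h1 v = ζ₀ := fun v hv => if_pos hv
  have h1Q : ∀ v ∈ Q, h1 v = p := fun v hv => by
    have : v ∉ Z := fun h => hZQ v h hv
    simp only [h1, if_neg this, if_pos hv]
  have h1W : ∀ v, v ∉ W → h1 v = h0 v := fun v hv => by
    have e1 : v ∉ Z := fun h => hv (hZW h)
    have e2 : v ∉ Q := fun h => hv (hQW h)
    simp only [h1, if_neg e1, if_neg e2]
  have hpW : ∀ y, y ∉ W → p ≠ h0 y := fun y hy h => by
    have e1 : y ∉ Z := fun h => hy (hZW h)
    have := hp y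
    simp only [if_neg e1] at this
    exact this h.symm
  obtain ⟨hD', hN'⟩ := transfer (R := R) (X := Z ∪ Q) (h0' := h1)
    hD hN h1W
    (by
      rintro v hv x (hx | hx) hvx y hy
      · rw [h1Z x hx]; exact (hζ₀ y).symm
      · rw [h1Q x hx]; exact hpW y hy)
    (by
      rintro v hv a (ha | ha) b (hb | hb) hva hvb hab
      · exact absurd (hcl v hv a ha b hb hva hvb) hab
      · rw [h1Z a ha, h1Q b hb]
        have := hp a
        simp only [if_pos ha] at this
        exact this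
      · rw [h1Q a ha, h1Z b hb]
        have := hp b
        simp only [if_pos hb] at this
        exact this.symm
      · exact absurd (hQ ha hb) hab)
    hcount
  obtain ⟨h2, h2a, h2b⟩ := ih h1 hD' hN'
  obtain ⟨h3, h3a, h3b, h3c⟩ := separate hR (W \ (Z ∪ Q)) h2 h2b
  have h3Z : ∀ v ∈ Z, h3 v = ζ₀ := fun v hv => by
    have e : v ∉ W \ (Z ∪ Q) := fun h => h.2 (Or.inl hv)
    rw [h3a v e, h2a v e, h1Z v hv]
  have h3Q : ∀ v ∈ Q, h3 v = p := fun v hv => by
    have e : v ∉ W \ (Z ∪ Q) := fun h => h.2 (Or.inr hv)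
    rw [h3a v e, h2a v e, h1Q v hv]
  have h3W : ∀ v, v ∉ W → h3 v = h0 v := fun v hv => by
    have e : v ∉ W \ (Z ∪ Q) := fun h => hv h.1
    rw [h3a v e, h2a v e, h1W v hv]
  obtain ⟨h4, ζ, h4a, h4b, h4c, h4d, h4e⟩ := move hR Z (W \ (Z ∪ Q)) h3 ζ₀ h3Z h3b
  have k1 : ∀ v, v ∉ Z → h4 v - ζ ≠ 0 := fun v hv => by
    rw [h4a v hv]; exact sub_ne_zero.2 (h4d v hv)
  have k2 : ∀ a b, a ∉ Z → b ∉ Z → EqOrIndep (h4 a - ζ) (h4 b - ζ) := by
    intro a b ha hb
    rw [h4a a ha, h4a b hb]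
    by_cases hab : h3 a = h3 b
    · left; rw [hab]
    · right; exact h4e a b ha hb hab
  have k3 : ∀ x ∈ W, x ∉ Z → ∀ y, y ∉ Z → y ≠ x → h4 x ≠ h4 y := by
    intro x hx hxZ y hyZ hyx
    rw [h4a x hxZ, h4a y hyZ]
    by_cases hxQ : x ∈ Q
    · by_cases hyW : y ∈ W
      · have hyQ : y ∉ Q := fun h => hyx (hQ h hxQ)
        exact (h3c y ⟨hyW, by rintro (h | h); exacts [hyZ h, hyQ h]⟩ x hyx.symm).symm
      · rw [h3Q x hxQ, h3W y hyW]; exact hpW y hyW
    · exact h3c x ⟨hx, by rintro (h | h); exacts [hxZ h, hxQ h]⟩ y hyx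
  have k4 : ∀ v, v ∉ W → h4 v = h0 v := fun v hv => by
    rw [h4a v (fun h => hv (hZW h)), h3W v hv]
  obtain ⟨g, hg1, hg2⟩ := hgen h4 ζ k1 k2 k3 k4
  have E1 := expand hR Z (W \ (Z ∪ Q)) h4 g ζ h4b h4c hg1
  have E2 : ∀ᶠ t in 𝓝[>] (0 : ℝ), ∀ z, z ∈ Q →
      Sat R (fun x => if x ∈ Z then ζ + t • g x else h4 x) z := by
    rw [eventually_all]
    intro z
    by_cases hz : z ∈ Q
    · filter_upwards [hg2 z hz] with t ht _
      exact ht
    · filter_upwards with t ht; exact absurd ht hz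
  obtain ⟨t, g1, g2⟩ := (E1.and E2).exists
  refine ⟨fun x => if x ∈ Z then ζ + t • g x else h4 x, fun v hv => ?_, fun v hv => ?_⟩
  rotate_left
  · by_cases hvQ : v ∈ Q
    · exact g2 v hvQ
    · by_cases hvZ : v ∈ Z
      · exact g1 v (Or.inr hvZ)
      · exact g1 v (Or.inl ⟨hv, by rintro (h | h); exacts [hvZ h, hvQ h]⟩)
  · have e1 : v ∉ Z := fun h => hv (hZW h)
    simp only [if_neg e1]
    exact k4 v hv

/-- A vertex with at most one neighbour in `W`. -/
theorem step_leaf [Finite V] (hR : IsRot G R) {W : Set V} {f : V} (hf : f ∈ W)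
    (hf1 : ∀ a b, a ∈ W → b ∈ W → G.Adj f a → G.Adj f b → a = b) {h0 : V → Pt}
    (hD : Dist G W h0) (hN : NoBad G R W h0)
    (ih : ∀ h0', Dist G (W \ {f}) h0' → NoBad G R (W \ {f}) h0' → Ext R (W \ {f}) h0') :
    Ext R W h0 := by
  classical
  have hne : ∀ v, v ∉ W → v ≠ f := by rintro v hv rfl; exact hv hf
  have hcount : ∀ m c w, IsCyc G (W \ {f}) m c → IsOut G m c w →
      (∀ j, Sgn R m c w j ↔ ¬ Sgn R m c w (j + 1)) → (∀ j, w j ∈ ({f} : Set V)) → False := by
    intro m c w hc hw halt hX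
    obtain ⟨a, b, d, habd⟩ := hR.ex f
    refine count_three hc hw (fun v hv => hv.2) halt hX a b d ?_
    rintro x hx y - hxy
    rw [Set.mem_singleton_iff] at hx
    subst hx
    exact (hR.adj habd y).1 hxy
  by_cases hex : ∃ c ∈ W, G.Adj f c
  · obtain ⟨c, hcW, hfc⟩ := hex
    -- the other two neighbours
    obtain ⟨a, b, habc⟩ : ∃ a b, R f a b c := by
      obtain ⟨x, y, z, hxyz⟩ := hR.ex f
      rcases (hR.adj hxyz c).1 hfc with rfl | rfl | rfl
      · exact ⟨y, z, hR.rot hxyz⟩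
      · exact ⟨z, x, hR.rot (hR.rot hxyz)⟩
      · exact ⟨x, y, hxyz⟩
    obtain ⟨nab, nbc, nca⟩ := hR.ne habc
    have hfa := (hR.adj habc a).2 (Or.inl rfl)
    have hfb := (hR.adj habc b).2 (Or.inr (Or.inl rfl))
    have haW : a ∉ W := fun h => nca (hf1 c a hcW h hfc hfa)
    have hbW : b ∉ W := fun h => nbc (hf1 b c h hcW hfb hfc)
    have hab : h0 a ≠ h0 b := hD f hf a b hfa hfb haW hbW nab
    set e := h0 b - h0 a with he
    have he0 : e ≠ 0 := sub_ne_zero.2 hab.symm
    have hpos : ∀ᶠ t in 𝓝[>] (0 : ℝ), 0 < t := self_mem_nhdsWithin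
    obtain ⟨τ, hτ1, hτ2⟩ := ((eventually_ne_line h0 (h0 a) (-e) (neg_ne_zero.2 he0)).and
      hpos).exists
    set P := h0 a + τ • (-e) with hP
    let h1 : V → Pt := fun v => if v = f then P else h0 v
    obtain ⟨hD', hN'⟩ := transfer (R := R) (X := {f}) (h0' := h1)
      hD hN
      (fun v hv => if_neg (hne v hv))
      (by
        intro v hv x hx hvx y hy
        rw [Set.mem_singleton_iff] at hx
        simp only [h1, if_pos hx]
        exact (hτ1 y).symm)
      (by
        intro v hv x hx y hy _ _ hxy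
        rw [Set.mem_singleton_iff] at hx hy
        exact absurd (hx.trans hy.symm) hxy)
      hcount
    obtain ⟨h2, h2a, h2b⟩ := ih h1 hD' hN'
    have h2f : h2 f = P := by
      rw [h2a f (fun h => h.2 rfl)]; exact if_pos rfl
    have h2W : ∀ v, v ∉ W → h2 v = h0 v := fun v hv => by
      rw [h2a v (fun h => hv h.1)]
      exact if_neg (hne v hv)
    have hcf : c ≠ f := hfc.ne'
    -- move `c` off the line
    obtain ⟨h3, ζ, h3a, h3b, h3c, h3d, h3e⟩ := move hR {c} (W \ {f}) h2 (h2 c)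
      (fun v hv => by rw [Set.mem_singleton_iff.1 hv]) h2b
    have hac : a ∉ ({c} : Set V) := fun h => nca (Set.mem_singleton_iff.1 h).symm
    have hbc : b ∉ ({c} : Set V) := fun h => nbc (Set.mem_singleton_iff.1 h)
    have hfc' : f ∉ ({c} : Set V) := fun h => hcf (Set.mem_singleton_iff.1 h).symm
    have hdet := h3e a b hac hbc (by rw [h2W a haW, h2W b hbW]; exact hab)
    rw [h2W a haW, h2W b hbW] at hdet
    have h3aa : h3 a = h0 a := by rw [h3a a hac, h2W a haW]
    have h3bb : h3 b = h0 b := by rw [h3a b hbc, h2W b hbW]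
    have h3ff : h3 f = P := by rw [h3a f hfc', h2f]
    have h3cc : h3 c = ζ := h3b c rfl
    have hw : det e (ζ - P) ≠ 0 := by
      have e1 : h0 b - ζ = (h0 a - ζ) + e := by rw [he]; abel
      rw [e1, det_add_right, det_self, zero_add] at hdet
      have e2 : ζ - P = -(h0 a - ζ) + τ • e := by rw [hP]; simp only [smul_neg]; abel
      rw [e2, det_add_right, det_neg_right, det_smul_right, det_self, mul_zero, add_zero,
        det_swap (h0 a - ζ) e, neg_neg]
      exact hdet
    have E1 := thin_two hw hτ2 (show τ < 1 + τ by linarith)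
    let H : ℝ → V → Pt := fun t v => if v = f then P + t • J e else h3 v
    have hH : ∀ v, Tendsto (fun t : ℝ => H t v) (𝓝[>] 0) (𝓝 (h3 v)) := by
      intro v
      by_cases hv : v = f
      · subst hv; simp only [H, if_true, h3ff]; exact tendsto_add_smul _ _
      · simp only [H, if_neg hv]; exact tendsto_const_nhds
    have E2 : ∀ᶠ t in 𝓝[>] (0 : ℝ), ∀ v, v ∈ W \ {f} → Sat R (H t) v := by
      rw [eventually_all]
      intro v
      by_cases hv : v ∈ W \ {f}
      · filter_upwards [eventually_sat hR hH (h3c v hv)] with t ht _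
        exact ht
      · filter_upwards with t ht; exact absurd ht hv
    obtain ⟨t, g1, g2⟩ := (E1.and E2).exists
    refine ⟨H t, fun v hv => ?_, fun v hv => ?_⟩
    · have e1 : v ≠ f := hne v hv
      have e2 : v ∉ ({c} : Set V) := fun h => hv ((Set.mem_singleton_iff.1 h) ▸ hcW)
      simp only [H, if_neg e1]
      rw [h3a v e2, h2W v hv]
    · by_cases hvf : v = f
      · subst hvf
        refine satD_of_cyc hR habc ?_
        have e1 : a ≠ v := hfa.ne'
        have e2 : b ≠ v := hfb.ne'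
        simp only [H, if_neg e1, if_neg e2, if_neg hcf, if_true, h3aa, h3bb, h3cc]
        have f1 : h0 a - (P + t • J e) = τ • e - t • J e := by
          rw [hP]; simp only [smul_neg]; abel
        have f2 : h0 b - (P + t • J e) = (1 + τ) • e - t • J e := by
          rw [hP, add_smul, one_smul]; simp only [smul_neg]; rw [he]; abel
        have f3 : ζ - (P + t • J e) = ζ - P - t • J e := by abel
        rw [f1, f2, f3]
        exact g1
      · exact g2 v ⟨hv, hvf⟩
  · -- no neighbour in `W`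
    push Not at hex
    obtain ⟨a, b, c, habc⟩ := hR.ex f
    have hfa := (hR.adj habc a).2 (Or.inl rfl)
    have hfb := (hR.adj habc b).2 (Or.inr (Or.inl rfl))
    have hfc := (hR.adj habc c).2 (Or.inr (Or.inr rfl))
    obtain ⟨nab, nbc, nca⟩ := hR.ne habc
    have haW : a ∉ W := fun h => hex a h hfa
    have hbW : b ∉ W := fun h => hex b h hfb
    have hcW : c ∉ W := fun h => hex c h hfc
    obtain ⟨P, hP⟩ := exists_view (hD f hf a b hfa hfb haW hbW nab)
      (hD f hf b c hfb hfc hbW hcW nbc) (hD f hf c a hfc hfa hcW haW nca)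
    let h1 : V → Pt := fun v => if v = f then P else h0 v
    obtain ⟨hD', hN'⟩ := transfer (R := R) (X := {f}) (h0' := h1)
      hD hN
      (fun v hv => if_neg (hne v hv))
      (by
        intro v hv x hx hvx
        rw [Set.mem_singleton_iff] at hx
        subst hx
        exact absurd hvx.symm (hex v hv.1))
      (by
        intro v hv x hx y hy _ _ hxy
        rw [Set.mem_singleton_iff] at hx hy
        exact absurd (hx.trans hy.symm) hxy)
      hcount
    obtain ⟨h2, h2a, h2b⟩ := ih h1 hD' hN'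
    have h2f : h2 f = P := by
      rw [h2a f (fun h => h.2 rfl)]; exact if_pos rfl
    have h2W : ∀ v, v ∉ W → h2 v = h0 v := fun v hv => by
      rw [h2a v (fun h => hv h.1)]
      exact if_neg (hne v hv)
    refine ⟨h2, h2W, fun v hv => ?_⟩
    by_cases hvf : v = f
    · subst hvf
      refine satD_of_cyc hR habc ?_
      simp only [h2W a haW, h2W b hbW, h2W c hcW, h2f]
      exact hP
    · exact h2b v ⟨hv, hvf⟩

end Pool.Agent.Lib.MP_8b4fe7_lc
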