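import Pool.Agent.Lib.MP_8b4fe7_lc.Template

/-!
# Finite tables of small drawings
-/

namespace Pool.Agent.Lib.MP_8b4fe7_lc

/-- Determinant of integer vectors. -/
def detZ (u v : ℤ × ℤ) : ℤ := u.1 * v.2 - u.2 * v.1

/-- Counterclockwise cyclic order of integer vectors. -/
def cz (u v w : ℤ × ℤ) : Prop :=
  (0 < detZ u v ∧ 0 < detZ v w) ∨ (0 < detZ v w ∧ 0 < detZ w u) ∨ (0 < detZ w u ∧ 0 < detZ u v)

instance (u v w : ℤ × ℤ) : Decidable (cz u v w) := by unfold cz; infer_instance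

/-- Cyclic order with a sign. -/
def sgz (s : Bool) (u v w : ℤ × ℤ) : Prop := if s then cz u v w else cz v u w

instance (s : Bool) (u v w : ℤ × ℤ) : Decidable (sgz s u v w) := by unfold sgz; infer_instance

/-- Sign condition at the vertex `q` with neighbours `a, b, c`. -/
def sat3 (s : Bool) (q a b c : ℤ × ℤ) : Prop := sgz s (a - q) (b - q) (c - q)

instance (s : Bool) (q a b c : ℤ × ℤ) : Decidable (sat3 s q a b c) := by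
  unfold sat3; infer_instance

/-- Sign of an integer. -/
def posz (s : Bool) (x : ℤ) : Prop := if s then 0 < x else x < 0

instance (s : Bool) (x : ℤ) : Decidable (posz s x) := by unfold posz; infer_instance

/-- Thin condition at the vertex `q` with neighbours `a, b` on one side. -/
def side2 (s : Bool) (q a b : ℤ × ℤ) : Prop :=
  0 < (a.1 - q.1) * (b.1 - q.1) ∧ posz s (detZ (a - q) (b - q))

instance (s : Bool) (q a b : ℤ × ℤ) : Decidable (side2 s q a b) := by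
  unfold side2; infer_instance

/-- Thin condition at the vertex `q` with neighbours `a, b` and a third direction on the left of
the axis. -/
def thin2 (s : Bool) (q a b : ℤ × ℤ) : Prop :=
  side2 s q a b ∨ (if s then a.1 < q.1 ∧ q.1 < b.1 else b.1 < q.1 ∧ q.1 < a.1)

instance (s : Bool) (q a b : ℤ × ℤ) : Decidable (thin2 s q a b) := by
  unfold thin2; infer_instance

/-- Drawings of the complete graph on four vertices. -/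
def k4Tab : List (List (ℤ × ℤ)) := [
  [(1, 0), (0, -1), (-1, 0), (0, 1)],
  [(0, 0), (0, 0), (0, 0), (0, 0)],
  [(0, 0), (0, 0), (0, 0), (0, 0)],
  [(1, 1), (-1, 0), (1, 0), (0, -1)],
  [(0, 0), (0, 0), (0, 0), (0, 0)],
  [(0, 1), (-1, -1), (1, -1), (0, 0)],
  [(1, -1), (-1, 1), (1, 0), (-1, -1)],
  [(0, 0), (0, 0), (0, 0), (0, 0)],
  [(0, 0), (0, 0), (0, 0), (0, 0)],
  [(-1, -1), (0, 0), (-1, 0), (1, -1)],
  [(-1, 0), (1, 1), (0, -1), (0, 0)],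
  [(0, 0), (0, 0), (0, 0), (0, 0)],
  [(-1, 0), (-1, 1), (1, -1), (1, 0)],
  [(0, 0), (0, 0), (0, 0), (0, 0)],
  [(0, 0), (0, 0), (0, 0), (0, 0)],
  [(0, -1), (0, 1), (-1, 1), (-1, -1)]]

/-- Point `i` of entry `n` of a table. -/
def look (T : List (List (ℤ × ℤ))) (n i : ℕ) : ℤ × ℤ := (T.getD n []).getD i (0, 0)

theorem k4_table : ∀ s0 s1 s2 s3 : Bool, ((s0 ^^ s1) = (s2 ^^ s3)) →
    let n := ((s0.toNat * 2 + s1.toNat) * 2 + s2.toNat) * 2 + s3.toNat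
    let P := look k4Tab n
    sat3 s0 (P 0) (P 1) (P 2) (P 3) ∧ sat3 s1 (P 1) (P 0) (P 2) (P 3) ∧
    sat3 s2 (P 2) (P 0) (P 1) (P 3) ∧ sat3 s3 (P 3) (P 0) (P 1) (P 2) := by
  decide +kernel

/-- Thin drawings of the diamond. -/
def dlTab : List (List (ℤ × ℤ)) := [
  [(-1, -2), (2, 2), (-2, 0), (0, -1)],
  [(-1, 1), (0, 2), (2, 0), (1, -2)],
  [(-1, 0), (2, 2), (2, -1), (1, 0)],
  [(1, -1), (2, -2), (-1, 2), (-2, -1)],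
  [(1, 0), (2, -1), (0, 0), (1, 1)],
  [(-2, 2), (-1, 1), (-1, 0), (0, 0)],
  [(-2, -2), (0, 2), (2, 0), (-2, -1)],
  [(0, -1), (1, 2), (-1, 1), (-2, 0)],
  [(-2, 1), (2, -2), (-1, 2), (1, -2)],
  [(0, 1), (2, 1), (2, 2), (-1, -2)],
  [(-1, 2), (1, 0), (1, 2), (2, -2)],
  [(1, 1), (-2, -2), (2, 0), (-1, -2)],
  [(0, 0), (-1, 2), (2, -2), (-2, 0)],
  [(-1, -2), (-2, 1), (2, -1), (1, 2)],
  [(2, 0), (0, 2), (-2, 1), (-1, -2)],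
  [(-1, -1), (0, 0), (0, 2), (-1, 2)]]

theorem dl_table : ∀ s0 s1 s2 s3 : Bool,
    let n := ((s0.toNat * 2 + s1.toNat) * 2 + s2.toNat) * 2 + s3.toNat
    let P := look dlTab n
    thin2 s0 (P 0) (P 1) (P 2) ∧ sat3 s1 (P 1) (P 0) (P 2) (P 3) ∧
    sat3 s2 (P 2) (P 0) (P 1) (P 3) ∧ thin2 s3 (P 3) (P 1) (P 2) := by
  decide +kernel

/-- Drawings of the diamond with a further vertex adjacent to both ends. -/
def dpTab : List (List (ℤ × ℤ)) := [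
  [(2, -2), (1, -2), (-2, 1), (2, 2), (2, 0)],
  [(-2, 2), (0, -1), (1, 0), (-2, 0), (1, -1)],
  [(2, -1), (0, 1), (-2, -2), (2, 2), (-1, 1)],
  [(0, -1), (-1, 1), (1, 2), (2, 1), (-2, 2)],
  [(1, 0), (2, 2), (-1, 1), (2, -2), (-1, 2)],
  [(1, 2), (0, 1), (1, 0), (-2, -2), (-1, -2)],
  [(0, -2), (2, -2), (-2, 1), (1, 1), (0, -1)],
  [(0, 0), (-2, -1), (2, 0), (1, -2), (0, -1)],
  [(0, 0), (-1, 1), (1, 2), (-1, 2), (2, 1)],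
  [(0, 0), (-1, 1), (1, 2), (0, 2), (-2, -1)],
  [(1, -1), (0, 1), (1, 0), (2, 2), (-1, 1)],
  [(-2, 0), (1, 2), (0, -1), (0, -2), (-1, 2)],
  [(-1, -1), (1, 2), (2, 0), (0, 2), (0, -1)],
  [(2, 0), (0, 2), (1, 2), (-1, 1), (-1, -1)],
  [(0, -2), (2, 1), (1, -2), (-2, -1), (0, -1)],
  [(1, 2), (-2, 1), (0, 0), (2, 0), (-1, 1)],
  [(2, -2), (0, -1), (-1, 1), (2, 2), (-2, 1)],
  [(-2, 2), (1, 1), (-1, 2), (-2, -2), (0, 1)],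
  [(-1, -1), (-2, -2), (-1, 2), (1, 2), (-2, 0)],
  [(1, 2), (1, 1), (-2, -1), (-2, 0), (0, 0)],
  [(1, -2), (2, 1), (1, 1), (1, 2), (-1, 0)],
  [(2, 2), (-2, 2), (0, 1), (1, -2), (1, 1)],
  [(-1, -1), (2, 2), (0, -2), (0, -1), (2, -2)],
  [(0, -1), (0, 0), (-1, -1), (1, -2), (1, -1)],
  [(1, -2), (-2, 0), (1, 2), (-1, 2), (0, 1)],
  [(-1, 1), (0, -1), (-2, -2), (-1, -2), (-1, 0)],
  [(0, 1), (-2, 1), (1, 2), (2, -2), (-1, 2)],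
  [(-1, -1), (-2, 0), (1, -2), (2, 1), (0, 2)],
  [(-2, -1), (-1, -1), (1, 0), (-2, 2), (1, -2)],
  [(-1, 2), (-2, 2), (-2, 1), (2, -1), (-1, 1)],
  [(-1, 2), (1, -2), (-2, 1), (2, 0), (-1, -1)],
  [(1, 0), (1, 1), (-1, 1), (-1, -2), (2, 0)]]

theorem dp_table : ∀ s0 s1 s2 s3 s4 : Bool,
    let n := (((s0.toNat * 2 + s1.toNat) * 2 + s2.toNat) * 2 + s3.toNat) * 2 + s4.toNat
    let P := look dpTab n
    sat3 s0 (P 0) (P 1) (P 2) (P 4) ∧ sat3 s1 (P 1) (P 0) (P 2) (P 3) ∧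
    sat3 s2 (P 2) (P 0) (P 1) (P 3) ∧ sat3 s3 (P 3) (P 1) (P 2) (P 4) ∧
    sgz s4 (P 0 - P 4) (P 3 - P 4) (1, 0) := by
  decide +kernel

/-- Thin drawings of the complete bipartite graph with parts of sizes two and three. -/
def kkTab : List (List (ℤ × ℤ)) := [
  [(-3, 3), (-2, 3), (3, -1), (1, 0), (-1, 0)],
  [(0, 1), (-1, -1), (-3, 0), (-2, 2), (3, 0)],
  [(1, 3), (0, 0), (-1, 0), (2, -3), (-2, -3)],
  [(2, 0), (0, 3), (3, 0), (-1, 0), (-3, 1)],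
  [(3, -2), (1, 0), (-2, 1), (-1, 3), (0, 2)],
  [(1, -2), (1, 3), (-3, 3), (3, -3), (-2, -3)],
  [(1, -1), (1, 2), (-2, 0), (-1, 3), (3, 3)],
  [(3, -1), (3, 0), (2, -3), (0, 0), (1, 2)],
  [(-3, -3), (-3, 3), (-1, 1), (2, 0), (-2, 0)],
  [(0, -2), (0, 3), (1, 1), (3, 3), (-2, 1)],
  [(-1, 3), (-1, -2), (-3, 3), (2, 1), (-2, 1)],
  [(-1, -1), (0, -3), (-3, -1), (3, 3), (1, 0)],
  [(1, -3), (0, 2), (-1, -1), (2, -2), (3, -2)],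
  [(-1, 3), (-1, -2), (0, 0), (-2, 3), (1, 0)],
  [(1, -3), (0, 2), (-3, -2), (-2, -2), (2, -1)],
  [(-3, 3), (-2, -1), (1, -2), (2, 0), (0, 0)],
  [(1, -2), (1, -3), (-3, 0), (0, -2), (-1, 3)],
  [(-2, -3), (-2, 3), (1, 2), (-1, -1), (-3, -1)],
  [(1, 3), (1, -3), (0, -1), (3, -3), (-2, -2)],
  [(1, 0), (1, -3), (-3, -3), (2, -2), (3, -2)],
  [(-1, -3), (-1, 1), (-3, 2), (3, 3), (0, 0)],
  [(1, 3), (1, -2), (3, -1), (-1, 3), (2, -1)],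
  [(1, -3), (2, 1), (0, -2), (-3, 0), (3, 2)],
  [(2, -2), (2, 2), (1, 1), (0, 1), (-2, 3)],
  [(3, 2), (3, 0), (2, -1), (1, 2), (-2, -1)],
  [(-2, 1), (0, 0), (-3, 0), (1, -1), (2, 2)],
  [(1, 2), (0, -1), (-1, -2), (2, 2), (-3, 0)],
  [(-1, -3), (0, 2), (2, 3), (-2, 3), (-3, -1)],
  [(1, 0), (0, -1), (3, -1), (-2, 3), (-1, 0)],
  [(1, -3), (1, -1), (-3, 3), (3, 0), (0, 1)],
  [(1, 2), (-1, 1), (2, 0), (3, 2), (-2, 1)],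
  [(3, -2), (3, -1), (1, 1), (0, 0), (2, 3)]]

theorem kk_table : ∀ s0 s1 s2 s3 s4 : Bool,
    let n := (((s0.toNat * 2 + s1.toNat) * 2 + s2.toNat) * 2 + s3.toNat) * 2 + s4.toNat
    let P := look kkTab n
    sat3 s0 (P 0) (P 2) (P 3) (P 4) ∧ sat3 s1 (P 1) (P 2) (P 3) (P 4) ∧
    side2 s2 (P 2) (P 0) (P 1) ∧ side2 s3 (P 3) (P 0) (P 1) ∧ side2 s4 (P 4) (P 0) (P 1) ∧
    (P 2).1 ≠ (P 3).1 ∧ (P 3).1 ≠ (P 4).1 ∧ (P 4).1 ≠ (P 2).1 := by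
  decide +kernel

/-- Drawings of two four-cycles joined by a perfect matching, type 0. -/
def exTab0 : List (List (ℤ × ℤ)) := [
  [(-3, -3), (-3, -5), (-4, -1), (0, 8), (-7, -4), (3, 0), (-1, -7), (8, -7)],
  [(-7, -9), (3, -2), (-8, 10), (-9, 1), (-8, -10), (-1, -1), (-10, -6), (10, -1)],
  [(-1, -3), (3, 10), (8, 9), (-3, -8), (6, 2), (-6, -7), (-9, 1), (9, 7)],
  [(3, -1), (-1, 1), (2, 2), (-3, 1), (-1, 2), (2, 3), (1, -1), (0, 1)],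
  [(3, 1), (1, -1), (3, 5), (5, 2), (-2, 1), (-4, -3), (4, 0), (1, -1)],
  [(-4, 0), (3, 2), (-3, 0), (-1, -4), (-1, -3), (1, -1), (4, 3), (0, -1)],
  [(-3, 3), (-2, 1), (-5, 0), (-4, 4), (-2, 0), (1, -5), (3, 3), (2, 3)],
  [(-1, 2), (4, 3), (5, 1), (5, 5), (-4, 3), (2, 4), (3, 2), (2, -5)],
  [(2, 3), (2, -1), (1, 2), (-3, -1), (0, -1), (1, -2), (2, 1), (-3, 0)],
  [(-4, 0), (2, -4), (3, -4), (-2, -1), (4, 4), (3, -2), (4, 1), (-1, -3)],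
  [(3, 3), (-3, 1), (2, -3), (1, 2), (-1, 2), (4, -3), (3, -4), (0, 3)],
  [(2, 2), (0, 4), (-1, -5), (-5, 5), (1, -1), (2, 0), (-1, 3), (6, 3)],
  [(-1, 6), (1, -5), (8, 8), (3, 0), (10, 7), (3, 1), (-10, 6), (-6, -5)],
  [(4, -4), (-4, -2), (2, -3), (0, -1), (-5, 2), (-5, 1), (-4, -4), (4, 1)],
  [(5, 2), (-9, 6), (2, 10), (7, 1), (0, 6), (6, -7), (-2, 1), (5, -5)],
  [(0, 3), (-5, 0), (-7, 3), (-7, -7), (0, 7), (-3, -4), (-2, 5), (-6, 6)],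
  [(-1, 0), (1, 0), (3, 1), (-1, 2), (4, 3), (0, -3), (-4, -1), (-3, 3)],
  [(2, 3), (3, -2), (-5, -4), (1, -1), (-5, 5), (-3, 5), (1, 2), (4, -1)],
  [(2, -1), (-3, 2), (-1, -1), (2, -2), (-2, 0), (1, 3), (-2, 1), (-3, -1)],
  [(0, -3), (1, -1), (-2, 1), (3, -2), (-2, -4), (4, 4), (1, 2), (-3, 1)],
  [(2, -1), (1, 0), (-3, -3), (1, 1), (2, 3), (-2, 1), (-2, -1), (-1, -2)],
  [(1, 0), (-8, 5), (3, 6), (1, 1), (-6, -4), (2, 4), (7, 5), (-7, 7)],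
  [(-7, 1), (8, 3), (-8, -8), (2, 5), (0, 2), (1, 1), (-8, -5), (4, 5)],
  [(2, -5), (-4, 2), (2, 5), (1, -2), (2, -2), (-2, 2), (2, -1), (-5, -3)],
  [(3, 3), (0, 1), (2, 1), (3, 1), (1, -1), (2, 0), (-3, 2), (1, -2)],
  [(1, 0), (-5, 5), (1, 4), (-1, 3), (5, 2), (3, 3), (5, -4), (1, -1)],
  [(-2, 1), (-1, 4), (2, -5), (0, -1), (1, -6), (-1, 0), (-4, 4), (1, 4)],
  [(1, -6), (-8, -5), (0, 4), (-5, -3), (1, 3), (-1, 2), (4, -4), (-6, 1)],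
  [(-1, 3), (-4, -6), (-4, -1), (6, 6), (4, 4), (-2, 6), (-3, 4), (5, 0)],
  [(1, -1), (-2, 3), (-2, -2), (2, -1), (0, 0), (-3, 1), (0, 2), (-3, 2)],
  [(3, 2), (2, -3), (0, -3), (-1, 0), (3, -1), (2, -1), (-3, 1), (2, 1)],
  [(0, 5), (-4, -5), (0, 4), (5, -2), (4, -4), (1, -3), (3, 4), (-3, 5)]]

theorem ex_table0 : ∀ p s0 s1 s2 s3 : Bool,
    let n := (((p.toNat * 2 + s0.toNat) * 2 + s1.toNat) * 2 + s2.toNat) * 2 + s3.toNat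
    let P := look exTab0 n
    sat3 p (P 0) (P 3) (P 1) (P 4) ∧
    sat3 (!p) (P 1) (P 0) (P 2) (P 5) ∧
    sat3 p (P 2) (P 1) (P 3) (P 6) ∧
    sat3 (!p) (P 3) (P 2) (P 0) (P 7) ∧
    sat3 s0 (P 4) (P 7) (P 5) (P 0) ∧
    sat3 s1 (P 5) (P 4) (P 6) (P 1) ∧
    sat3 s2 (P 6) (P 5) (P 7) (P 2) ∧
    sat3 s3 (P 7) (P 6) (P 4) (P 3) := by
  decide +kernel

/-- Drawings of two four-cycles joined by a perfect matching, type 1. -/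
def exTab1 : List (List (ℤ × ℤ)) := [
  [(1, -8), (4, 5), (-8, 3), (-1, 4), (4, -8), (1, -5), (-1, -1), (-4, 7)],
  [(1, 3), (1, -2), (3, 0), (-3, -3), (0, 0), (3, 3), (-2, 1), (-3, 2)],
  [(-3, 4), (2, 5), (-2, 0), (5, -2), (5, 4), (4, 0), (4, -3), (-2, 2)],
  [(1, -3), (-1, 0), (-6, 6), (-6, 1), (-3, -6), (1, -5), (3, -3), (-3, 0)],
  [(-1, -7), (0, 5), (1, 6), (-6, 2), (-6, -7), (-3, 2), (-4, -4), (3, 3)],
  [(-3, -3), (1, 1), (2, 4), (-4, -1), (-2, -6), (-5, 1), (0, -5), (2, -5)],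
  [(-3, 1), (2, -3), (-4, 1), (2, 3), (-3, -1), (0, 3), (4, 0), (-2, -4)],
  [(5, -2), (1, 0), (-1, -1), (2, -2), (0, 5), (1, -6), (-4, -5), (2, 6)],
  [(-5, 0), (0, 1), (5, 3), (-5, 5), (-5, -2), (-2, 1), (-5, -3), (3, 2)],
  [(0, 0), (3, -1), (1, -2), (-4, 1), (0, -2), (-2, 1), (-1, 4), (2, 0)],
  [(8, -9), (-7, -4), (5, -5), (-4, -10), (-5, 4), (1, -9), (1, -7), (5, -7)],
  [(0, -3), (-1, 1), (-4, 0), (-5, -7), (7, 7), (-6, -5), (-5, 4), (-2, 3)],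
  [(-7, -10), (7, 6), (10, 6), (-3, -5), (-8, 2), (5, 6), (-6, -6), (8, 1)],
  [(-1, -1), (4, -4), (1, 4), (2, 0), (-4, -4), (2, -1), (6, -2), (1, -2)],
  [(3, 2), (1, 2), (-1, -2), (-2, -4), (-2, 4), (2, -2), (-2, -3), (2, 2)],
  [(-7, -5), (-1, 0), (-2, -1), (5, -3), (8, 1), (5, 7), (-8, 7), (-6, 4)],
  [(0, -1), (-3, -1), (2, -2), (2, 3), (1, -1), (3, 0), (1, 3), (-2, -3)],
  [(9, 9), (2, 2), (-10, -10), (0, 5), (-8, 4), (6, 7), (3, -6), (2, -8)],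
  [(8, 5), (-4, -1), (5, 8), (2, -8), (-2, -4), (7, 6), (-6, 4), (9, 6)],
  [(-6, -2), (1, -5), (0, -4), (5, 3), (7, 1), (-6, -6), (-4, 3), (7, 6)],
  [(7, -5), (-5, -7), (2, -6), (8, 3), (1, -9), (7, 6), (2, -1), (6, -5)],
  [(3, -2), (4, -5), (-5, -5), (2, -1), (4, -4), (3, -3), (1, 4), (2, -4)],
  [(0, 2), (4, -4), (-1, -5), (3, 1), (4, -3), (-5, -2), (3, 5), (-4, 5)],
  [(-5, 0), (-1, -4), (-1, 5), (-1, 6), (-3, -1), (4, 0), (-6, 6), (2, -1)],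
  [(-3, 1), (-4, -5), (-3, -3), (1, 2), (1, -2), (3, -3), (-3, -1), (-1, -5)],
  [(-5, 5), (4, 4), (3, 1), (-4, -3), (-6, -3), (-2, 3), (3, -4), (-1, 5)],
  [(9, -1), (-6, 2), (-4, -3), (-8, 3), (1, -1), (-2, 7), (4, 10), (7, -9)],
  [(-2, 4), (2, 0), (4, -2), (-1, -5), (3, 3), (-5, -4), (4, -4), (-1, 5)],
  [(-1, -3), (-3, -1), (-1, 7), (5, 0), (-8, -5), (1, 2), (7, 0), (-6, 1)],
  [(4, -2), (2, -1), (-2, 2), (0, 1), (2, 4), (3, 0), (4, 3), (-3, -3)],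
  [(2, -2), (1, 1), (0, -2), (-2, 1), (-2, 3), (0, 1), (2, 3), (-1, 0)],
  [(-1, 0), (-1, 2), (-2, 3), (-2, -1), (-4, -2), (3, 2), (-1, 1), (0, -4)]]

theorem ex_table1 : ∀ p s0 s1 s2 s3 : Bool,
    let n := (((p.toNat * 2 + s0.toNat) * 2 + s1.toNat) * 2 + s2.toNat) * 2 + s3.toNat
    let P := look exTab1 n
    sat3 p (P 0) (P 3) (P 1) (P 4) ∧
    sat3 (!p) (P 1) (P 0) (P 2) (P 5) ∧
    sat3 p (P 2) (P 1) (P 3) (P 6) ∧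
    sat3 (!p) (P 3) (P 2) (P 0) (P 7) ∧
    sat3 s0 (P 4) (P 6) (P 7) (P 0) ∧
    sat3 s1 (P 5) (P 6) (P 7) (P 1) ∧
    sat3 s2 (P 6) (P 4) (P 5) (P 2) ∧
    sat3 s3 (P 7) (P 4) (P 5) (P 3) := by
  decide +kernel

/-- Drawings of two four-cycles joined by a perfect matching, type 2. -/
def exTab2 : List (List (ℤ × ℤ)) := [
  [(4, -1), (1, 4), (-3, -5), (-5, 6), (3, 4), (1, -5), (-3, 4), (0, 3)],
  [(-3, 1), (1, -1), (0, -2), (-1, 3), (-3, -1), (-2, 1), (1, 1), (-1, 1)],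
  [(-4, -2), (-2, 4), (-1, 1), (4, -1), (2, 0), (3, -5), (0, -2), (4, 5)],
  [(-4, 2), (2, 2), (-6, 0), (-6, 5), (-7, -8), (5, 6), (-4, 5), (6, 2)],
  [(1, 1), (-4, -4), (-2, 0), (3, 3), (0, 4), (2, -5), (-3, -4), (1, -1)],
  [(6, -6), (-6, 2), (6, -2), (10, 6), (2, -3), (-9, 9), (9, 0), (5, 3)],
  [(9, -1), (-10, 5), (-9, -8), (0, 1), (-5, -1), (-7, -3), (-10, 1), (-7, 2)],
  [(-2, -5), (-3, 4), (-2, 3), (4, -1), (6, 5), (5, 6), (-1, -4), (6, 6)],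
  [(0, -10), (6, -6), (-9, 3), (5, -6), (-5, 5), (3, -7), (4, 5), (5, 2)],
  [(-4, -5), (5, -6), (-5, -5), (-4, 0), (-6, 5), (5, -1), (-2, 4), (4, 6)],
  [(3, -2), (0, 5), (-3, -4), (-4, -1), (5, 1), (2, -4), (-3, 1), (-4, 5)],
  [(-5, 8), (0, 6), (1, -1), (-6, -5), (6, 0), (6, 2), (-4, 8), (-6, 3)],
  [(-1, -2), (1, 2), (-2, 3), (-1, 1), (-2, -2), (0, 1), (-3, -3), (2, -2)],
  [(2, 6), (-6, 3), (-7, 2), (1, 2), (7, 6), (5, -8), (-4, 8), (0, 6)],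
  [(1, -2), (-3, 1), (1, 3), (1, 2), (0, 0), (0, 3), (0, -3), (2, 2)],
  [(7, 9), (7, -1), (6, 1), (-8, 9), (-9, 2), (5, -7), (6, 4), (-10, -4)],
  [(-4, 8), (-8, -10), (5, -8), (-4, 10), (3, 7), (-6, 0), (-6, 4), (7, -10)],
  [(2, 2), (3, -2), (-2, -3), (2, 0), (-3, -1), (-3, 2), (-1, 2), (3, 3)],
  [(3, 3), (-4, 4), (0, -6), (5, 4), (1, -1), (-6, -3), (-4, 7), (8, 0)],
  [(3, -5), (-5, -4), (2, 0), (6, -2), (6, -3), (2, -1), (-3, 4), (0, -4)],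
  [(-3, -2), (-3, 1), (3, 3), (1, 2), (-2, -2), (1, 1), (0, -2), (0, 3)],
  [(-5, -2), (-5, 7), (-9, -2), (8, -9), (-8, 3), (9, 5), (3, -6), (-9, 9)],
  [(5, 2), (3, 2), (1, -1), (-1, 5), (3, 0), (-3, -3), (-4, 1), (2, 1)],
  [(-7, 3), (7, -9), (10, 1), (-8, -4), (1, 10), (-7, -10), (-6, -4), (-6, 9)],
  [(-4, -5), (-1, 3), (2, 0), (0, 0), (0, -3), (6, -6), (-2, 5), (-3, 0)],
  [(3, 3), (-3, 2), (-2, -3), (-1, -3), (1, 1), (-1, 3), (1, -1), (3, -3)],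
  [(3, -3), (-2, 4), (-2, -1), (-3, -2), (-4, -1), (3, 0), (3, -4), (-3, 2)],
  [(-1, 3), (2, -1), (-3, -1), (-3, 3), (3, 2), (-2, 2), (3, -3), (1, 1)],
  [(6, 3), (1, 2), (-7, 6), (4, -6), (-1, -8), (-8, 8), (5, -1), (-4, 1)],
  [(0, 0), (5, -3), (0, 4), (-1, 1), (3, 1), (-2, -3), (2, -3), (-2, -5)],
  [(4, -4), (-6, 0), (-4, 1), (1, -1), (-2, -6), (0, 0), (0, 1), (1, -4)],
  [(-4, 4), (3, 3), (-2, 0), (0, 3), (-1, 4), (-2, 1), (3, 1), (2, 1)]]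

theorem ex_table2 : ∀ p s0 s1 s2 s3 : Bool,
    let n := (((p.toNat * 2 + s0.toNat) * 2 + s1.toNat) * 2 + s2.toNat) * 2 + s3.toNat
    let P := look exTab2 n
    sat3 p (P 0) (P 3) (P 1) (P 4) ∧
    sat3 (!p) (P 1) (P 0) (P 2) (P 5) ∧
    sat3 p (P 2) (P 1) (P 3) (P 6) ∧
    sat3 (!p) (P 3) (P 2) (P 0) (P 7) ∧
    sat3 s0 (P 4) (P 5) (P 6) (P 0) ∧
    sat3 s1 (P 5) (P 4) (P 7) (P 1) ∧
    sat3 s2 (P 6) (P 4) (P 7) (P 2) ∧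
    sat3 s3 (P 7) (P 5) (P 6) (P 3) := by
  decide +kernel

end Pool.Agent.Lib.MP_8b4fe7_lc
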