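import Pool.Agent.Lib.MP_8b4fe7_lc.Plane

/-!
# Drawing a cycle with prescribed outward directions
-/

namespace Pool.Agent.Lib.MP_8b4fe7_lc

open Filter Topology

/-- The three directions are in counterclockwise order if `s` holds and in clockwise order
otherwise. -/
def sg (s : Prop) (u v w : Pt) : Prop := (s → cyc u v w) ∧ (¬ s → cyc v u w)

theorem eventually_sg {α : Type*} {l : Filter α} {f g k : α → Pt} {u v w : Pt} {s : Prop}
    (hf : Tendsto f l (𝓝 u)) (hg : Tendsto g l (𝓝 v)) (hk : Tendsto k l (𝓝 w))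
    (h : sg s u v w) : ∀ᶠ x in l, sg s (f x) (g x) (k x) := by
  by_cases hs : s
  · filter_upwards [eventually_cyc hf hg hk (h.1 hs)] with x hx
    exact ⟨fun _ => hx, fun h => absurd hs h⟩
  · filter_upwards [eventually_cyc hg hf hk (h.2 hs)] with x hx
    exact ⟨fun h => absurd h hs, fun _ => hx⟩

theorem sg_smul {a b c : ℝ} (ha : 0 < a) (hb : 0 < b) (hc : 0 < c) {u v w : Pt} {s : Prop}
    (h : sg s u v w) : sg s (a • u) (b • v) (c • w) :=
  ⟨fun hs => cyc_smul ha hb hc (h.1 hs), fun hs => cyc_smul hb ha hc (h.2 hs)⟩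

theorem sg_refl {u v w : Pt} {s : Prop} (h : sg (¬ s) u v w) :
    sg s (refl u) (refl v) (refl w) := by
  refine ⟨fun hs => ?_, fun hs => ?_⟩
  · exact cyc_refl (h.2 (not_not.2 hs))
  · exact cyc_refl (h.1 hs)

/-- Equal or not parallel. -/
def EqOrIndep (u v : Pt) : Prop := u = v ∨ det u v ≠ 0

theorem EqOrIndep.offRay {u v : Pt} (h : EqOrIndep u v) : OffRay u (-v) := by
  rcases h with rfl | h
  · right; exact ⟨1, one_pos, by rw [one_smul]⟩
  · left; rw [det_neg_right]; exact neg_ne_zero.2 h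

theorem EqOrIndep.offRay' {u v : Pt} (h : EqOrIndep u v) : OffRay (-u) v := by
  rcases h with rfl | h
  · right; exact ⟨1, one_pos, by rw [one_smul, neg_neg]⟩
  · left; rw [det_neg_left]; exact neg_ne_zero.2 h

theorem big_A {r0 r1 r2 r3 : Pt} (h1 : r1 ≠ 0) (h01 : EqOrIndep r1 r0)
    (h12 : EqOrIndep r2 r1) (h13 : EqOrIndep r1 r3) :
    ∃ q : Pt, cyc q (-r1) r0 ∧ cyc (-r1 - q) (-q) r3 ∧ OffRay r2 (q + r1) := by
  have hJ := det_J_pos h1
  have hpos : ∀ᶠ t in 𝓝[>] (0 : ℝ), 0 < t := self_mem_nhdsWithin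
  let q : ℝ → Pt := fun t => (2 : ℝ) • (-r1 - t • J (-r1))
  have hJn : J (-r1) = - J r1 := by unfold J; ext <;> simp
  have e1 : ∀ᶠ t in 𝓝[>] (0 : ℝ), cyc (q t) (-r1) r0 := by
    have := thin_neg (neg_ne_zero.2 h1) h01.offRay' (f := fun _ => r0) tendsto_const_nhds
    filter_upwards [this] with t ht
    have h2 := cyc_smul two_pos one_pos one_pos (cyc_rot ht)
    rwa [one_smul, one_smul] at h2
  have e2 : ∀ᶠ t in 𝓝[>] (0 : ℝ), cyc (-r1 - q t) (-q t) r3 := by
    have hq : ∀ t, -r1 - q t = r1 - (2 * t) • J r1 := by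
      intro t; simp only [q, hJn]; ext <;> simp <;> ring
    have hq' : ∀ t, -q t = (2 : ℝ) • r1 - (2 * t) • J r1 := by
      intro t; simp only [q, hJn]; ext <;> simp <;> ring
    have key : ∀ t : ℝ, 0 < t → 0 < det (-r1 - q t) (-q t) := by
      intro t ht
      rw [hq, hq']
      simp only [det_sub_left, det_sub_right, det_smul_left, det_smul_right, det_self]
      rw [det_swap r1 (J r1)]
      nlinarith
    have l1 : Tendsto (fun t => -r1 - q t) (𝓝[>] 0) (𝓝 r1) := by
      have : Tendsto (fun t : ℝ => r1 - (2 * t) • J r1) (𝓝 0) (𝓝 (r1 - (2 * (0 : ℝ)) • J r1)) :=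
        tendsto_const_nhds.sub ((tendsto_id.const_mul 2).smul tendsto_const_nhds)
      simp only [mul_zero, zero_smul, sub_zero] at this
      simp only [hq]
      exact this.mono_left nhdsWithin_le_nhds
    have l2 : Tendsto (fun t => -q t) (𝓝[>] 0) (𝓝 ((2 : ℝ) • r1)) := by
      have : Tendsto (fun t : ℝ => (2 : ℝ) • r1 - (2 * t) • J r1) (𝓝 0)
          (𝓝 ((2 : ℝ) • r1 - (2 * (0 : ℝ)) • J r1)) :=
        tendsto_const_nhds.sub ((tendsto_id.const_mul 2).smul tendsto_const_nhds)
      simp only [mul_zero, zero_smul, sub_zero] at this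
      simp only [hq']
      exact this.mono_left nhdsWithin_le_nhds
    rcases h13 with rfl | h13
    · filter_upwards [hpos] with t ht
      refine Or.inl ⟨key t ht, ?_⟩
      rw [hq']
      simp only [det_sub_left, det_smul_left, det_self]
      rw [det_swap r1 (J r1)]
      nlinarith
    · rcases lt_or_gt_of_ne h13 with h | h
      · have h2 : 0 < det r3 r1 := by rw [det_swap]; linarith
        filter_upwards [hpos, eventually_det_pos (tendsto_const_nhds (x := r3)) l1 h2] with t ht h3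
        exact Or.inr (Or.inr ⟨h3, key t ht⟩)
      · have h2 : 0 < det ((2 : ℝ) • r1) r3 := by rw [det_smul_left]; linarith
        filter_upwards [hpos, eventually_det_pos l2 (tendsto_const_nhds (x := r3)) h2] with t ht h3
        exact Or.inl ⟨key t ht, h3⟩
  have e3 : ∀ᶠ t in 𝓝[>] (0 : ℝ), OffRay r2 (q t + r1) := by
    have hq : ∀ t, q t + r1 = -r1 + (2 * t) • J r1 := by
      intro t; simp only [q, hJn]; ext <;> simp <;> ring
    rcases h12 with rfl | h12
    · filter_upwards [hpos] with t ht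
      left
      rw [hq, det_add_right, det_neg_right, det_self, det_smul_right]
      have : 0 < 2 * t * det r2 (J r2) := by positivity
      linarith
    · have l1 : Tendsto (fun t => q t + r1) (𝓝[>] 0) (𝓝 (-r1)) := by
        have : Tendsto (fun t : ℝ => -r1 + (2 * t) • J r1) (𝓝 0)
            (𝓝 (-r1 + (2 * (0 : ℝ)) • J r1)) :=
          tendsto_const_nhds.add ((tendsto_id.const_mul 2).smul tendsto_const_nhds)
        simp only [mul_zero, zero_smul, add_zero] at this
        simp only [hq]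
        exact this.mono_left nhdsWithin_le_nhds
      have h2 : det r2 (-r1) ≠ 0 := by rw [det_neg_right]; exact neg_ne_zero.2 h12
      filter_upwards [(tendsto_det (tendsto_const_nhds (x := r2)) l1).eventually_ne h2] with t ht
      exact Or.inl ht
  obtain ⟨t, h2, h3, h4⟩ := (e1.and (e2.and e3)).exists
  exact ⟨q t, h2, h3, h4⟩

theorem big_B {r0 r1 r2 r3 : Pt} (hD : 0 < det r0 r1)
    (h12 : EqOrIndep r2 r1) (h13 : EqOrIndep r1 r3) :
    ∃ q : Pt, cyc q (-r1) r0 ∧ cyc (-q) (-r1 - q) r3 ∧ OffRay r2 (q + r1) := by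
  let q : ℝ → Pt := fun t => r0 + t • r1
  have hpos : ∀ᶠ t : ℝ in atTop, 0 < t := eventually_gt_atTop 0
  have e1 : ∀ᶠ t in atTop, cyc (q t) (-r1) r0 := by
    filter_upwards [hpos] with t ht
    refine Or.inr (Or.inl ⟨?_, ?_⟩)
    · rw [det_neg_left, det_swap r0 r1]; linarith
    · simp only [q, det_add_right, det_self, det_smul_right, zero_add]
      positivity
  have e2 : ∀ᶠ t in atTop, cyc (-q t) (-r1 - q t) r3 := by
    have key : ∀ t : ℝ, 0 < det (-q t) (-r1 - q t) := by
      intro t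
      have : det (-q t) (-r1 - q t) = det r0 r1 := by
        simp only [q, det_neg_left, det_neg_right, det_sub_right, det_add_left, det_add_right,
          det_smul_left, det_smul_right, det_self]
        rw [det_swap r0 r1]; ring
      rw [this]; exact hD
    have f1 : ∀ t : ℝ, det (-r1 - q t) r3 = - (det r0 r3 + det r1 r3) + t * (- det r1 r3) := by
      intro t
      simp only [q, det_neg_left, det_sub_left, det_add_left, det_smul_left]; ring
    have f2 : ∀ t : ℝ, det r3 (-q t) = det r0 r3 + t * det r1 r3 := by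
      intro t
      simp only [q, det_neg_right, det_add_right, det_smul_right]
      rw [det_swap r0 r3, det_swap r1 r3]; ring
    rcases h13 with rfl | h13
    · filter_upwards [hpos] with t ht
      refine Or.inr (Or.inr ⟨?_, key t⟩)
      rw [f2, det_self]; linarith
    · rcases lt_or_gt_of_ne h13 with h | h
      · have : Tendsto (fun t : ℝ => - (det r0 r3 + det r1 r3) + t * (- det r1 r3)) atTop atTop :=
          tendsto_atTop_add_const_left _ _ (tendsto_id.atTop_mul_const (by linarith))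
        filter_upwards [this.eventually_gt_atTop 0] with t ht
        refine Or.inl ⟨key t, ?_⟩
        rw [f1]; exact ht
      · have : Tendsto (fun t : ℝ => det r0 r3 + t * det r1 r3) atTop atTop :=
          tendsto_atTop_add_const_left _ _ (tendsto_id.atTop_mul_const h)
        filter_upwards [this.eventually_gt_atTop 0] with t ht
        refine Or.inr (Or.inr ⟨?_, key t⟩)
        rw [f2]; exact ht
  have e3 : ∀ᶠ t in atTop, OffRay r2 (q t + r1) := by
    have f1 : ∀ t : ℝ, det r2 (q t + r1) = (det r2 r0 + det r2 r1) + t * det r2 r1 := by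
      intro t
      simp only [q, det_add_right, det_smul_right]; ring
    rcases h12 with rfl | h12
    · filter_upwards with t
      left
      rw [f1, det_self, det_swap r0 r2]
      simp; linarith
    · rcases lt_or_gt_of_ne h12 with h | h
      · have : Tendsto (fun t : ℝ => (det r2 r0 + det r2 r1) + t * det r2 r1) atTop atBot :=
          tendsto_atBot_add_const_left _ _ (tendsto_id.atTop_mul_const_of_neg h)
        filter_upwards [this.eventually_lt_atBot 0] with t ht
        left; rw [f1]; exact ht.ne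
      · have : Tendsto (fun t : ℝ => (det r2 r0 + det r2 r1) + t * det r2 r1) atTop atTop :=
          tendsto_atTop_add_const_left _ _ (tendsto_id.atTop_mul_const h)
        filter_upwards [this.eventually_gt_atTop 0] with t ht
        left; rw [f1]; exact ht.ne'
  obtain ⟨t, h2, h3, h4⟩ := (e1.and (e2.and e3)).exists
  exact ⟨q t, h2, h3, h4⟩

open Classical in
theorem micro (m : ℕ) (ρ : ℕ → Pt) (s : ℕ → Prop) (q : Pt)
    (h0 : ∀ i, i ≤ m + 2 → ρ i ≠ 0)
    (hpar : ∀ i j, i ≤ m + 2 → j ≤ m + 2 → EqOrIndep (ρ i) (ρ j))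
    (M0 : sg (s 0) q (-ρ 1) (ρ 0)) (M1 : sg (s (m + 2)) (-ρ 1 - q) (-q) (ρ (m + 2)))
    (M2 : OffRay (ρ (m + 1)) (q + ρ 1)) :
    ∃ x : ℕ → Pt, sg (s 0) (x (m + 2) - x 0) (x 1 - x 0) (ρ 0) ∧
      (∀ i, i ≤ m → sg (s (i + 1)) (x i - x (i + 1)) (x (i + 2) - x (i + 1)) (ρ (i + 1))) ∧
      sg (s (m + 2)) (x (m + 1) - x (m + 2)) (x 0 - x (m + 2)) (ρ (m + 2)) := by
  let e : ℕ → ℝ := fun i => if s i then 1 else -1
  let D : ℕ → ℝ → Pt := fun i t => ρ i + (e i * t) • J (ρ i)
  let c : ℕ → ℝ → ℝ := fun i t => if i = 0 then 1 else t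
  let y : ℝ → ℕ → Pt := fun t i => Nat.rec 0 (fun i z => z - c i t • D (i + 1) t) i
  have y0 : ∀ t, y t 0 = 0 := fun t => rfl
  have ys : ∀ t i, y t (i + 1) = y t i - c i t • D (i + 1) t := fun t i => rfl
  have hD : ∀ i, Tendsto (D i) (𝓝[>] 0) (𝓝 (ρ i)) := by
    intro i
    have : Tendsto (fun t : ℝ => ρ i + (e i * t) • J (ρ i)) (𝓝 0)
        (𝓝 (ρ i + (e i * 0) • J (ρ i))) :=
      tendsto_const_nhds.add ((tendsto_id.const_mul _).smul tendsto_const_nhds)
    simp only [mul_zero, zero_smul, add_zero] at this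
    exact this.mono_left nhdsWithin_le_nhds
  have ht0 : Tendsto (fun t : ℝ => t) (𝓝[>] (0 : ℝ)) (𝓝 0) :=
    tendsto_id.mono_left nhdsWithin_le_nhds
  have hy : ∀ i, Tendsto (fun t => y t (i + 1)) (𝓝[>] 0) (𝓝 (-ρ 1)) := by
    intro i
    induction i with
    | zero =>
      have h1 : ∀ t, y t (0 + 1) = - D 1 t := by
        intro t; rw [ys, y0]; simp [c]
      simp only [h1]
      exact (hD 1).neg
    | succ i ih =>
      have h1 : ∀ t, y t (i + 1 + 1) = y t (i + 1) - t • D (i + 1 + 1) t := by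
        intro t
        have hc : c (i + 1) t = t := if_neg (Nat.succ_ne_zero i)
        rw [ys t (i + 1), hc]
      simp only [h1]
      have := ih.sub (ht0.smul (hD (i + 1 + 1)))
      simpa using this
  have hpos : ∀ᶠ t in 𝓝[>] (0 : ℝ), 0 < t := self_mem_nhdsWithin
  let x : ℝ → ℕ → Pt := fun t i => if i ≤ m + 1 then y t i else q
  have hx : ∀ t i, i ≤ m + 1 → x t i = y t i := fun t i hi => if_pos hi
  have hxq : ∀ t, x t (m + 2) = q := fun t => if_neg (by omega)
  have E0 : ∀ᶠ t in 𝓝[>] (0 : ℝ), sg (s 0) (x t (m + 2) - x t 0) (x t 1 - x t 0) (ρ 0) := by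
    have := eventually_sg (tendsto_const_nhds (x := q)) (hy 0) (tendsto_const_nhds (x := ρ 0)) M0
    filter_upwards [this] with t ht
    rw [hxq, hx t 0 (by omega), hx t 1 (by omega), y0, sub_zero, sub_zero]
    exact ht
  have E1 : ∀ᶠ t in 𝓝[>] (0 : ℝ),
      sg (s (m + 2)) (x t (m + 1) - x t (m + 2)) (x t 0 - x t (m + 2)) (ρ (m + 2)) := by
    have l1 : Tendsto (fun t => y t (m + 1) - q) (𝓝[>] 0) (𝓝 (-ρ 1 - q)) :=
      (hy m).sub tendsto_const_nhds
    have := eventually_sg l1 (tendsto_const_nhds (x := -q)) (tendsto_const_nhds (x := ρ (m + 2))) M1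
    filter_upwards [this] with t ht
    rw [hxq, hx t 0 (by omega), hx t (m + 1) (by omega), y0, zero_sub]
    exact ht
  have E2 : ∀ i, i ≤ m → ∀ᶠ t in 𝓝[>] (0 : ℝ),
      sg (s (i + 1)) (x t i - x t (i + 1)) (x t (i + 2) - x t (i + 1)) (ρ (i + 1)) := by
    intro i hi
    -- normalized direction to the next vertex
    obtain ⟨f, w, a, hf, hw, ha, hfx⟩ : ∃ (f : ℝ → Pt) (w : Pt) (a : ℝ → ℝ),
        Tendsto f (𝓝[>] 0) (𝓝 w) ∧ OffRay (ρ (i + 1)) w ∧ (∀ t, 0 < t → 0 < a t) ∧
        ∀ t, x t (i + 2) - x t (i + 1) = a t • f t := by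
      rcases Nat.lt_or_ge i m with h | h
      · refine ⟨fun t => - D (i + 2) t, - ρ (i + 2), fun t => t, (hD (i + 2)).neg,
          (hpar (i + 1) (i + 2) (by omega) (by omega)).offRay, fun t ht => ht, fun t => ?_⟩
        rw [hx t (i + 2) (by omega), hx t (i + 1) (by omega), ys t (i + 1)]
        have : c (i + 1) t = t := by simp [c]
        rw [this]
        simp
      · have him : i = m := by omega
        subst him
        refine ⟨fun t => q - y t (i + 1), q + ρ 1, fun _ => 1, ?_, M2, fun t ht => one_pos,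
          fun t => ?_⟩
        · have := (tendsto_const_nhds (x := q) (f := 𝓝[>] (0 : ℝ))).sub (hy i)
          simpa using this
        · rw [hxq, hx t (i + 1) (by omega), one_smul]
    have hcpos : ∀ t : ℝ, 0 < t → 0 < c i t := by
      intro t ht
      simp only [c]; split_ifs
      · exact one_pos
      · exact ht
    have hprev : ∀ t, x t i - x t (i + 1) = c i t • D (i + 1) t := by
      intro t
      rw [hx t i (by omega), hx t (i + 1) (by omega), ys t i]; simp
    by_cases hs : s (i + 1)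
    · have := thin_pos (h0 (i + 1) (by omega)) hw hf
      filter_upwards [this, hpos] with t ht htp
      refine ⟨fun _ => ?_, fun h => absurd hs h⟩
      rw [hprev, hfx]
      have hDt : D (i + 1) t = ρ (i + 1) + t • J (ρ (i + 1)) := by
        simp only [D, e, if_pos hs, one_mul]
      rw [hDt]
      have := cyc_smul (hcpos t htp) (ha t htp) one_pos ht
      rwa [one_smul] at this
    · have := thin_neg (h0 (i + 1) (by omega)) hw hf
      filter_upwards [this, hpos] with t ht htp
      refine ⟨fun h => absurd h hs, fun _ => ?_⟩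
      rw [hprev, hfx]
      have hDt : D (i + 1) t = ρ (i + 1) - t • J (ρ (i + 1)) := by
        simp only [D, e, if_neg hs]
        simp [sub_eq_add_neg]
      rw [hDt]
      have := cyc_smul (ha t htp) (hcpos t htp) one_pos ht
      rwa [one_smul] at this
  have E2' : ∀ᶠ t in 𝓝[>] (0 : ℝ), ∀ i ∈ Finset.range (m + 1),
      sg (s (i + 1)) (x t i - x t (i + 1)) (x t (i + 2) - x t (i + 1)) (ρ (i + 1)) := by
    rw [Finset.eventually_all]
    intro i hi
    exact E2 i (by rw [Finset.mem_range] at hi; omega)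
  obtain ⟨t, g0, g1, g2⟩ := (E0.and (E1.and E2')).exists
  exact ⟨x t, g0, fun i hi => g2 i (Finset.mem_range.2 (by omega)), g1⟩

theorem template_pos (m : ℕ) (ρ : ℕ → Pt) (s : ℕ → Prop)
    (h0 : ∀ i, i ≤ m + 2 → ρ i ≠ 0)
    (hpar : ∀ i j, i ≤ m + 2 → j ≤ m + 2 → EqOrIndep (ρ i) (ρ j))
    (hs0 : s 0) (hcan : s (m + 2) ∨ 0 < det (ρ 0) (ρ 1)) :
    ∃ x : ℕ → Pt, sg (s 0) (x (m + 2) - x 0) (x 1 - x 0) (ρ 0) ∧
      (∀ i, i ≤ m → sg (s (i + 1)) (x i - x (i + 1)) (x (i + 2) - x (i + 1)) (ρ (i + 1))) ∧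
      sg (s (m + 2)) (x (m + 1) - x (m + 2)) (x 0 - x (m + 2)) (ρ (m + 2)) := by
  have h10 := hpar 1 0 (by omega) (by omega)
  have h21 := hpar (m + 1) 1 (by omega) (by omega)
  have h13 := hpar 1 (m + 2) (by omega) (by omega)
  by_cases hs : s (m + 2)
  · obtain ⟨q, a1, a2, a3⟩ := big_A (h0 1 (by omega)) h10 h21 h13
    exact micro m ρ s q h0 hpar ⟨fun _ => a1, fun h => absurd hs0 h⟩
      ⟨fun _ => a2, fun h => absurd hs h⟩ a3
  · have hD := hcan.resolve_left hs
    obtain ⟨q, a1, a2, a3⟩ := big_B hD h21 h13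
    exact micro m ρ s q h0 hpar ⟨fun _ => a1, fun h => absurd hs0 h⟩
      ⟨fun h => absurd h hs, fun _ => a2⟩ a3

/-- The cycle template: the vertices `0, 1, …, m + 2` of a cycle can be placed so that at every
vertex the previous vertex, the next vertex and the prescribed outward direction are in the
prescribed cyclic order. -/
theorem template (m : ℕ) (ρ : ℕ → Pt) (s : ℕ → Prop)
    (h0 : ∀ i, i ≤ m + 2 → ρ i ≠ 0)
    (hpar : ∀ i j, i ≤ m + 2 → j ≤ m + 2 → EqOrIndep (ρ i) (ρ j))
    (hcan : (s 0 ↔ s (m + 2)) ∨ (s 0 ∧ 0 < det (ρ 0) (ρ 1)) ∨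
      (¬ s 0 ∧ det (ρ 0) (ρ 1) < 0)) :
    ∃ x : ℕ → Pt, sg (s 0) (x (m + 2) - x 0) (x 1 - x 0) (ρ 0) ∧
      (∀ i, i ≤ m → sg (s (i + 1)) (x i - x (i + 1)) (x (i + 2) - x (i + 1)) (ρ (i + 1))) ∧
      sg (s (m + 2)) (x (m + 1) - x (m + 2)) (x 0 - x (m + 2)) (ρ (m + 2)) := by
  by_cases hs : s 0
  · exact template_pos m ρ s h0 hpar hs (by tauto)
  · obtain ⟨x, a1, a2, a3⟩ := template_pos m (fun i => refl (ρ i)) (fun i => ¬ s i)
      (fun i hi => refl_ne_zero (h0 i hi))
      (by
        intro i j hi hj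
        rcases hpar i j hi hj with h | h
        · left; simp only [h]
        · right; rw [det_refl]; exact neg_ne_zero.2 h)
      hs (by
        rcases hcan with h | h | h
        · left; tauto
        · exact absurd h.1 hs
        · right; rw [det_refl]; linarith [h.2])
    refine ⟨fun i => refl (x i), ?_, fun i hi => ?_, ?_⟩
    · have := sg_refl a1
      rwa [refl_sub, refl_sub, refl_refl] at this
    · have := sg_refl (a2 i hi)
      rwa [refl_sub, refl_sub, refl_refl] at this
    · have := sg_refl a3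
      rwa [refl_sub, refl_sub, refl_refl] at this

end Pool.Agent.Lib.MP_8b4fe7_lc
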